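import Pool.Agent.H.MP_96e181_an.spz.Defs

/-! # Module ClassComb: the counting argument of case A

For `K ⊆ U`, `#K = k`, let `n_K = #{v ∈ S : K ∈ Kc v}` and let `b_K` be the number of
`v' ∈ box` with `K ⊆ {i ∈ U : F v' i ≠ 0}` and `#{i ∈ U : F v' i ≠ 0} ≤ k + s`.
`(v, w) ↦ (v - (rst K (c v) + w), rst K (c v))` maps `{v : K ∈ Kc v} × simp1 p K W` injectively
into `{v' as above} × simp0 p K M` (from the image one recovers `w`: `w = F v'` on `K`, `0`
outside, and then `v`).  So `n_K #simp1 ≤ b_K #simp0 ≤ b_K q^k #simp1` and `n_K ≤ q^k b_K`.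
`∑_v #(Kc v) = ∑_K n_K ≤ q^k ∑_K b_K ≤ q^k (k+s choose k) #box`. -/

set_option autoImplicit false

namespace Furst96.Spz

variable {ι : Type*} [Fintype ι] [DecidableEq ι]

private theorem ClassComb_rst {K : Finset ι} {a : ι → ℕ} {i : ι} (hi : i ∉ K) :
    rst K a i = 0 := if_neg hi

private theorem ClassComb_one (p : ι → ℕ) (hp : ∀ i, 2 ≤ p i) (V k s q : ℕ) (M W : ℝ)
    (U : Finset ι) (S : Finset (ι → ℕ)) (hS : S ⊆ box ι V) (c : (ι → ℕ) → (ι → ℕ))
    (Kc : (ι → ℕ) → Finset (Finset ι)) (F : (ι → ℕ) → (ι → ℕ))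
    (hK : ∀ v ∈ S, ∀ K ∈ Kc v, K ⊆ U ∧ K.card = k ∧ wt p (rst K (c v)) ≤ M)
    (hF : ∀ v ∈ S, ∀ K ∈ Kc v, ∀ w ∈ simp1 p K W, rst K (c v) + w ≤ v ∧
      (∀ i ∈ K, F (v - (rst K (c v) + w)) i = w i) ∧
      (U.filter fun i => F (v - (rst K (c v) + w)) i ≠ 0).card ≤ k + s)
    (hq : ∀ K ⊆ U, K.card = k →
      (simp0 p K M).card ≤ q ^ k * (simp1 p K W).card ∧ 0 < (simp1 p K W).card)
    (K : Finset ι) (hKU : K ⊆ U) (hKk : K.card = k) :
    (S.filter fun v => K ∈ Kc v).card ≤ q ^ k * ((box ι V).filter fun v' =>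
      K ⊆ (U.filter fun i => F v' i ≠ 0) ∧ (U.filter fun i => F v' i ≠ 0).card ≤ k + s).card := by
  obtain ⟨A, hA⟩ : ∃ A, A = S.filter fun v => K ∈ Kc v := ⟨_, rfl⟩
  obtain ⟨B, hB⟩ : ∃ B, B = (box ι V).filter fun v' =>
      K ⊆ (U.filter fun i => F v' i ≠ 0) ∧ (U.filter fun i => F v' i ≠ 0).card ≤ k + s :=
    ⟨_, rfl⟩
  rw [← hA, ← hB]
  obtain ⟨h1, h2⟩ := hq K hKU hKk
  have key : (A ×ˢ simp1 p K W).card ≤ (B ×ˢ simp0 p K M).card := by
    refine Finset.card_le_card_of_injOn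
      (fun x => (x.1 - (rst K (c x.1) + x.2), rst K (c x.1))) ?_ ?_
    · rintro ⟨v, w⟩ hvw
      rw [Finset.mem_coe, Finset.mem_product, hA, Finset.mem_filter] at hvw
      obtain ⟨⟨hv, hvK⟩, hw⟩ := hvw
      change w ∈ simp1 p K W at hw
      change v ∈ S at hv
      change K ∈ Kc v at hvK
      obtain ⟨f1, f2, f3⟩ := hF v hv K hvK w hw
      obtain ⟨w1, w2, w3⟩ := (mem_simp1 hp).1 hw
      rw [Finset.mem_coe, Finset.mem_product, hB, Finset.mem_filter]
      refine ⟨⟨?_, ?_, f3⟩, ?_⟩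
      · rw [mem_box]
        intro i
        have h4 := mem_box.1 (hS hv) i
        exact lt_of_le_of_lt (Nat.sub_le _ _) h4
      · intro i hi
        rw [Finset.mem_filter]
        refine ⟨hKU hi, ?_⟩
        have h4 := w2 i hi
        have h5 := f2 i hi
        show F (v - (rst K (c v) + w)) i ≠ 0
        rw [h5]
        omega
      · rw [mem_simp0 hp]
        exact ⟨fun i hi => ClassComb_rst hi, (hK v hv K hvK).2.2⟩
    · rintro ⟨v, w⟩ hvw ⟨v', w'⟩ hvw' he
      rw [Finset.mem_coe, Finset.mem_product, hA, Finset.mem_filter] at hvw hvw'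
      obtain ⟨⟨hv, hvK⟩, hw⟩ := hvw
      obtain ⟨⟨hv', hvK'⟩, hw'⟩ := hvw'
      change w ∈ simp1 p K W at hw
      change v ∈ S at hv
      change K ∈ Kc v at hvK
      change w' ∈ simp1 p K W at hw'
      change v' ∈ S at hv'
      change K ∈ Kc v' at hvK'
      obtain ⟨f1, f2, -⟩ := hF v hv K hvK w hw
      obtain ⟨f1', f2', -⟩ := hF v' hv' K hvK' w' hw'
      obtain ⟨w1, -, -⟩ := (mem_simp1 hp).1 hw
      obtain ⟨w1', -, -⟩ := (mem_simp1 hp).1 hw'
      obtain ⟨e1, e2⟩ := Prod.ext_iff.1 he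
      change v - (rst K (c v) + w) = v' - (rst K (c v') + w') at e1
      change rst K (c v) = rst K (c v') at e2
      have e3 : w = w' := by
        funext i
        by_cases hi : i ∈ K
        · rw [← f2 i hi, ← f2' i hi, e1]
        · rw [w1 i hi, w1' i hi]
      have e4 : v = v' := by
        rw [← tsub_add_cancel_of_le f1, ← tsub_add_cancel_of_le f1', e1, e2, e3]
      rw [e3, e4]
  rw [Finset.card_product, Finset.card_product] at key
  have h3 : A.card * (simp1 p K W).card ≤ (q ^ k * B.card) * (simp1 p K W).card := by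
    calc A.card * (simp1 p K W).card ≤ B.card * (simp0 p K M).card := key
      _ ≤ B.card * (q ^ k * (simp1 p K W).card) := Nat.mul_le_mul_left _ h1
      _ = (q ^ k * B.card) * (simp1 p K W).card := by ring
  exact Nat.le_of_mul_le_mul_right h3 h2

theorem class_comb (p : ι → ℕ) (hp : ∀ i, 2 ≤ p i) (V k s q : ℕ) (M W : ℝ) (U : Finset ι)
    (S : Finset (ι → ℕ)) (hS : S ⊆ box ι V) (c : (ι → ℕ) → (ι → ℕ))
    (Kc : (ι → ℕ) → Finset (Finset ι)) (F : (ι → ℕ) → (ι → ℕ))
    (hK : ∀ v ∈ S, ∀ K ∈ Kc v, K ⊆ U ∧ K.card = k ∧ wt p (rst K (c v)) ≤ M)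
    (hF : ∀ v ∈ S, ∀ K ∈ Kc v, ∀ w ∈ simp1 p K W, rst K (c v) + w ≤ v ∧
      (∀ i ∈ K, F (v - (rst K (c v) + w)) i = w i) ∧
      (U.filter fun i => F (v - (rst K (c v) + w)) i ≠ 0).card ≤ k + s)
    (hq : ∀ K ⊆ U, K.card = k →
      (simp0 p K M).card ≤ q ^ k * (simp1 p K W).card ∧ 0 < (simp1 p K W).card) :
    ∑ v ∈ S, (Kc v).card ≤ q ^ k * (k + s).choose k * V ^ Fintype.card ι := by
  have h1 : ∑ v ∈ S, (Kc v).card =
      ∑ K ∈ U.powersetCard k, (S.filter fun v => K ∈ Kc v).card := by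
    have h2 : ∀ v ∈ S, (Kc v).card = ∑ K ∈ U.powersetCard k, if K ∈ Kc v then 1 else 0 := by
      intro v hv
      rw [← Finset.card_filter]
      congr 1
      ext K
      rw [Finset.mem_filter, Finset.mem_powersetCard]
      exact ⟨fun h => ⟨⟨(hK v hv K h).1, (hK v hv K h).2.1⟩, h⟩, fun h => h.2⟩
    rw [Finset.sum_congr rfl h2, Finset.sum_comm]
    exact Finset.sum_congr rfl fun K _ => (Finset.card_filter _ _).symm
  have h3 : ∀ K ∈ U.powersetCard k, (S.filter fun v => K ∈ Kc v).card ≤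
      q ^ k * ((box ι V).filter fun v' => K ⊆ (U.filter fun i => F v' i ≠ 0) ∧
        (U.filter fun i => F v' i ≠ 0).card ≤ k + s).card := by
    intro K hKm
    rw [Finset.mem_powersetCard] at hKm
    exact ClassComb_one p hp V k s q M W U S hS c Kc F hK hF hq K hKm.1 hKm.2
  have h4 : ∑ K ∈ U.powersetCard k, ((box ι V).filter fun v' =>
      K ⊆ (U.filter fun i => F v' i ≠ 0) ∧ (U.filter fun i => F v' i ≠ 0).card ≤ k + s).card ≤
      (k + s).choose k * V ^ Fintype.card ι := by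
    have h5 : ∀ K ∈ U.powersetCard k, ((box ι V).filter fun v' =>
        K ⊆ (U.filter fun i => F v' i ≠ 0) ∧ (U.filter fun i => F v' i ≠ 0).card ≤ k + s).card =
        ∑ v' ∈ box ι V, if K ⊆ (U.filter fun i => F v' i ≠ 0) ∧
          (U.filter fun i => F v' i ≠ 0).card ≤ k + s then 1 else 0 := by
      intro K _
      rw [Finset.card_filter]
    rw [Finset.sum_congr rfl h5, Finset.sum_comm]
    calc ∑ v' ∈ box ι V, ∑ K ∈ U.powersetCard k, (if K ⊆ (U.filter fun i => F v' i ≠ 0) ∧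
          (U.filter fun i => F v' i ≠ 0).card ≤ k + s then 1 else 0)
        ≤ ∑ _v' ∈ box ι V, (k + s).choose k := by
          refine Finset.sum_le_sum fun v' _ => ?_
          rw [← Finset.card_filter]
          by_cases h6 : (U.filter fun i => F v' i ≠ 0).card ≤ k + s
          · calc _ ≤ ((U.filter fun i => F v' i ≠ 0).powersetCard k).card := by
                  refine Finset.card_le_card fun K hKm => ?_
                  rw [Finset.mem_filter, Finset.mem_powersetCard] at hKm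
                  rw [Finset.mem_powersetCard]
                  exact ⟨hKm.2.1, hKm.1.2⟩
              _ = ((U.filter fun i => F v' i ≠ 0).card).choose k := Finset.card_powersetCard _ _
              _ ≤ (k + s).choose k := Nat.choose_le_choose k h6
          · rw [Finset.filter_false_of_mem, Finset.card_empty]
            · exact Nat.zero_le _
            · rintro K _ ⟨_, h7⟩
              exact h6 h7
      _ = (k + s).choose k * V ^ Fintype.card ι := by
          rw [Finset.sum_const, card_box, smul_eq_mul, mul_comm]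
  calc ∑ v ∈ S, (Kc v).card = ∑ K ∈ U.powersetCard k, (S.filter fun v => K ∈ Kc v).card := h1
    _ ≤ ∑ K ∈ U.powersetCard k, q ^ k * ((box ι V).filter fun v' =>
        K ⊆ (U.filter fun i => F v' i ≠ 0) ∧
          (U.filter fun i => F v' i ≠ 0).card ≤ k + s).card := Finset.sum_le_sum h3
    _ = q ^ k * ∑ K ∈ U.powersetCard k, ((box ι V).filter fun v' =>
        K ⊆ (U.filter fun i => F v' i ≠ 0) ∧
          (U.filter fun i => F v' i ≠ 0).card ≤ k + s).card := by rw [Finset.mul_sum]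
    _ ≤ q ^ k * ((k + s).choose k * V ^ Fintype.card ι) := Nat.mul_le_mul_left _ h4
    _ = q ^ k * (k + s).choose k * V ^ Fintype.card ι := by ring

end Furst96.Spz
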