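import Pool.Agent.H.MP_96e181_an.spz.Defs

/-! # Module ExistsQ: the primes used at the scale `2^i`

`sf i = 2 log₂ i + 2`, so `i² < 2^{sf i} ≤ 4 i²` (`i ≥ 1`).
`exists_Q`: at the scale `i` take a subset `Q` of `P ∩ [1, min(y, 2^(2^(i/2)))]` with `300 sf i`
elements (natural division `i / 2`).  It exists if `i` is large and `300 sf i ≤ A(y)`: with
`z = 2^(2^(i/2))`, `log log log z = log (log (2^(i/2) log 2)) ≥ log (i/3)`, say, for large `i`, and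
`1000 log (i/3) ≥ 300 (2 log₂ i + 2)` for large `i` since `600 / log 2 < 866`.
`400 ∑_Q log q ≤ 400 · 300 sf i · 2^(i/2) log 2 ≤ 2^i log 2` for large `i`. -/

set_option autoImplicit false

open Filter

namespace Furst96.Spz

/-- the parameter `s` at the scale `2^i`. -/
def sf (i : ℕ) : ℕ := 2 * Nat.log 2 i + 2

theorem one_le_sf (i : ℕ) : 1 ≤ sf i := by unfold sf; omega

theorem lt_two_pow_sf (i : ℕ) : i ^ 2 < 2 ^ sf i := by
  have h1 : i < 2 ^ (Nat.log 2 i + 1) := Nat.lt_pow_succ_log_self (by norm_num) i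
  have h2 : 2 ^ sf i = (2 ^ (Nat.log 2 i + 1)) ^ 2 := by
    rw [← pow_mul]
    congr 1
    unfold sf
    ring
  rw [h2]
  exact Nat.pow_lt_pow_left h1 (by norm_num)

theorem two_pow_sf_le (i : ℕ) (hi : 1 ≤ i) : 2 ^ sf i ≤ 4 * i ^ 2 := by
  have h1 : 2 ^ Nat.log 2 i ≤ i := Nat.pow_log_le_self 2 (by omega)
  have h2 : 2 ^ sf i = 4 * (2 ^ Nat.log 2 i) ^ 2 := by
    unfold sf
    rw [pow_add, mul_comm 2 (Nat.log 2 i), pow_mul]
    ring
  rw [h2]
  exact Nat.mul_le_mul_left 4 (Nat.pow_le_pow_left h1 2)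

theorem sf_mono {i j : ℕ} (h : i ≤ j) : sf i ≤ sf j := by
  have h1 := Nat.log_mono_right (b := 2) h
  unfold sf
  omega

private theorem ExistsQ_pow (j : ℕ) (hj : 30 ≤ j) : 480000 * (j + 1) ≤ 2 ^ j := by
  induction j, hj using Nat.le_induction with
  | base => norm_num
  | succ j hj ih =>
    rw [pow_succ]
    omega

private theorem ExistsQ_log (i : ℕ) (hi : 100 ≤ i) (hL : 20 ≤ Real.log i) :
    ((300 * sf i : ℕ) : ℝ) ≤
      1000 * Real.log (Real.log (Real.log ((2 ^ 2 ^ (i / 2) : ℕ) : ℝ))) := by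
  have hl2 : 0.6931 < Real.log 2 := by
    have := Real.log_two_gt_d9
    linarith
  have hl2' : Real.log 2 < 1 := by
    have := Real.log_two_lt_d9
    linarith
  have hipos : (0 : ℝ) < i := by
    have : 0 < i := by omega
    exact_mod_cast this
  have hi100 : (100 : ℝ) ≤ i := by exact_mod_cast hi
  have e1 : Real.log ((2 ^ 2 ^ (i / 2) : ℕ) : ℝ) = 2 ^ (i / 2) * Real.log 2 := by
    push_cast
    rw [Real.log_pow]
    push_cast
    ring
  have e2 : Real.log (Real.log ((2 ^ 2 ^ (i / 2) : ℕ) : ℝ)) =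
      ((i / 2 : ℕ) : ℝ) * Real.log 2 + Real.log (Real.log 2) := by
    rw [e1, Real.log_mul (by positivity) (by linarith), Real.log_pow]
  have h3 : -(0.45 : ℝ) ≤ Real.log (Real.log 2) := by
    have h4 := Real.one_sub_inv_le_log_of_pos (x := Real.log 2) (by linarith)
    have h5 : (Real.log 2)⁻¹ ≤ (0.6931 : ℝ)⁻¹ := inv_anti₀ (by norm_num) hl2.le
    have h6 : (0.6931 : ℝ)⁻¹ ≤ 1.45 := by norm_num
    linarith
  have h4 : ((i : ℝ) - 1) / 2 ≤ ((i / 2 : ℕ) : ℝ) := by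
    have h5 : i ≤ 2 * (i / 2) + 1 := by omega
    have h6 : (i : ℝ) ≤ 2 * ((i / 2 : ℕ) : ℝ) + 1 := by exact_mod_cast h5
    linarith
  have h5 : (i : ℝ) / 3 ≤ Real.log (Real.log ((2 ^ 2 ^ (i / 2) : ℕ) : ℝ)) := by
    rw [e2]
    have h6 : ((i : ℝ) - 1) / 2 * 0.6931 ≤ ((i / 2 : ℕ) : ℝ) * Real.log 2 :=
      mul_le_mul h4 hl2.le (by norm_num) (Nat.cast_nonneg _)
    linarith
  have h6 : Real.log ((i : ℝ) / 3) ≤
      Real.log (Real.log (Real.log ((2 ^ 2 ^ (i / 2) : ℕ) : ℝ))) :=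
    Real.log_le_log (by positivity) h5
  rw [Real.log_div hipos.ne' (by norm_num)] at h6
  have h7 : Real.log 3 ≤ 2 := by
    have := Real.log_le_sub_one_of_pos (x := 3) (by norm_num)
    linarith
  have h8 : (Nat.log 2 i : ℝ) * Real.log 2 ≤ Real.log i := by
    have h9 : 2 ^ Nat.log 2 i ≤ i := Nat.pow_log_le_self 2 (by omega)
    have h10 : ((2 : ℝ) ^ Nat.log 2 i) ≤ i := by exact_mod_cast h9
    have h11 := Real.log_le_log (by positivity) h10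
    rwa [Real.log_pow] at h11
  have h9 : (Nat.log 2 i : ℝ) * 0.6931 ≤ Real.log i :=
    (mul_le_mul_of_nonneg_left hl2.le (Nat.cast_nonneg _)).trans h8
  have h10 : ((300 * sf i : ℕ) : ℝ) = 600 * (Nat.log 2 i : ℝ) + 600 := by
    unfold sf
    push_cast
    ring
  have h11 : (0 : ℝ) ≤ (Nat.log 2 i : ℝ) := Nat.cast_nonneg _
  rw [h10]
  linarith

theorem exists_Q (P : Set ℕ)
    (h1 : ∀ᶠ y : ℕ in atTop, 1000 * Real.log (Real.log (Real.log y)) ≤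
      ((P ∩ Set.Iic y).ncard : ℝ)) :
    ∃ i₀ : ℕ, 1 ≤ i₀ ∧ ∀ i, i₀ ≤ i → ∀ y : ℕ, 300 * sf i ≤ (P ∩ Set.Iic y).ncard →
      ∃ Q : Finset ℕ, (∀ q ∈ Q, q ∈ P ∧ q ≤ y ∧ q ≤ 2 ^ 2 ^ (i / 2)) ∧ Q.card = 300 * sf i ∧
        400 * ∑ q ∈ Q, Real.log q ≤ ((2 ^ i : ℕ) : ℝ) * Real.log 2 := by
  obtain ⟨Y, hY⟩ := eventually_atTop.1 h1
  refine ⟨2 * Y + ⌈Real.exp 20⌉₊ + 100, by omega, fun i hi y hy => ?_⟩
  have hi100 : 100 ≤ i := by omega
  have hL : 20 ≤ Real.log i := by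
    have h2 : Real.exp 20 ≤ (i : ℝ) :=
      (Nat.le_ceil _).trans (by exact_mod_cast (by omega : ⌈Real.exp 20⌉₊ ≤ i))
    rw [← Real.log_exp 20]
    exact Real.log_le_log (Real.exp_pos _) h2
  have hz : Y ≤ 2 ^ 2 ^ (i / 2) := by
    have h2 : i / 2 < 2 ^ (i / 2) := Nat.lt_two_pow_self
    have h3 : 2 ^ (i / 2) < 2 ^ 2 ^ (i / 2) := Nat.lt_two_pow_self
    omega
  have h2 : 300 * sf i ≤ (P ∩ Set.Iic (2 ^ 2 ^ (i / 2))).ncard := by
    have h3 := (ExistsQ_log i hi100 hL).trans (hY _ hz)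
    exact_mod_cast h3
  have h3 : 300 * sf i ≤ (P ∩ Set.Iic (min y (2 ^ 2 ^ (i / 2)))).ncard := by
    rcases min_choice y (2 ^ 2 ^ (i / 2)) with h | h
    · rw [h]; exact hy
    · rw [h]; exact h2
  have hfin : (P ∩ Set.Iic (min y (2 ^ 2 ^ (i / 2)))).Finite :=
    (Set.finite_Iic _).subset Set.inter_subset_right
  rw [Set.ncard_eq_toFinset_card _ hfin] at h3
  obtain ⟨Q, hQ, hc⟩ := Finset.exists_subset_card_eq h3
  have hQ' : ∀ q ∈ Q, q ∈ P ∧ q ≤ y ∧ q ≤ 2 ^ 2 ^ (i / 2) := by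
    intro q hq
    have h4 := hQ hq
    rw [Set.Finite.mem_toFinset] at h4
    exact ⟨h4.1, (Set.mem_Iic.1 h4.2).trans (min_le_left _ _),
      (Set.mem_Iic.1 h4.2).trans (min_le_right _ _)⟩
  refine ⟨Q, hQ', hc, ?_⟩
  have hl2 : 0 < Real.log 2 := Real.log_pos (by norm_num)
  have h4 : ∀ q ∈ Q, Real.log q ≤ 2 ^ (i / 2) * Real.log 2 := by
    intro q hq
    rcases Nat.eq_zero_or_pos q with h | h
    · rw [h, Nat.cast_zero, Real.log_zero]
      positivity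
    · have h5 : (q : ℝ) ≤ 2 ^ 2 ^ (i / 2) := by exact_mod_cast (hQ' q hq).2.2
      have h6 := Real.log_le_log (by exact_mod_cast h) h5
      rw [Real.log_pow] at h6
      push_cast at h6
      exact h6
  have h5 : ∑ q ∈ Q, Real.log q ≤ (300 * sf i : ℕ) * (2 ^ (i / 2) * Real.log 2) := by
    refine (Finset.sum_le_sum h4).trans ?_
    rw [Finset.sum_const, nsmul_eq_mul, hc]
  have h6 : 400 * (300 * sf i) ≤ 2 ^ (i / 2) := by
    have h7 := ExistsQ_pow (i / 2) (by omega)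
    have h8 : Nat.log 2 i < i := Nat.log_lt_self 2 (by omega)
    have h9 : sf i = 2 * Nat.log 2 i + 2 := rfl
    have h10 : i ≤ 2 * (i / 2) + 1 := by omega
    rw [h9]
    generalize Nat.log 2 i = k at h8 ⊢
    generalize i / 2 = w at h7 h10 ⊢
    generalize 2 ^ w = W at h7 ⊢
    linarith
  have h7 : 400 * (300 * sf i) * 2 ^ (i / 2) ≤ 2 ^ i := by
    calc 400 * (300 * sf i) * 2 ^ (i / 2) ≤ 2 ^ (i / 2) * 2 ^ (i / 2) :=
          Nat.mul_le_mul_right _ h6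
      _ = 2 ^ (i / 2 + i / 2) := (pow_add _ _ _).symm
      _ ≤ 2 ^ i := Nat.pow_le_pow_right (by norm_num) (by omega)
  have h8 : ((400 * (300 * sf i) * 2 ^ (i / 2) : ℕ) : ℝ) ≤ ((2 ^ i : ℕ) : ℝ) := by
    exact_mod_cast h7
  calc 400 * ∑ q ∈ Q, Real.log q ≤ 400 * ((300 * sf i : ℕ) * (2 ^ (i / 2) * Real.log 2)) :=
        mul_le_mul_of_nonneg_left h5 (by norm_num)
    _ = ((400 * (300 * sf i) * 2 ^ (i / 2) : ℕ) : ℝ) * Real.log 2 := by push_cast; ring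
    _ ≤ ((2 ^ i : ℕ) : ℝ) * Real.log 2 := mul_le_mul_of_nonneg_right h8 hl2.le

/-- the sum over the scales is small. -/
theorem sum_sf_small (η : ℝ) (hη : 0 < η) :
    ∃ i₁ : ℕ, ∀ i, i₁ ≤ i → ∀ n : ℕ, ∑ l ∈ Finset.range n, 10 / (2 : ℝ) ^ sf (l + i) ≤ η := by
  refine ⟨⌈10 / η⌉₊ + 2, fun i hi n => ?_⟩
  have hi2 : (2 : ℝ) ≤ i := by exact_mod_cast (by omega : 2 ≤ i)
  have hterm : ∀ j : ℕ, 2 ≤ j → 10 / (2 : ℝ) ^ sf j ≤ 10 / ((j : ℝ) - 1) - 10 / (j : ℝ) := by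
    intro j hj
    have hj2 : (2 : ℝ) ≤ j := by exact_mod_cast hj
    have h1 : ((j : ℝ)) ^ 2 ≤ 2 ^ sf j := by exact_mod_cast (lt_two_pow_sf j).le
    have h2 : 10 / (2 : ℝ) ^ sf j ≤ 10 / (j : ℝ) ^ 2 :=
      div_le_div_of_nonneg_left (by norm_num) (by positivity) h1
    have h3 : 10 / ((j : ℝ) - 1) - 10 / (j : ℝ) = 10 / (((j : ℝ) - 1) * j) := by
      have hne : (j : ℝ) - 1 ≠ 0 := by linarith
      have hne' : (j : ℝ) ≠ 0 := by linarith
      rw [div_sub_div _ _ hne hne']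
      congr 1
      ring
    rw [h3]
    refine h2.trans (div_le_div_of_nonneg_left (by norm_num) ?_ ?_)
    · exact mul_pos (by linarith) (by linarith)
    · nlinarith
  have hsum : ∀ n : ℕ, ∑ l ∈ Finset.range n, 10 / (2 : ℝ) ^ sf (l + i) ≤
      10 / ((i : ℝ) - 1) - 10 / ((n : ℝ) + i - 1) := by
    intro n
    induction n with
    | zero => simp
    | succ n ih =>
      rw [Finset.sum_range_succ]
      have h1 := hterm (n + i) (by omega)
      push_cast at h1 ⊢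
      have e1 : (n : ℝ) + 1 + i - 1 = n + i := by ring
      rw [e1]
      linarith
  refine (hsum n).trans ?_
  have h1 : 0 ≤ 10 / ((n : ℝ) + i - 1) := by
    have : (0 : ℝ) ≤ n := Nat.cast_nonneg n
    exact div_nonneg (by norm_num) (by linarith)
  have h2 : 10 / η ≤ (i : ℝ) - 1 := by
    have h3 : 10 / η ≤ (⌈10 / η⌉₊ : ℝ) := Nat.le_ceil _
    have h4 : ((⌈10 / η⌉₊ + 2 : ℕ) : ℝ) ≤ i := by exact_mod_cast hi
    push_cast at h4
    linarith
  have h3 : 10 / ((i : ℝ) - 1) ≤ η := by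
    rw [div_le_iff₀ (by linarith)]
    rw [div_le_iff₀ hη] at h2
    linarith
  linarith

end Furst96.Spz
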