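import Pool.Agent.H.MP_96e181_an.sps.PhaseBound


/-! # Module AverageSigma2: as AverageSigma, with a predicate `Good` for the phases -/

set_option autoImplicit false

open MeasureTheory

namespace Furst96.Spz

open Furst96.Sps

variable {Ω ι : Type*} [Fintype Ω] [DecidableEq ι]

open Classical in
/-- the sum over the multipliers of the bad pairs. -/
theorem averageSigma_badp2 (p : Ω → ℝ) (hp : ∀ ω, 0 ≤ p ω) (X : ι → Ω → ℕ) (D : Finset ι) (r : ι)
    (t : Ω → ℝ) {J : Type*} [Fintype J] (σ : J → ℕ) (δ₀ η₀ : ℝ) (Good : UnitAddCircle → Prop)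
    (hσ : ∀ θ : UnitAddCircle, Good θ →
      ((Finset.univ.filter (fun a => ‖σ a • θ‖ < δ₀)).card : ℝ) ≤ η₀ * Fintype.card J)
    (ht : ∀ ω ω', X r ω ≠ X r ω' → Good ((t ω - t ω' : ℝ) : UnitAddCircle)) (ω : Ω) :
    ∑ a : J, badp p X D r t (σ a) δ₀ ω ≤ η₀ * Fintype.card J * gini p X D r ω := by
  unfold badp gini
  rw [← Finset.sum_div, ← mul_div_assoc]
  refine div_le_div_of_nonneg_right ?_ (sq_nonneg _)
  rw [Finset.sum_comm, Finset.mul_sum]
  refine Finset.sum_le_sum fun ω' _ => ?_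
  rw [Finset.sum_comm, Finset.mul_sum]
  refine Finset.sum_le_sum fun ω'' _ => ?_
  by_cases hC : Same X D ω ω' ∧ Same X D ω ω'' ∧ X r ω' ≠ X r ω''
  · rw [if_pos hC]
    have h1 : ∀ a : J, (if (Same X D ω ω' ∧ Same X D ω ω'' ∧ X r ω' ≠ X r ω'') ∧
        ‖σ a • ((t ω' - t ω'' : ℝ) : UnitAddCircle)‖ < δ₀ then p ω' * p ω'' else 0) =
        if ‖σ a • ((t ω' - t ω'' : ℝ) : UnitAddCircle)‖ < δ₀ then p ω' * p ω'' else 0 := by
      intro a
      by_cases hQ : ‖σ a • ((t ω' - t ω'' : ℝ) : UnitAddCircle)‖ < δ₀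
      · rw [if_pos ⟨hC, hQ⟩, if_pos hQ]
      · rw [if_neg (fun h => hQ h.2), if_neg hQ]
    rw [Finset.sum_congr rfl fun a _ => h1 a, ← Finset.sum_filter, Finset.sum_const,
      nsmul_eq_mul]
    exact mul_le_mul_of_nonneg_right (hσ _ (ht ω' ω'' hC.2.2)) (mul_nonneg (hp ω') (hp ω''))
  · rw [if_neg hC, mul_zero]
    refine le_of_eq (Finset.sum_eq_zero fun a _ => ?_)
    rw [if_neg (fun h => hC h.1)]

open Classical in
theorem average_sigma2 (p : Ω → ℝ) (hp : ∀ ω, 0 ≤ p ω) (X : ι → Ω → ℕ) (D R : Finset ι)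
    (t : ι → Ω → ℝ) {J : Type*} [Fintype J] [Nonempty J] (σ : J → ℕ) (δ₀ η₀ : ℝ) (Good : UnitAddCircle → Prop)
    (hδ₀ : 0 ≤ δ₀) (hη : 0 ≤ η₀)
    (hσ : ∀ θ : UnitAddCircle, Good θ →
      ((Finset.univ.filter (fun a => ‖σ a • θ‖ < δ₀)).card : ℝ) ≤ η₀ * Fintype.card J)
    (ht : ∀ r ∈ R, ∀ ω ω', X r ω ≠ X r ω' →
      Good ((t r ω - t r ω' : ℝ) : UnitAddCircle))
    (ω : Ω) (hω : 0 < mass p X D ω) :
    ∑ a : J, ∏ r ∈ R, ‖cexp p X D (fun ω' => ee ((σ a : ℝ) * t r ω')) ω‖ ≤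
      Fintype.card J * (2 * η₀ + Real.exp (-(2 * δ₀ ^ 2) * ∑ r ∈ R, gini p X D r ω)) := by
  set U : ℝ := ∑ r ∈ R, gini p X D r ω with hU
  set B : J → ℝ := fun a => ∑ r ∈ R, badp p X D r (t r) (σ a) δ₀ ω with hB
  have hU0 : 0 ≤ U := Finset.sum_nonneg fun r _ => gini_nonneg hp X D r ω
  have hB0 : ∀ a, 0 ≤ B a := fun a =>
    Finset.sum_nonneg fun r _ => badp_nonneg p hp X D r (t r) (σ a) δ₀ ω
  have hBU : ∀ a, B a ≤ U := fun a =>
    Finset.sum_le_sum fun r _ => badp_le_gini p hp X D r (t r) (σ a) δ₀ ω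
  have hsum : ∑ a, B a ≤ η₀ * Fintype.card J * U := by
    rw [hB, Finset.sum_comm, hU, Finset.mul_sum]
    exact Finset.sum_le_sum fun r hr =>
      averageSigma_badp2 p hp X D r (t r) σ δ₀ η₀ Good hσ (ht r hr) ω
  have hT : ∀ a : J, ∏ r ∈ R, ‖cexp p X D (fun ω' => ee ((σ a : ℝ) * t r ω')) ω‖ ≤
      Real.exp (-(4 * δ₀ ^ 2) * (U - B a)) := by
    intro a
    have h1 : Real.exp (-(4 * δ₀ ^ 2) * (U - B a)) =
        ∏ r ∈ R, Real.exp (-(4 * δ₀ ^ 2) *
          (gini p X D r ω - badp p X D r (t r) (σ a) δ₀ ω)) := by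
      rw [← Real.exp_sum, ← Finset.mul_sum, Finset.sum_sub_distrib]
    rw [h1]
    exact Finset.prod_le_prod (fun r _ => norm_nonneg _)
      (fun r _ => phase_bound p hp X D r (t r) (σ a) δ₀ hδ₀ ω hω)
  have hδ : 0 ≤ δ₀ ^ 2 := sq_nonneg _
  have hJ : (0 : ℝ) ≤ Fintype.card J := Nat.cast_nonneg _
  have hone : ∀ a : J, Real.exp (-(4 * δ₀ ^ 2) * (U - B a)) ≤ 1 := by
    intro a
    rw [Real.exp_le_one_iff]
    have := mul_nonneg hδ (sub_nonneg.2 (hBU a))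
    nlinarith
  rcases hU0.eq_or_lt with h0 | hpos
  · rw [← h0, mul_zero, Real.exp_zero]
    calc ∑ a : J, ∏ r ∈ R, ‖cexp p X D (fun ω' => ee ((σ a : ℝ) * t r ω')) ω‖
        ≤ ∑ _a : J, (1 : ℝ) := Finset.sum_le_sum fun a _ => (hT a).trans (hone a)
      _ = Fintype.card J := by simp
      _ ≤ Fintype.card J * (2 * η₀ + 1) := by nlinarith [mul_nonneg hJ hη]
  · have hkey : ∀ a : J, ∏ r ∈ R, ‖cexp p X D (fun ω' => ee ((σ a : ℝ) * t r ω')) ω‖ ≤
        Real.exp (-(2 * δ₀ ^ 2) * U) + 2 / U * B a := by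
      intro a
      have h2 : 0 ≤ 2 / U * B a := mul_nonneg (by positivity) (hB0 a)
      rcases le_or_gt (B a) (U / 2) with h3 | h3
      · refine (hT a).trans (le_add_of_le_of_nonneg ?_ h2)
        rw [Real.exp_le_exp]
        have := mul_nonneg hδ (sub_nonneg.2 h3)
        nlinarith
      · refine ((hT a).trans (hone a)).trans ?_
        have h4 : 1 ≤ 2 / U * B a := by
          rw [div_mul_eq_mul_div, le_div_iff₀ hpos]
          linarith
        have h5 := Real.exp_pos (-(2 * δ₀ ^ 2) * U)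
        linarith
    calc ∑ a : J, ∏ r ∈ R, ‖cexp p X D (fun ω' => ee ((σ a : ℝ) * t r ω')) ω‖
        ≤ ∑ a : J, (Real.exp (-(2 * δ₀ ^ 2) * U) + 2 / U * B a) :=
          Finset.sum_le_sum fun a _ => hkey a
      _ = Fintype.card J * Real.exp (-(2 * δ₀ ^ 2) * U) + 2 / U * ∑ a, B a := by
          rw [Finset.sum_add_distrib, ← Finset.mul_sum, Finset.sum_const, nsmul_eq_mul,
            Finset.card_univ]
      _ ≤ Fintype.card J * Real.exp (-(2 * δ₀ ^ 2) * U) +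
            2 / U * (η₀ * Fintype.card J * U) := by
          have h6 : (0 : ℝ) ≤ 2 / U := by positivity
          have := mul_le_mul_of_nonneg_left hsum h6
          linarith
      _ = Fintype.card J * (2 * η₀ + Real.exp (-(2 * δ₀ ^ 2) * U)) := by
          field_simp
          ring

end Furst96.Spz
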