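import Pool.Agent.H.MP_96e181_an.spz.Defs

/-! # Module Tors: points of finite order near a point of the circle

`near_unique`: if `τ₁ ≠ τ₂`, then `d₁ d₂ (τ₁ - τ₂) = 0`, so `1 / (d₁ d₂) ≤ ‖τ₁ - τ₂‖ ≤
‖x - τ₁‖ + ‖x - τ₂‖`, hence `1 ≤ d₂ r + d₁ r ≤ 2 r D`.

`near_data`: let `d` be the least `d ≥ 1` with `‖d g_v x‖ ≤ ρ` (`d ≤ B`), `e` real with
`e = d g_v x` mod 1 and `|e| = ‖d g_v x‖`, `δ = e / d`.  Then `d • bt = 0`; if the order `d'` of
`bt` were smaller than `d`, then `‖d' g_v x‖ = ‖d' δ‖ ≤ d' |δ| ≤ ρ`, a contradiction.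
For the last claim: `‖d g_v x‖ = ‖e‖ = |e| = d |δ|` (`ρ < 1/2`). -/

set_option autoImplicit false

open MeasureTheory

namespace Furst96.Spz

open Furst96.Sps

/-- a real representative of minimal absolute value. -/
private theorem tors_rep (t : UnitAddCircle) : ∃ e : ℝ, (e : UnitAddCircle) = t ∧ |e| = ‖t‖ := by
  obtain ⟨x, rfl⟩ := QuotientAddGroup.mk_surjective t
  refine ⟨x - round x, ?_, ?_⟩
  · have h : ((round x : ℝ) : UnitAddCircle) = 0 := by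
      rw [AddCircle.coe_eq_zero_iff]
      exact ⟨round x, by simp⟩
    rw [AddCircle.coe_sub, h, sub_zero]
  · exact (UnitAddCircle.norm_eq).symm

private theorem tors_nsmul (n : ℕ) (e : ℝ) :
    n • (e : UnitAddCircle) = (((n : ℝ) * e : ℝ) : UnitAddCircle) := by
  rw [← nsmul_eq_mul]
  exact (AddCircle.coe_nsmul (p := (1 : ℝ))).symm

private theorem tors_norm_le (e : ℝ) : ‖(e : UnitAddCircle)‖ ≤ |e| := by
  rw [UnitAddCircle.norm_eq]
  have := round_le e 0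
  simpa using this

theorem norm_ge_of_torsion (n : ℕ) (hn : 0 < n) (t : UnitAddCircle) (h : n • t = 0)
    (ht : t ≠ 0) : 1 / (n : ℝ) ≤ ‖t‖ := by
  obtain ⟨e, rfl, he⟩ := tors_rep t
  rw [tors_nsmul, AddCircle.coe_eq_zero_iff] at h
  obtain ⟨k, hk⟩ := h
  have hk' : (k : ℝ) = n * e := by simpa using hk
  have hn' : (0 : ℝ) < n := by exact_mod_cast hn
  have hk0 : k ≠ 0 := by
    rintro rfl
    have : (n : ℝ) * e = 0 := by rw [← hk']; simp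
    rcases mul_eq_zero.mp this with h0 | h0
    · exact hn'.ne' h0
    · apply ht
      rw [h0]
      simp
  have h1 : (1 : ℝ) ≤ |(k : ℝ)| := by
    have : (1 : ℤ) ≤ |k| := Int.one_le_abs hk0
    exact_mod_cast this
  rw [hk', abs_mul, abs_of_pos hn'] at h1
  rw [← he, div_le_iff₀ hn']
  linarith

theorem near_unique (x τ₁ τ₂ : UnitAddCircle) (D r : ℝ) (h1 : 0 < addOrderOf τ₁)
    (h2 : 0 < addOrderOf τ₂) (hD1 : (addOrderOf τ₁ : ℝ) ≤ D) (hD2 : (addOrderOf τ₂ : ℝ) ≤ D)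
    (hr1 : ‖x - τ₁‖ * addOrderOf τ₁ ≤ r) (hr2 : ‖x - τ₂‖ * addOrderOf τ₂ ≤ r)
    (hDr : 2 * r * D < 1) : τ₁ = τ₂ := by
  by_contra hne
  have hn : 0 < addOrderOf τ₁ * addOrderOf τ₂ := Nat.mul_pos h1 h2
  have hz : (addOrderOf τ₁ * addOrderOf τ₂) • (τ₁ - τ₂) = 0 := by
    rw [nsmul_sub]
    have e1 : (addOrderOf τ₁ * addOrderOf τ₂) • τ₁ = 0 := by
      rw [mul_comm, mul_nsmul', addOrderOf_nsmul_eq_zero, nsmul_zero]
    have e2 : (addOrderOf τ₁ * addOrderOf τ₂) • τ₂ = 0 := by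
      rw [mul_nsmul', addOrderOf_nsmul_eq_zero, nsmul_zero]
    rw [e1, e2, sub_zero]
  have h3 := norm_ge_of_torsion _ hn (τ₁ - τ₂) hz (sub_ne_zero.mpr hne)
  have h4 : ‖τ₁ - τ₂‖ ≤ ‖x - τ₁‖ + ‖x - τ₂‖ := by
    have : τ₁ - τ₂ = (x - τ₂) - (x - τ₁) := by abel
    rw [this]
    exact (norm_sub_le _ _).trans (by rw [add_comm])
  push_cast at h3
  have p1 : (0 : ℝ) < addOrderOf τ₁ := by exact_mod_cast h1
  have p2 : (0 : ℝ) < addOrderOf τ₂ := by exact_mod_cast h2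
  have hr : 0 ≤ r := le_trans (mul_nonneg (norm_nonneg _) p1.le) hr1
  rw [div_le_iff₀ (mul_pos p1 p2)] at h3
  have h5 : ‖τ₁ - τ₂‖ * ((addOrderOf τ₁ : ℝ) * addOrderOf τ₂) ≤
      (‖x - τ₁‖ + ‖x - τ₂‖) * ((addOrderOf τ₁ : ℝ) * addOrderOf τ₂) :=
    mul_le_mul_of_nonneg_right h4 (mul_pos p1 p2).le
  have h6 : ‖x - τ₁‖ * addOrderOf τ₁ * addOrderOf τ₂ ≤ r * addOrderOf τ₂ :=
    mul_le_mul_of_nonneg_right hr1 p2.le
  have h7 : ‖x - τ₂‖ * addOrderOf τ₂ * addOrderOf τ₁ ≤ r * addOrderOf τ₁ :=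
    mul_le_mul_of_nonneg_right hr2 p1.le
  have h8 : r * addOrderOf τ₂ ≤ r * D := mul_le_mul_of_nonneg_left hD2 hr
  have h9 : r * addOrderOf τ₁ ≤ r * D := mul_le_mul_of_nonneg_left hD1 hr
  nlinarith

variable {ι : Type*} [Fintype ι] [DecidableEq ι]

theorem near_data (p : ι → ℕ) (x : UnitAddCircle) (v : ι → ℕ) (B : ℕ) (ρ : ℝ) (hρ : ρ < 1 / 2)
    (h : gg p v • x ∈ Near B ρ) :
    ∃ δ : ℝ, 0 < addOrderOf (bt p x v δ 0) ∧ addOrderOf (bt p x v δ 0) ≤ B ∧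
      (addOrderOf (bt p x v δ 0) : ℝ) * |δ| ≤ ρ ∧
      ∀ ρ' : ℝ, gg p v • x ∉ Near B ρ' → ρ' < (addOrderOf (bt p x v δ 0) : ℝ) * |δ| := by
  classical
  have hbt : ∀ δ : ℝ, bt p x v δ 0 = gg p v • x - (δ : UnitAddCircle) := by
    intro δ
    unfold bt
    rw [gg_zero, Nat.cast_one, div_one]
    congr 3
  simp only [hbt]
  generalize gg p v • x = y at h ⊢
  have h0 : ∃ b : ℕ, 1 ≤ b ∧ b ≤ B ∧ ‖b • y‖ ≤ ρ := h
  obtain ⟨hd1, hd2, hd3⟩ := Nat.find_spec h0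
  have hmin : ∀ m, m < Nat.find h0 → ¬ (1 ≤ m ∧ m ≤ B ∧ ‖m • y‖ ≤ ρ) := fun m hm => Nat.find_min h0 hm
  generalize Nat.find h0 = d at hd1 hd2 hd3 hmin
  obtain ⟨e, he1, he2⟩ := tors_rep (d • y)
  have hdp : (0 : ℝ) < d := by exact_mod_cast hd1
  have hde : (d : ℝ) * (e / d) = e := by field_simp
  have hz : d • (y - ((e / d : ℝ) : UnitAddCircle)) = 0 := by
    rw [nsmul_sub, tors_nsmul, hde, he1, sub_self]
  have hle : addOrderOf (y - ((e / d : ℝ) : UnitAddCircle)) ≤ d := addOrderOf_le_of_nsmul_eq_zero hd1 hz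
  have hpos : 0 < addOrderOf (y - ((e / d : ℝ) : UnitAddCircle)) := by
    rw [addOrderOf_pos_iff, isOfFinAddOrder_iff_nsmul_eq_zero]
    exact ⟨d, hd1, hz⟩
  have habs : (d : ℝ) * |e / d| = |e| := by
    rw [abs_div, abs_of_pos hdp]
    field_simp
  have heq : addOrderOf (y - ((e / d : ℝ) : UnitAddCircle)) = d := by
    by_contra hne
    have hlt := lt_of_le_of_ne hle hne
    apply hmin _ hlt
    refine ⟨hpos, hlt.le.trans hd2, ?_⟩
    have hz' := addOrderOf_nsmul_eq_zero (y - ((e / d : ℝ) : UnitAddCircle))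
    generalize addOrderOf (y - ((e / d : ℝ) : UnitAddCircle)) = d' at hlt hz'
    rw [nsmul_sub, sub_eq_zero] at hz'
    rw [hz', tors_nsmul]
    refine (tors_norm_le _).trans ?_
    rw [abs_mul, Nat.abs_cast]
    have hc : (d' : ℝ) ≤ d := by exact_mod_cast hlt.le
    have := mul_le_mul_of_nonneg_right hc (abs_nonneg (e / d))
    linarith
  refine ⟨e / d, hpos, ?_, ?_, ?_⟩
  · rw [heq]; exact hd2
  · rw [heq, habs, he2]; exact hd3
  · intro ρ' hρ'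
    rw [heq, habs, he2]
    by_contra hcon
    exact hρ' ⟨d, hd1, hd2, not_lt.mp hcon⟩

end Furst96.Spz
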