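import Pool.Agent.H.MP_96e181_an.spz.Back

/-! # Module LongRun: long runs in one direction

For `v ∈ S` and `0 ≤ n ≤ N` let `v' = v - n e_i` (`n ≤ cc i ≤ v_i`), `τ = bt (n e_i)`: by `fe_eq`
`fe i n = 0`, so `order_mul` with `b = 0` gives `ord τ = ord (bt 0) * gcd (ord τ) (p_i^n) = ord (bt 0)`;
`‖g_{v'} x - τ‖ ord τ = ord(bt 0) |δ| / p_i^n` (it is `≤ ρ < 1/2`, so the norm is the absolute value).
For fixed `v'` the point `τ` is unique (`near_unique`, `D = B`), so `z = ‖g_{v'} x - τ‖ ord τ` is a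
function of `v'`, and `z p_i^n = ord(bt 0)|δ| ∈ (ρ', ρ]`: the `n` which occur for a given `v'` differ
by less than `t` (`p_i^{n₂-n₁} < ρ/ρ' ≤ p_i^t`), so there are at most `t` of them; `(v', n)`
determines `v`.  So `#S (N + 1) ≤ t #box`. -/

set_option autoImplicit false

open MeasureTheory

namespace Furst96.Spz

open Furst96.Sps

variable {ι : Type*} [Fintype ι] [DecidableEq ι]

private theorem longRun_gg_single (p : ι → ℕ) (i : ι) (n : ℕ) :
    gg p (Pi.single i n) = p i ^ n := by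
  unfold gg
  rw [Finset.prod_eq_single i]
  · rw [Pi.single_eq_same]
  · intro j _ hj
    rw [Pi.single_eq_of_ne hj, pow_zero]
  · intro h
    exact absurd (Finset.mem_univ i) h

private theorem longRun_data (p : ι → ℕ) (hp : ∀ i, (p i).Prime)
    (hinj : Function.Injective p) (x : UnitAddCircle) (N : ℕ) (i : ι) (ρ : ℝ) (hρ : ρ < 1 / 2)
    (v : ι → ℕ) (δ : ℝ) (h0 : 0 < addOrderOf (bt p x v δ 0))
    (h1 : (addOrderOf (bt p x v δ 0) : ℝ) * |δ| ≤ ρ)
    (hfe : fe p x v δ i 0 = 0) (hcc : N ≤ cc p x v δ i) (n : ℕ) (hn : n ≤ N) :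
    n ≤ v i ∧
    addOrderOf (bt p x v δ (Pi.single i n)) = addOrderOf (bt p x v δ 0) ∧
    ‖gg p (v - Pi.single i n) • x - bt p x v δ (Pi.single i n)‖ *
      (addOrderOf (bt p x v δ (Pi.single i n)) : ℝ) * (p i : ℝ) ^ n =
        (addOrderOf (bt p x v δ 0) : ℝ) * |δ| := by
  have hcv := cc_le p x v δ i
  have hnv : n ≤ v i := by omega
  have hle : (Pi.single i n : ι → ℕ) ≤ v := by
    intro j
    by_cases hj : j = i
    · subst hj
      rw [Pi.single_eq_same]
      exact hnv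
    · rw [Pi.single_eq_of_ne hj]
      exact Nat.zero_le _
  have hfn : fe p x v δ i n = 0 := by
    rw [fe_eq p hp hinj x v δ h0 i n hnv, hfe]
    omega
  have hpos := order_pos p hp x v δ h0 _ hle
  have hord : addOrderOf (bt p x v δ (Pi.single i n)) = addOrderOf (bt p x v δ 0) := by
    have h2 := order_mul p hp x v δ h0 (Pi.single i n) 0 (fun j => Nat.zero_le _) hle
    have h3 : Nat.gcd (addOrderOf (bt p x v δ (Pi.single i n)))
        (gg p (Pi.single i n - 0)) = 1 := by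
      rw [tsub_zero, longRun_gg_single]
      have h4 : ¬ p i ∣ addOrderOf (bt p x v δ (Pi.single i n)) := by
        intro hd
        have h5 := (hp i).factorization_pos_of_dvd hpos.ne' hd
        unfold fe at hfn
        omega
      exact (Nat.Coprime.pow_right n (((hp i).coprime_iff_not_dvd.2 h4).symm))
    rw [h3, mul_one] at h2
    exact h2
  refine ⟨hnv, hord, ?_⟩
  have hpr : (1 : ℝ) ≤ (p i : ℝ) ^ n := by
    apply one_le_pow₀
    exact_mod_cast (hp i).one_lt.le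
  have hdr : (1 : ℝ) ≤ (addOrderOf (bt p x v δ 0) : ℝ) := by exact_mod_cast h0
  have habs : |δ / (p i : ℝ) ^ n| = |δ| / (p i : ℝ) ^ n := by
    rw [abs_div, abs_of_nonneg (by linarith : (0 : ℝ) ≤ (p i : ℝ) ^ n)]
  have hnorm : ‖gg p (v - Pi.single i n) • x - bt p x v δ (Pi.single i n)‖ =
      |δ| / (p i : ℝ) ^ n := by
    unfold bt
    rw [sub_sub_cancel, longRun_gg_single, Nat.cast_pow, ← habs]
    rw [AddCircle.norm_coe_eq_abs_iff (1 : ℝ) one_ne_zero, habs, abs_one]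
    have h6 : |δ| / (p i : ℝ) ^ n ≤ |δ| := div_le_self (abs_nonneg _) hpr
    have h7 : |δ| ≤ (addOrderOf (bt p x v δ 0) : ℝ) * |δ| := by
      nlinarith [abs_nonneg δ]
    linarith
  rw [hnorm, hord]
  have hne : (p i : ℝ) ^ n ≠ 0 := by linarith
  field_simp

private theorem longRun_abs (y τ₁ τ₂ : UnitAddCircle) (d₁ d₂ B n m t : ℕ)
    (P e₁ e₂ ρ ρ' : ℝ) (hP : 1 < P) (ho1 : addOrderOf τ₁ = d₁) (ho2 : addOrderOf τ₂ = d₂)
    (h01 : 0 < d₁) (h02 : 0 < d₂) (hB1 : d₁ ≤ B) (hB2 : d₂ ≤ B)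
    (hz1 : ‖y - τ₁‖ * (addOrderOf τ₁ : ℝ) * P ^ n = e₁)
    (hz2 : ‖y - τ₂‖ * (addOrderOf τ₂ : ℝ) * P ^ m = e₂)
    (he1 : e₁ ≤ ρ) (he1' : ρ' < e₁) (he2 : e₂ ≤ ρ) (hρ' : 0 < ρ')
    (ht : Real.log (ρ / ρ') ≤ t * Real.log P) (hu : 2 * ρ * B < 1) (hnm : n ≤ m) :
    m < n + t := by
  have hpn : ∀ k : ℕ, (1 : ℝ) ≤ P ^ k := fun k => one_le_pow₀ hP.le
  have hr1 : ‖y - τ₁‖ * (addOrderOf τ₁ : ℝ) ≤ ρ := by
    have h3 := le_mul_of_one_le_right
      (by positivity : 0 ≤ ‖y - τ₁‖ * (addOrderOf τ₁ : ℝ)) (hpn n)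
    linarith
  have hr2 : ‖y - τ₂‖ * (addOrderOf τ₂ : ℝ) ≤ ρ := by
    have h3 := le_mul_of_one_le_right
      (by positivity : 0 ≤ ‖y - τ₂‖ * (addOrderOf τ₂ : ℝ)) (hpn m)
    linarith
  have h1 : 0 < addOrderOf τ₁ := by rw [ho1]; exact h01
  have h2 : 0 < addOrderOf τ₂ := by rw [ho2]; exact h02
  have hD1 : (addOrderOf τ₁ : ℝ) ≤ (B : ℝ) := by rw [ho1]; exact_mod_cast hB1
  have hD2 : (addOrderOf τ₂ : ℝ) ≤ (B : ℝ) := by rw [ho2]; exact_mod_cast hB2
  have htau : τ₁ = τ₂ := near_unique y τ₁ τ₂ (B : ℝ) ρ h1 h2 hD1 hD2 hr1 hr2 hu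
  have hz : P ^ (m - n) * e₁ = e₂ := by
    rw [← hz1, ← hz2, htau]
    have h5 : P ^ m = P ^ (m - n) * P ^ n := by
      rw [← pow_add]
      congr 1
      omega
    rw [h5]
    ring
  by_contra hlt
  push_neg at hlt
  have h6 : P ^ t ≤ P ^ (m - n) := pow_le_pow_right₀ hP.le (by omega)
  have h7 : P ^ (m - n) * ρ' < ρ := by
    have h8 : P ^ (m - n) * ρ' < P ^ (m - n) * e₁ :=
      mul_lt_mul_of_pos_left he1' (by linarith [hpn (m - n)])
    linarith
  have h9 : P ^ t < ρ / ρ' := by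
    rw [lt_div_iff₀ hρ']
    have := mul_le_mul_of_nonneg_right h6 hρ'.le
    linarith
  have h10 : Real.log (P ^ t) < Real.log (ρ / ρ') :=
    Real.log_lt_log (by linarith [hpn t]) h9
  rw [Real.log_pow] at h10
  linarith

private theorem longRun_lt (p : ι → ℕ) (hp : ∀ i, (p i).Prime)
    (hinj : Function.Injective p) (x : UnitAddCircle) (B t N : ℕ) (i : ι) (ρ ρ' : ℝ)
    (hρ' : 0 < ρ') (hρ : ρ < 1 / 2) (ht : Real.log (ρ / ρ') ≤ t * Real.log (p i))
    (δ : (ι → ℕ) → ℝ) (hu : 2 * ρ * B < 1) (v w : ι → ℕ)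
    (hv0 : 0 < addOrderOf (bt p x v (δ v) 0)) (hvB : addOrderOf (bt p x v (δ v) 0) ≤ B)
    (hv1 : (addOrderOf (bt p x v (δ v) 0) : ℝ) * |δ v| ≤ ρ)
    (hv2 : ρ' < (addOrderOf (bt p x v (δ v) 0) : ℝ) * |δ v|)
    (hw0 : 0 < addOrderOf (bt p x w (δ w) 0)) (hwB : addOrderOf (bt p x w (δ w) 0) ≤ B)
    (hw1 : (addOrderOf (bt p x w (δ w) 0) : ℝ) * |δ w| ≤ ρ)
    (hvfe : fe p x v (δ v) i 0 = 0) (hvcc : N ≤ cc p x v (δ v) i)
    (hwfe : fe p x w (δ w) i 0 = 0) (hwcc : N ≤ cc p x w (δ w) i)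
    (n m : ℕ) (hn : n ≤ N) (hm : m ≤ N) (hnm : n ≤ m)
    (heq : v - Pi.single i n = w - Pi.single i m) : m < n + t := by
  have hv := (longRun_data p hp hinj x N i ρ hρ v (δ v) hv0 hv1 hvfe hvcc n hn).2
  have hw := (longRun_data p hp hinj x N i ρ hρ w (δ w) hw0 hw1 hwfe hwcc m hm).2
  rw [heq] at hv
  have hp1 : (1 : ℝ) < (p i : ℝ) := by exact_mod_cast (hp i).one_lt
  exact longRun_abs _ _ _ _ _ B n m t _ _ _ ρ ρ' hp1 hv.1 hw.1 hv0 hw0 hvB hwB hv.2 hw.2
    hv1 hv2 hw1 hρ' ht hu hnm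

theorem long_run (p : ι → ℕ) (hp : ∀ i, (p i).Prime) (hinj : Function.Injective p)
    (x : UnitAddCircle) (V B t N : ℕ) (i : ι) (ρ ρ' : ℝ) (hρ' : 0 < ρ') (hρ : ρ < 1 / 2)
    (ht : Real.log (ρ / ρ') ≤ t * Real.log (p i))
    (S : Finset (ι → ℕ)) (hS : S ⊆ box ι V) (δ : (ι → ℕ) → ℝ)
    (hd : ∀ v ∈ S, 0 < addOrderOf (bt p x v (δ v) 0) ∧ addOrderOf (bt p x v (δ v) 0) ≤ B ∧
      (addOrderOf (bt p x v (δ v) 0) : ℝ) * |δ v| ≤ ρ ∧
      ρ' < (addOrderOf (bt p x v (δ v) 0) : ℝ) * |δ v|)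
    (hfe : ∀ v ∈ S, fe p x v (δ v) i 0 = 0)
    (hcc : ∀ v ∈ S, N ≤ cc p x v (δ v) i)
    (hu : 2 * ρ * B < 1) :
    S.card * (N + 1) ≤ t * V ^ Fintype.card ι := by
  classical
  have hcard : (S ×ˢ Finset.range (N + 1)).card = S.card * (N + 1) := by
    rw [Finset.card_product, Finset.card_range]
  rw [← hcard, ← card_box (ι := ι) V]
  refine Finset.card_le_mul_card_image_of_maps_to
    (f := fun q : (ι → ℕ) × ℕ => q.1 - Pi.single i q.2) ?_ t ?_
  · rintro ⟨v, n⟩ hq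
    rw [Finset.mem_product] at hq
    rw [mem_box]
    intro j
    have h1 := mem_box.1 (hS hq.1) j
    exact lt_of_le_of_lt (Nat.sub_le _ _) h1
  · intro b _
    set F := (S ×ˢ Finset.range (N + 1)).filter
      (fun q : (ι → ℕ) × ℕ => q.1 - Pi.single i q.2 = b) with hF
    have hmem : ∀ q : (ι → ℕ) × ℕ, q ∈ F → q.1 ∈ S ∧ q.2 ≤ N ∧ q.1 - Pi.single i q.2 = b := by
      intro q hq
      rw [hF, Finset.mem_filter, Finset.mem_product, Finset.mem_range] at hq
      exact ⟨hq.1.1, by have := hq.1.2; omega, hq.2⟩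
    have hinjF : Set.InjOn (fun q : (ι → ℕ) × ℕ => q.2) (F : Set ((ι → ℕ) × ℕ)) := by
      rintro ⟨v, n⟩ hq ⟨w, m⟩ hq' hnm
      obtain ⟨hvS, hn, hb⟩ := hmem _ hq
      obtain ⟨hwS, hm, hb'⟩ := hmem _ hq'
      simp only at hnm hb hb' hn hm hvS hwS
      subst hnm
      have hv := longRun_data p hp hinj x N i ρ hρ v (δ v) (hd v hvS).1 (hd v hvS).2.2.1
        (hfe v hvS) (hcc v hvS) n hn
      have hw := longRun_data p hp hinj x N i ρ hρ w (δ w) (hd w hwS).1 (hd w hwS).2.2.1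
        (hfe w hwS) (hcc w hwS) n hn
      have hvw : v = w := by
        funext j
        have h2 : (v - Pi.single i n : ι → ℕ) j = (w - Pi.single i n : ι → ℕ) j := by
          rw [hb, hb']
        by_cases hj : j = i
        · subst hj
          simp only [Pi.sub_apply, Pi.single_eq_same] at h2
          have := hv.1
          have := hw.1
          omega
        · simp only [Pi.sub_apply, Pi.single_eq_of_ne hj] at h2
          omega
      rw [hvw]
    rw [← Finset.card_image_of_injOn hinjF]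
    rcases F.eq_empty_or_nonempty with he | hne
    · rw [he]
      simp
    · obtain ⟨q0, hq0, hmin⟩ := F.exists_min_image (fun q => q.2) hne
      have hsub : F.image (fun q : (ι → ℕ) × ℕ => q.2) ⊆ Finset.Ico q0.2 (q0.2 + t) := by
        intro k hk
        rw [Finset.mem_image] at hk
        obtain ⟨q, hq, rfl⟩ := hk
        rw [Finset.mem_Ico]
        refine ⟨hmin q hq, ?_⟩
        obtain ⟨hvS, hn, hb⟩ := hmem _ hq0
        obtain ⟨hwS, hm, hb'⟩ := hmem _ hq
        obtain ⟨a1, a2, a3, a4⟩ := hd _ hvS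
        obtain ⟨b1, b2, b3, b4⟩ := hd _ hwS
        exact longRun_lt p hp hinj x B t N i ρ ρ' hρ' hρ ht δ hu q0.1 q.1 a1 a2 a3 a4 b1 b2 b3
          (hfe _ hvS) (hcc _ hvS) (hfe _ hwS) (hcc _ hwS) q0.2 q.2 hn hm (hmin q hq)
          (hb.trans hb'.symm)
      calc (F.image (fun q : (ι → ℕ) × ℕ => q.2)).card ≤ (Finset.Ico q0.2 (q0.2 + t)).card :=
            Finset.card_le_card hsub
        _ = t := by rw [Nat.card_Ico]; omega

private theorem longRun_side (V Y : ℕ) (i : ι) :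
    ((box ι V).filter fun v => v i < Y).card * V ≤ Y * V ^ Fintype.card ι := by
  classical
  have h1 : (((box ι V).filter fun v => v i < Y) ×ˢ Finset.range V).card ≤
      (Finset.range Y ×ˢ box ι V).card := by
    refine Finset.card_le_card_of_injOn
      (fun q : (ι → ℕ) × ℕ => (q.1 i, Function.update q.1 i q.2)) ?_ ?_
    · rintro ⟨v, r⟩ hq
      simp only [Finset.coe_product, Set.mem_prod, Finset.mem_coe, Finset.mem_filter,
        Finset.mem_range] at hq
      simp only [Finset.coe_product, Set.mem_prod, Finset.mem_coe, Finset.mem_range]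
      refine ⟨hq.1.2, ?_⟩
      rw [mem_box]
      intro j
      by_cases hj : j = i
      · subst hj
        rw [Function.update_self]
        exact hq.2
      · rw [Function.update_of_ne hj]
        exact mem_box.1 hq.1.1 j
    · rintro ⟨v, r⟩ _ ⟨w, s⟩ _ hvw
      simp only [Prod.mk.injEq] at hvw
      obtain ⟨ha, hb⟩ := hvw
      have hrs : r = s := by
        have := congrFun hb i
        rwa [Function.update_self, Function.update_self] at this
      have hvw : v = w := by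
        funext j
        by_cases hj : j = i
        · subst hj
          exact ha
        · have := congrFun hb j
          rwa [Function.update_of_ne hj, Function.update_of_ne hj] at this
      rw [hrs, hvw]
  rw [Finset.card_product, Finset.card_product, Finset.card_range, Finset.card_range,
    card_box] at h1
  exact h1

theorem boundary (V Y : ℕ) (U : Finset ι) :
    ((box ι V).filter fun v => ∃ i ∈ U, v i < Y).card * V ≤ U.card * Y * V ^ Fintype.card ι := by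
  classical
  have h1 : ((box ι V).filter fun v => ∃ i ∈ U, v i < Y) ⊆
      U.biUnion fun i => (box ι V).filter fun v => v i < Y := by
    intro v hv
    rw [Finset.mem_filter] at hv
    obtain ⟨hb, i, hi, hY⟩ := hv
    rw [Finset.mem_biUnion]
    exact ⟨i, hi, Finset.mem_filter.2 ⟨hb, hY⟩⟩
  calc ((box ι V).filter fun v => ∃ i ∈ U, v i < Y).card * V
      ≤ (∑ i ∈ U, ((box ι V).filter fun v => v i < Y).card) * V :=
        Nat.mul_le_mul_right _ ((Finset.card_le_card h1).trans Finset.card_biUnion_le)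
    _ = ∑ i ∈ U, ((box ι V).filter fun v => v i < Y).card * V := Finset.sum_mul _ _ _
    _ ≤ ∑ i ∈ U, Y * V ^ Fintype.card ι := Finset.sum_le_sum fun i _ => longRun_side V Y i
    _ = U.card * Y * V ^ Fintype.card ι := by
        rw [Finset.sum_const, smul_eq_mul, mul_assoc]

end Furst96.Spz
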