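import Pool.Agent.H.MP_96e181_an.spz.Defs

/-! # Module Simplex: comparison of the numbers of lattice points of two simplices

`simp0_le`: `c ↦ (w, z)`, `w_i = c_i / q + 1` and `z_i = c_i % q` for `i ∈ K` (`0` outside), is an
injection of `simp0 p K M` into `simp1 p K W × (functions K → Fin q)`.
`simp1_double`: `(e, z) ↦ 2 (e - 1) + z` (on `K`), `z : K → {0,1}`, is an injection into
`simp0 p K (2 β)`. -/

set_option autoImplicit false

namespace Furst96.Spz

variable {ι : Type*} [Fintype ι] [DecidableEq ι]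

private theorem Simplex_wt_on {p : ι → ℕ} {K : Finset ι} {a : ι → ℕ} (h : ∀ i, i ∉ K → a i = 0) :
    wt p a = ∑ i ∈ K, (a i : ℝ) * Real.log (p i) := by
  unfold wt
  refine (Finset.sum_subset (Finset.subset_univ K) fun i _ hi => ?_).symm
  rw [h i hi]
  simp

private theorem Simplex_card_pi (K : Finset ι) (q : ℕ) :
    (Fintype.piFinset fun i : ι => Finset.range (if i ∈ K then q else 1)).card = q ^ K.card := by
  rw [Fintype.card_piFinset]
  simp only [Finset.card_range]
  rw [Finset.prod_ite, Finset.prod_const_one, mul_one, Finset.prod_const]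
  congr 1
  congr 1
  ext i
  simp

theorem simp0_le (p : ι → ℕ) (hp : ∀ i, 2 ≤ p i) (K : Finset ι) (q : ℕ) (hq : 1 ≤ q) (M W : ℝ)
    (h : M / q + ∑ i ∈ K, Real.log (p i) ≤ W) :
    (simp0 p K M).card ≤ q ^ K.card * (simp1 p K W).card := by
  classical
  rw [← Simplex_card_pi K q, ← Finset.card_product]
  refine Finset.card_le_card_of_injOn
    (fun c : ι → ℕ => ((fun i => if i ∈ K then c i % q else 0 : ι → ℕ),
      (fun i => if i ∈ K then c i / q + 1 else 0 : ι → ℕ))) ?_ ?_
  · intro c hc
    rw [Finset.mem_coe, mem_simp0 hp] at hc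
    rw [Finset.mem_coe, Finset.mem_product, Fintype.mem_piFinset, mem_simp1 hp]
    refine ⟨fun i => ?_, fun i hi => ?_, fun i hi => ?_, ?_⟩
    · show (if i ∈ K then c i % q else 0) ∈ Finset.range (if i ∈ K then q else 1)
      rw [Finset.mem_range]
      split_ifs
      · exact Nat.mod_lt _ hq
      · exact Nat.one_pos
    · show (if i ∈ K then c i / q + 1 else 0) = 0
      rw [if_neg hi]
    · show 1 ≤ (if i ∈ K then c i / q + 1 else 0)
      rw [if_pos hi]
      exact Nat.le_add_left 1 _
    · refine le_trans ?_ h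
      rw [Simplex_wt_on (K := K) (fun i hi => by
        show (if i ∈ K then c i / q + 1 else 0) = 0
        rw [if_neg hi])]
      have hq' : (0 : ℝ) < q := by exact_mod_cast hq
      have h1 : ∀ i ∈ K, ((if i ∈ K then c i / q + 1 else 0 : ℕ) : ℝ) * Real.log (p i) ≤
          ((c i : ℝ) * Real.log (p i)) / q + Real.log (p i) := by
        intro i hi
        rw [if_pos hi]
        push_cast
        have h2 : ((c i / q : ℕ) : ℝ) ≤ (c i : ℝ) / q := Nat.cast_div_le
        have h3 := mul_le_mul_of_nonneg_right h2 (log_pos' hp i).le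
        have h4 : (c i : ℝ) / q * Real.log (p i) = ((c i : ℝ) * Real.log (p i)) / q := by ring
        linarith
      refine (Finset.sum_le_sum h1).trans ?_
      rw [Finset.sum_add_distrib, ← Finset.sum_div]
      have h5 : ∑ i ∈ K, (c i : ℝ) * Real.log (p i) ≤ M := by
        rw [← Simplex_wt_on hc.1]
        exact hc.2
      have h6 := div_le_div_of_nonneg_right h5 hq'.le
      linarith
  · intro c hc d hd hcd
    rw [Finset.mem_coe, mem_simp0 hp] at hc hd
    funext i
    by_cases hi : i ∈ K
    · have h1 := congrFun (congrArg Prod.fst hcd) i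
      have h2 := congrFun (congrArg Prod.snd hcd) i
      simp only [if_pos hi] at h1 h2
      have h3 : c i / q = d i / q := Nat.add_right_cancel h2
      rw [← Nat.div_add_mod (c i) q, ← Nat.div_add_mod (d i) q, h1, h3]
    · rw [hc.1 i hi, hd.1 i hi]

theorem simp1_pos (p : ι → ℕ) (hp : ∀ i, 2 ≤ p i) (K : Finset ι) (W : ℝ)
    (h : ∑ i ∈ K, Real.log (p i) ≤ W) : 0 < (simp1 p K W).card := by
  classical
  refine Finset.card_pos.2 ⟨fun i => if i ∈ K then 1 else 0, ?_⟩
  rw [mem_simp1 hp]
  refine ⟨fun i hi => if_neg hi, fun i hi => by rw [if_pos hi], ?_⟩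
  rw [Simplex_wt_on (K := K) (fun i hi => if_neg hi)]
  refine le_trans (le_of_eq (Finset.sum_congr rfl fun i hi => ?_)) h
  rw [if_pos hi]
  simp

theorem simp1_double (p : ι → ℕ) (hp : ∀ i, 2 ≤ p i) (K : Finset ι) (β : ℝ) :
    (simp1 p K β).card * 2 ^ K.card ≤ (simp0 p K (2 * β)).card := by
  classical
  rw [← Simplex_card_pi K 2, ← Finset.card_product]
  refine Finset.card_le_card_of_injOn
    (fun x : (ι → ℕ) × (ι → ℕ) => (fun i => if i ∈ K then 2 * (x.1 i - 1) + x.2 i else 0 : ι → ℕ))
    ?_ ?_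
  · rintro ⟨e, z⟩ hx
    rw [Finset.mem_coe, Finset.mem_product, Fintype.mem_piFinset, mem_simp1 hp] at hx
    obtain ⟨⟨h1, h2, h3⟩, h4⟩ := hx
    rw [Finset.mem_coe, mem_simp0 hp]
    refine ⟨fun i hi => if_neg hi, ?_⟩
    rw [Simplex_wt_on (K := K) (fun i hi => if_neg hi)]
    have h5 : ∀ i ∈ K, ((if i ∈ K then 2 * (e i - 1) + z i else 0 : ℕ) : ℝ) * Real.log (p i) ≤
        2 * ((e i : ℝ) * Real.log (p i)) := by
      intro i hi
      rw [if_pos hi]
      have h6 := h4 i
      simp only [if_pos hi, Finset.mem_range] at h6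
      have h7 := h2 i hi
      have h8 : 2 * (e i - 1) + z i ≤ 2 * e i := by
        simp only at h7
        omega
      have h9 : ((2 * (e i - 1) + z i : ℕ) : ℝ) ≤ 2 * (e i : ℝ) := by exact_mod_cast h8
      have h10 := mul_le_mul_of_nonneg_right h9 (log_pos' hp i).le
      linarith
    refine (Finset.sum_le_sum h5).trans ?_
    rw [← Finset.mul_sum, ← Simplex_wt_on h1]
    exact mul_le_mul_of_nonneg_left h3 (by norm_num)
  · rintro ⟨e, z⟩ hx ⟨e', z'⟩ hx' hxx
    rw [Finset.mem_coe, Finset.mem_product, Fintype.mem_piFinset, mem_simp1 hp] at hx hx'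
    obtain ⟨⟨h1, h2, h3⟩, h4⟩ := hx
    obtain ⟨⟨h1', h2', h3'⟩, h4'⟩ := hx'
    have key : ∀ i, e i = e' i ∧ z i = z' i := by
      intro i
      by_cases hi : i ∈ K
      · have h5 := congrFun hxx i
        simp only [if_pos hi] at h5
        have h6 := h4 i
        have h6' := h4' i
        simp only [if_pos hi, Finset.mem_range] at h6 h6'
        have h7 := h2 i hi
        have h7' := h2' i hi
        simp only at h7 h7'
        omega
      · have h6 := h4 i
        have h6' := h4' i
        simp only [if_neg hi, Finset.mem_range] at h6 h6'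
        have h8 := h1 i hi
        have h8' := h1' i hi
        simp only at h8 h8'
        omega
    exact Prod.ext (funext fun i => (key i).1) (funext fun i => (key i).2)

theorem simp0_pos (p : ι → ℕ) (hp : ∀ i, 2 ≤ p i) (K : Finset ι) (W : ℝ)
    (h : 0 ≤ W) : 0 < (simp0 p K W).card := by
  classical
  refine Finset.card_pos.2 ⟨fun _ => 0, ?_⟩
  rw [mem_simp0 hp]
  refine ⟨fun i _ => rfl, ?_⟩
  unfold wt
  simpa using h

end Furst96.Spz
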