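import Pool.Agent.H.MP_96e181_an.spz.FinalQ
import Pool.Agent.H.MP_96e181_an.spx.Weak

/-! # Module Apply: uniform version, weak limits, measures without atoms, finite orbits -/

set_option autoImplicit false

open MeasureTheory Filter Topology

namespace Furst96.Spz

open Furst96.Sps Furst96.Spx

/-- the radius. -/
noncomputable def rad (P : Set ℕ) (C y : ℕ) : ℝ :=
  Real.exp (-Real.exp (Real.exp (((P ∩ Set.Iic y).ncard : ℝ) / C)))

theorem rad_mono (P : Set ℕ) {C C' : ℕ} (hC : 1 ≤ C) (h : C ≤ C') (y : ℕ) :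
    rad P C y ≤ rad P C' y := by
  unfold rad
  have hc : (0 : ℝ) < C := by exact_mod_cast hC
  have hcc : (C : ℝ) ≤ C' := by exact_mod_cast h
  have h1 : ((P ∩ Set.Iic y).ncard : ℝ) / C' ≤ ((P ∩ Set.Iic y).ncard : ℝ) / C :=
    div_le_div_of_nonneg_left (Nat.cast_nonneg _) hc hcc
  rw [Real.exp_le_exp, neg_le_neg_iff, Real.exp_le_exp, Real.exp_le_exp]
  exact h1

theorem quant (P : Set ℕ) (hP : ∀ p ∈ P, p.Prime)
    (h1 : ∀ᶠ y : ℕ in atTop, 1000 * Real.log (Real.log (Real.log y)) ≤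
      ((P ∩ Set.Iic y).ncard : ℝ))
    (h2 : ∀ C : ℝ, ∃ᶠ y : ℕ in atTop, C * Real.log y ^ 4 ≤ ((P ∩ Set.Iic y).ncard : ℝ))
    (ε : ℝ) (hε : 0 < ε) :
    ∃ C : ℕ, 1 ≤ C ∧ ∀ (y : ℕ) (μ : Measure UnitAddCircle), IsProbabilityMeasure μ →
      (∀ p ∈ P, p ≤ y → Inv μ p) → ∀ k : ℤ, k ≠ 0 → |(k : ℝ)| ≤ 1 / ε →
      ‖coef μ k‖ ≤ ε + C * μ.real (Near C (rad P C y)) := by
  classical
  have h5 : Tendsto (fun ε : ℝ => 9 * ε + 2 * Real.sqrt (2 * ε)) (𝓝[>] 0) (𝓝 0) := by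
    have : Continuous fun ε : ℝ => 9 * ε + 2 * Real.sqrt (2 * ε) := by fun_prop
    have h6 := (this.tendsto 0).mono_left (nhdsWithin_le_nhds (s := Set.Ioi 0))
    simpa using h6
  have h4 : ∀ᶠ ε : ℝ in 𝓝[>] 0, ε ≤ 1 := by
    have : ∀ᶠ ε : ℝ in 𝓝 0, ε ≤ 1 := eventually_le_nhds (by norm_num)
    exact this.filter_mono nhdsWithin_le_nhds
  obtain ⟨ε', ⟨hε0, hε1⟩, hε'⟩ := ((eventually_mem_nhdsWithin.and h4).and
    (h5.eventually_le_const hε)).exists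
  have key : ∀ k : ℤ, ∃ C₀ : ℕ, 1 ≤ C₀ ∧ (k ≠ 0 → ∀ C' : ℕ, C₀ ≤ C' →
      ∀ (y : ℕ) (μ : Measure UnitAddCircle), IsProbabilityMeasure μ →
      (∀ p ∈ P, p ≤ y → Inv μ p) →
      ‖coef μ k‖ ≤ (9 * ε' + 2 * Real.sqrt (2 * ε')) + C' * μ.real (Near C' (rad P C' y))) := by
    intro k
    by_cases hk : k = 0
    · exact ⟨1, le_rfl, fun h => absurd hk h⟩
    · obtain ⟨C₀, hC₀, h⟩ := coef_quant P hP h1 h2 k hk ε' hε0 hε1
      exact ⟨C₀, hC₀, fun _ => h⟩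
  choose C₀ hC₀ hC using key
  refine ⟨max 1 ((Finset.Icc (-(⌊1 / ε⌋₊ : ℤ)) ⌊1 / ε⌋₊).sup C₀), le_max_left _ _, ?_⟩
  intro y μ hμ hinv k hk hkε
  have hkm : k ∈ Finset.Icc (-(⌊1 / ε⌋₊ : ℤ)) ⌊1 / ε⌋₊ := by
    have h6 : (k.natAbs : ℝ) ≤ 1 / ε := by
      rw [Nat.cast_natAbs]
      exact_mod_cast hkε
    have h7 : k.natAbs ≤ ⌊1 / ε⌋₊ := Nat.le_floor h6
    rw [Finset.mem_Icc]
    omega
  have h8 : C₀ k ≤ max 1 ((Finset.Icc (-(⌊1 / ε⌋₊ : ℤ)) ⌊1 / ε⌋₊).sup C₀) :=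
    (Finset.le_sup hkm).trans (le_max_right _ _)
  exact (hC k hk _ h8 y μ hμ hinv).trans (by gcongr)

/-- weak limits. -/
theorem weak (P : Set ℕ) (hP : ∀ p ∈ P, p.Prime)
    (h1 : ∀ᶠ y : ℕ in atTop, 1000 * Real.log (Real.log (Real.log y)) ≤
      ((P ∩ Set.Iic y).ncard : ℝ))
    (h2 : ∀ C : ℝ, ∃ᶠ y : ℕ in atTop, C * Real.log y ^ 4 ≤ ((P ∩ Set.Iic y).ncard : ℝ))
    (μ : ℕ → Measure UnitAddCircle) (hμ : ∀ n, IsProbabilityMeasure (μ n)) (y : ℕ → ℕ)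
    (hinv : ∀ n, ∀ p ∈ P, p ≤ y n → Inv (μ n) p)
    (htor : ∀ b C : ℕ, 1 ≤ b → 1 ≤ C →
      Tendsto (fun n => μ n {x | ‖b • x‖ ≤ rad P C (y n)}) atTop (𝓝 0))
    (f : UnitAddCircle → ℝ) (hf : Continuous f) :
    Tendsto (fun n => ∫ x, f x ∂(μ n)) atTop (𝓝 (∫ x, f x)) := by
  refine tendsto_integral_of_coef μ hμ (fun k hk => ?_) f hf
  rw [Metric.tendsto_atTop]
  intro ε hε
  have hk0 : (0 : ℝ) < |(k : ℝ)| := by
    rw [abs_pos]
    exact_mod_cast hk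
  set ε' : ℝ := min (ε / 2) (1 / |(k : ℝ)|) with hε'
  have hε'0 : 0 < ε' := lt_min (by positivity) (by positivity)
  obtain ⟨C, hC, h3⟩ := quant P hP h1 h2 ε' hε'0
  have hC0 : (0 : ℝ) < C := by exact_mod_cast hC
  have hkε : |(k : ℝ)| ≤ 1 / ε' := by
    rw [le_div_iff₀ hε'0]
    calc |(k : ℝ)| * ε' ≤ |(k : ℝ)| * (1 / |(k : ℝ)|) :=
          mul_le_mul_of_nonneg_left (min_le_right _ _) hk0.le
      _ = 1 := by field_simp
  have h4 : Tendsto (fun n => ∑ b ∈ Finset.Icc 1 C, (μ n).real {x | ‖b • x‖ ≤ rad P C (y n)})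
      atTop (𝓝 0) := by
    have h5 : Tendsto (fun n => ∑ b ∈ Finset.Icc 1 C,
        (μ n).real {x | ‖b • x‖ ≤ rad P C (y n)}) atTop
        (𝓝 (∑ _b ∈ Finset.Icc 1 C, (0 : ℝ))) := by
      refine tendsto_finset_sum _ fun b hb => ?_
      have h6 := (ENNReal.tendsto_toReal ENNReal.zero_ne_top).comp
        (htor b C (Finset.mem_Icc.1 hb).1 hC)
      rwa [ENNReal.toReal_zero] at h6
    rwa [Finset.sum_const_zero] at h5
  have h5 : 0 < ε / 2 / C := by positivity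
  obtain ⟨n₀, hn₀⟩ := eventually_atTop.1 (h4.eventually_lt_const h5)
  refine ⟨n₀, fun n hn => ?_⟩
  rw [dist_eq_norm, sub_zero]
  have h6 := h3 (y n) (μ n) (hμ n) (hinv n) k hk hkε
  have h7 : (μ n).real (Near C (rad P C (y n))) ≤
      ∑ b ∈ Finset.Icc 1 C, (μ n).real {x | ‖b • x‖ ≤ rad P C (y n)} := by
    have h8 : Near C (rad P C (y n)) ⊆
        ⋃ b ∈ Finset.Icc 1 C, {x : UnitAddCircle | ‖b • x‖ ≤ rad P C (y n)} := by
      rintro x ⟨b, hb1, hb2, hb3⟩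
      exact Set.mem_iUnion₂.2 ⟨b, Finset.mem_Icc.2 ⟨hb1, hb2⟩, hb3⟩
    have := hμ n
    exact (measureReal_mono h8 (measure_ne_top _ _)).trans (measureReal_biUnion_finset_le _ _)
  have h8 := hn₀ n hn
  have h9 : C * (μ n).real (Near C (rad P C (y n))) < ε / 2 := by
    calc C * (μ n).real (Near C (rad P C (y n))) < C * (ε / 2 / C) :=
          mul_lt_mul_of_pos_left (h7.trans_lt h8) hC0
      _ = ε / 2 := by field_simp
  have h10 : ε' ≤ ε / 2 := min_le_left _ _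
  linarith

/-- `A(y) → ∞`. -/
theorem tendsto_ncard (P : Set ℕ)
    (h1 : ∀ᶠ y : ℕ in atTop, 1000 * Real.log (Real.log (Real.log y)) ≤
      ((P ∩ Set.Iic y).ncard : ℝ)) :
    Tendsto (fun y : ℕ => ((P ∩ Set.Iic y).ncard : ℝ)) atTop atTop := by
  have h2 : Tendsto (fun y : ℕ => 1000 * Real.log (Real.log (Real.log y))) atTop atTop :=
    (Real.tendsto_log_atTop.comp (Real.tendsto_log_atTop.comp (Real.tendsto_log_atTop.comp
      tendsto_natCast_atTop_atTop))).const_mul_atTop (by norm_num)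
  exact tendsto_atTop_mono' _ h1 h2

theorem tendsto_rad (P : Set ℕ)
    (h1 : ∀ᶠ y : ℕ in atTop, 1000 * Real.log (Real.log (Real.log y)) ≤
      ((P ∩ Set.Iic y).ncard : ℝ)) (C : ℕ) (hC : 1 ≤ C) :
    Tendsto (fun y : ℕ => rad P C y) atTop (𝓝 0) := by
  unfold rad
  have hc : (0 : ℝ) < C := by exact_mod_cast hC
  exact Real.tendsto_exp_neg_atTop_nhds_zero.comp (Real.tendsto_exp_atTop.comp
    (Real.tendsto_exp_atTop.comp ((tendsto_ncard P h1).atTop_div_const hc)))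

/-- for a `P`-invariant measure the last term can be replaced by the mass of the points of finite
order `≤ C`. -/
theorem quant_full (P : Set ℕ) (hP : ∀ p ∈ P, p.Prime)
    (h1 : ∀ᶠ y : ℕ in atTop, 1000 * Real.log (Real.log (Real.log y)) ≤
      ((P ∩ Set.Iic y).ncard : ℝ))
    (h2 : ∀ C : ℝ, ∃ᶠ y : ℕ in atTop, C * Real.log y ^ 4 ≤ ((P ∩ Set.Iic y).ncard : ℝ))
    (ε : ℝ) (hε : 0 < ε) :
    ∃ C : ℕ, 1 ≤ C ∧ ∀ (μ : Measure UnitAddCircle), IsProbabilityMeasure μ →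
      (∀ p ∈ P, Inv μ p) → ∀ k : ℤ, k ≠ 0 → |(k : ℝ)| ≤ 1 / ε →
      ‖coef μ k‖ ≤ ε + C * μ.real {x | ∃ b : ℕ, 1 ≤ b ∧ b ≤ C ∧ b • x = 0} := by
  obtain ⟨C, hC, h3⟩ := quant P hP h1 h2 ε hε
  refine ⟨C, hC, fun μ hμ hinv k hk hkε => ?_⟩
  have h4 : Tendsto (fun y : ℕ => μ.real (Near C (rad P C y))) atTop
      (𝓝 (μ.real {x | ∃ b : ℕ, 1 ≤ b ∧ b ≤ C ∧ b • x = 0})) := by
    have hanti : Antitone (fun y : ℕ => Near C (rad P C y)) := by
      intro y y' hy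
      refine near_mono le_rfl ?_
      unfold rad
      have hc : (0 : ℝ) < C := by exact_mod_cast hC
      rw [Real.exp_le_exp, neg_le_neg_iff, Real.exp_le_exp, Real.exp_le_exp]
      refine div_le_div_of_nonneg_right ?_ hc.le
      exact_mod_cast Set.ncard_le_ncard (Set.inter_subset_inter_right P (Set.Iic_subset_Iic.2 hy))
        ((Set.finite_Iic y').inter_of_right P)
    have h5 := tendsto_measure_iInter_atTop (μ := μ)
      (fun y : ℕ => (measurableSet_near C (rad P C y)).nullMeasurableSet) hanti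
      ⟨0, measure_ne_top μ _⟩
    have h6 : ⋂ y : ℕ, Near C (rad P C y) =
        {x | ∃ b : ℕ, 1 ≤ b ∧ b ≤ C ∧ b • x = 0} := by
      ext x
      rw [Set.mem_iInter]
      constructor
      · intro h
        by_contra hcon
        have h7 : ∀ b ∈ Finset.Icc 1 C, ∀ᶠ y : ℕ in atTop, rad P C y < ‖b • x‖ := by
          intro b hb
          rw [Finset.mem_Icc] at hb
          have h8 : b • x ≠ 0 := fun h9 => hcon ⟨b, hb.1, hb.2, h9⟩
          exact (tendsto_rad P h1 C hC).eventually_lt_const (norm_pos_iff.2 h8)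
        have h8 : ∀ᶠ y : ℕ in atTop, ∀ b ∈ Finset.Icc 1 C, rad P C y < ‖b • x‖ :=
          (Filter.eventually_all_finset _).2 h7
        obtain ⟨y, hy⟩ := h8.exists
        obtain ⟨b, hb1, hb2, hb3⟩ := h y
        exact absurd (hy b (Finset.mem_Icc.2 ⟨hb1, hb2⟩)) (not_lt.2 hb3)
      · rintro ⟨b, hb1, hb2, hb3⟩ y
        refine ⟨b, hb1, hb2, ?_⟩
        rw [hb3, norm_zero]
        exact (Real.exp_pos _).le
    rw [h6] at h5
    exact (ENNReal.tendsto_toReal (measure_ne_top μ _)).comp h5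
  refine ge_of_tendsto ((h4.const_mul (C : ℝ)).const_add ε) (Eventually.of_forall fun y => ?_)
  exact h3 y μ hμ (fun p hp _ => hinv p hp) k hk hkε

theorem atomless (P : Set ℕ) (hP : ∀ p ∈ P, p.Prime)
    (h1 : ∀ᶠ y : ℕ in atTop, 1000 * Real.log (Real.log (Real.log y)) ≤
      ((P ∩ Set.Iic y).ncard : ℝ))
    (h2 : ∀ C : ℝ, ∃ᶠ y : ℕ in atTop, C * Real.log y ^ 4 ≤ ((P ∩ Set.Iic y).ncard : ℝ))
    (μ : Measure UnitAddCircle) [IsProbabilityMeasure μ] (hat : ∀ x, μ {x} = 0)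
    (hinv : ∀ p ∈ P, Inv μ p) : μ = volume := by
  refine eq_volume_of_coef fun k hk => ?_
  have hk0 : (0 : ℝ) < |(k : ℝ)| := by
    rw [abs_pos]
    exact_mod_cast hk
  have h3 : ∀ ε : ℝ, 0 < ε → ‖coef μ k‖ ≤ ε := by
    intro ε hε
    set ε' : ℝ := min ε (1 / |(k : ℝ)|) with hε'
    have hε'0 : 0 < ε' := lt_min hε (by positivity)
    obtain ⟨C, hC, h4⟩ := quant_full P hP h1 h2 ε' hε'0
    have hkε : |(k : ℝ)| ≤ 1 / ε' := by
      rw [le_div_iff₀ hε'0]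
      calc |(k : ℝ)| * ε' ≤ |(k : ℝ)| * (1 / |(k : ℝ)|) :=
            mul_le_mul_of_nonneg_left (min_le_right _ _) hk0.le
        _ = 1 := by field_simp
    have h5 : μ {x | ∃ b : ℕ, 1 ≤ b ∧ b ≤ C ∧ b • x = 0} = 0 := by
      have h6 : {x : UnitAddCircle | ∃ b : ℕ, 1 ≤ b ∧ b ≤ C ∧ b • x = 0} =
          ⋃ b ∈ Finset.Icc 1 C, {x : UnitAddCircle | b • x = 0} := by
        ext x
        simp only [Set.mem_setOf_eq, Set.mem_iUnion, Finset.mem_Icc, exists_prop, and_assoc]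
      rw [h6]
      refine (measure_biUnion_null_iff (Finset.countable_toSet _)).2 fun b hb => ?_
      have hb1 : 1 ≤ b := (Finset.mem_Icc.1 hb).1
      have h7 : {x : UnitAddCircle | b • x = 0}.Finite := by
        have h8 := AddCircle.finite_torsion (p := (1 : ℝ)) (n := b) (by omega)
        exact h8
      have : NullSingletonClass μ := ⟨hat⟩
      exact h7.measure_zero μ
    have h6 := h4 μ inferInstance hinv k hk hkε
    unfold Measure.real at h6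
    rw [h5, ENNReal.toReal_zero, mul_zero, add_zero] at h6
    exact h6.trans (min_le_left _ _)
  exact norm_le_zero_iff.1 (le_of_forall_pos_le_add fun ε hε => by simpa using h3 ε hε)

end Furst96.Spz
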