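import Pool.Agent.H.MP_96e181_an.spz.Tors

/-! # Module Back: going back along the semigroup

Fix `x`, `v`, `δ`; `τ a = bt p x v δ a`, `a ≤ v`.
`bt_rel`: `g_{a-b} τ_a = τ_b` for `b ≤ a ≤ v` (`g_{a-b} g_{v-a} = g_{v-b}`, `g_a = g_{a-b} g_b`).
So (if the order of `τ_0` is positive) all orders are positive and
`ord τ_b = ord τ_a / gcd (ord τ_a) g_{a-b}` (`addOrderOf_nsmul`).
`fact_eq`: the exponent of `p_i` in `ord τ_a` depends only on `a_i`: `τ_{a_i e_i} = g_{a'} τ_a` with
`a' = a - a_i e_i`, `p_i` does not divide `g_{a'}`.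
`fe_succ`: `fe i n = fe i (n + 1) - 1` (natural subtraction) for `n + 1 ≤ v_i`.
`fe_eq`: `fe i n = fe i 0 + (n - cc i)` for `n ≤ v_i`: if `fe i 0 ≥ 1` then all `fe i n ≥ 1`,
`cc i = 0` and `fe i (n+1) = fe i n + 1`; if `fe i 0 = 0` then `fe i n = 0` for `n ≤ cc i`
(`fe` is nondecreasing) and `fe i (n+1) = fe i n + 1` for `cc i ≤ n < v_i`.
`order_eq`: with `a = rst K cc + w ≤ v`, `w = 0` outside `K`: `ord τ_a = ord τ_0 * g_w`, because
`ord τ_a = ord τ_0 * gcd (ord τ_a) g_a` and the exponent of `p_i` in the gcd is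
`min (fe i 0 + w_i) (cc i + w_i) = w_i` for `i ∈ K` (one of `fe i 0`, `cc i` is zero), and `0`
outside `K`. -/

set_option autoImplicit false

open MeasureTheory

namespace Furst96.Spz

open Furst96.Sps

variable {ι : Type*} [Fintype ι] [DecidableEq ι]

private theorem Back_two {p : ι → ℕ} (hp : ∀ i, (p i).Prime) (i : ι) : 2 ≤ p i := (hp i).two_le

private theorem Back_fact (p : ι → ℕ) (hp : ∀ i, (p i).Prime) (c : ι → ℕ) (q : ℕ) :
    (gg p c).factorization q = ∑ i, if p i = q then c i else 0 := by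
  unfold gg
  rw [Nat.factorization_prod fun i _ => pow_ne_zero _ (hp i).ne_zero, Finset.sum_apply']
  refine Finset.sum_congr rfl fun i _ => ?_
  rw [(hp i).factorization_pow, Finsupp.single_apply]

private theorem Back_fact_at (p : ι → ℕ) (hp : ∀ i, (p i).Prime) (hinj : Function.Injective p)
    (c : ι → ℕ) (i : ι) : (gg p c).factorization (p i) = c i := by
  rw [Back_fact p hp, Finset.sum_eq_single i]
  · rw [if_pos rfl]
  · intro j _ hj
    exact if_neg fun h => hj (hinj h)
  · intro h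
    exact absurd (Finset.mem_univ i) h

private theorem Back_fact_ne (p : ι → ℕ) (hp : ∀ i, (p i).Prime) (c : ι → ℕ) (q : ℕ)
    (hq : ∀ i, p i ≠ q) : (gg p c).factorization q = 0 := by
  rw [Back_fact p hp]
  exact Finset.sum_eq_zero fun i _ => if_neg (hq i)

theorem bt_rel (p : ι → ℕ) (hp : ∀ i, (p i).Prime) (x : UnitAddCircle) (v : ι → ℕ) (δ : ℝ)
    (a b : ι → ℕ) (hba : b ≤ a) (hav : a ≤ v) :
    gg p (a - b) • bt p x v δ a = bt p x v δ b := by
  have h1 : a - b + (v - a) = v - b := by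
    funext i
    have e1 : b i ≤ a i := hba i
    have e2 : a i ≤ v i := hav i
    simp only [Pi.add_apply, Pi.sub_apply]
    omega
  have h2 : a - b + b = a := by
    funext i
    have e1 : b i ≤ a i := hba i
    simp only [Pi.add_apply, Pi.sub_apply]
    omega
  have h3 : (gg p a : ℝ) = gg p (a - b) * gg p b := by
    rw [← Nat.cast_mul, ← gg_add, h2]
  have h4 : (gg p (a - b) : ℝ) ≠ 0 := by
    exact_mod_cast (gg_pos (Back_two hp) (a - b)).ne'
  have h5 : (gg p b : ℝ) ≠ 0 := by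
    exact_mod_cast (gg_pos (Back_two hp) b).ne'
  have h6 : (gg p (a - b) : ℝ) * (δ / (gg p (a - b) * gg p b)) = δ / gg p b := by
    field_simp
  unfold bt
  rw [nsmul_sub, smul_smul, ← gg_add, h1, ← AddCircle.coe_nsmul, nsmul_eq_mul, h3, h6]

theorem order_pos (p : ι → ℕ) (hp : ∀ i, (p i).Prime) (x : UnitAddCircle) (v : ι → ℕ) (δ : ℝ)
    (h0 : 0 < addOrderOf (bt p x v δ 0)) (a : ι → ℕ) (hav : a ≤ v) :
    0 < addOrderOf (bt p x v δ a) := by
  have h1 := bt_rel p hp x v δ a 0 (fun i => Nat.zero_le _) hav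
  rw [addOrderOf_pos_iff, isOfFinAddOrder_iff_nsmul_eq_zero]
  refine ⟨addOrderOf (bt p x v δ 0) * gg p (a - 0),
    Nat.mul_pos h0 (gg_pos (Back_two hp) _), ?_⟩
  rw [mul_smul, h1]
  exact addOrderOf_nsmul_eq_zero _

theorem order_mul (p : ι → ℕ) (hp : ∀ i, (p i).Prime) (x : UnitAddCircle) (v : ι → ℕ) (δ : ℝ)
    (h0 : 0 < addOrderOf (bt p x v δ 0)) (a b : ι → ℕ) (hba : b ≤ a) (hav : a ≤ v) :
    addOrderOf (bt p x v δ a) =
      addOrderOf (bt p x v δ b) * Nat.gcd (addOrderOf (bt p x v δ a)) (gg p (a - b)) := by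
  rw [← bt_rel p hp x v δ a b hba hav, addOrderOf_nsmul' _ (gg_pos (Back_two hp) _).ne']
  exact (Nat.div_mul_cancel (Nat.gcd_dvd_left _ _)).symm

/-- the exponents in `order_mul` -/
private theorem Back_min (p : ι → ℕ) (hp : ∀ i, (p i).Prime) (hinj : Function.Injective p)
    (x : UnitAddCircle) (v : ι → ℕ) (δ : ℝ) (h0 : 0 < addOrderOf (bt p x v δ 0)) (a b : ι → ℕ)
    (hba : b ≤ a) (hav : a ≤ v) (i : ι) :
    (addOrderOf (bt p x v δ a)).factorization (p i) =
      (addOrderOf (bt p x v δ b)).factorization (p i) +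
        min ((addOrderOf (bt p x v δ a)).factorization (p i)) (a i - b i) := by
  have ha := (order_pos p hp x v δ h0 a hav).ne'
  have hb := (order_pos p hp x v δ h0 b (hba.trans hav)).ne'
  have hg := (gg_pos (Back_two hp) (a - b)).ne'
  conv_lhs => rw [order_mul p hp x v δ h0 a b hba hav]
  rw [Nat.factorization_mul hb (Nat.gcd_ne_zero_left ha), Nat.factorization_gcd ha hg,
    Finsupp.add_apply, Finsupp.inf_apply, Back_fact_at p hp hinj]
  rfl

theorem fact_eq (p : ι → ℕ) (hp : ∀ i, (p i).Prime) (hinj : Function.Injective p)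
    (x : UnitAddCircle) (v : ι → ℕ) (δ : ℝ) (h0 : 0 < addOrderOf (bt p x v δ 0))
    (a : ι → ℕ) (hav : a ≤ v) (i : ι) :
    (addOrderOf (bt p x v δ a)).factorization (p i) = fe p x v δ i (a i) := by
  have hle : (Pi.single i (a i) : ι → ℕ) ≤ a := by
    intro j
    rcases eq_or_ne j i with rfl | h
    · rw [Pi.single_eq_same]
    · rw [Pi.single_eq_of_ne h]
      exact Nat.zero_le _
  have h1 := Back_min p hp hinj x v δ h0 a (Pi.single i (a i)) hle hav i
  rw [Pi.single_eq_same, Nat.sub_self, Nat.min_zero, add_zero] at h1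
  exact h1

private theorem Back_single {v : ι → ℕ} {i : ι} {n : ℕ} (hn : n ≤ v i) :
    (Pi.single i n : ι → ℕ) ≤ v := by
  intro j
  rcases eq_or_ne j i with rfl | h
  · rw [Pi.single_eq_same]
    exact hn
  · rw [Pi.single_eq_of_ne h]
    exact Nat.zero_le _

theorem fe_succ (p : ι → ℕ) (hp : ∀ i, (p i).Prime) (hinj : Function.Injective p)
    (x : UnitAddCircle) (v : ι → ℕ) (δ : ℝ) (h0 : 0 < addOrderOf (bt p x v δ 0)) (i : ι) (n : ℕ)
    (hn : n + 1 ≤ v i) : fe p x v δ i n = fe p x v δ i (n + 1) - 1 := by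
  have hle : (Pi.single i n : ι → ℕ) ≤ Pi.single i (n + 1) := by
    refine Back_single ?_
    rw [Pi.single_eq_same]
    omega
  have h1 := Back_min p hp hinj x v δ h0 (Pi.single i (n + 1)) (Pi.single i n) hle
    (Back_single hn) i
  rw [Pi.single_eq_same, Pi.single_eq_same] at h1
  unfold fe
  omega

/-! ### the exponents along one direction -/

private theorem Back_mono {f : ℕ → ℕ} {V : ℕ} (h : ∀ n, n + 1 ≤ V → f n = f (n + 1) - 1)
    {m n : ℕ} (hmn : m ≤ n) (hn : n ≤ V) : f m ≤ f n := by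
  induction n with
  | zero =>
    have : m = 0 := by omega
    rw [this]
  | succ n ih =>
    rcases Nat.lt_or_ge n m with h1 | h1
    · have : m = n + 1 := by omega
      rw [this]
    · have h2 := ih h1 (by omega)
      have h3 := h n hn
      omega

private theorem Back_cc {f : ℕ → ℕ} {V : ℕ} (h : ∀ n, n + 1 ≤ V → f n = f (n + 1) - 1)
    (h0 : f 0 ≠ 0) : Nat.findGreatest (fun n => f n = 0) V = 0 := by
  by_contra hne
  have h1 : f (Nat.findGreatest (fun n => f n = 0) V) = 0 :=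
    Nat.findGreatest_of_ne_zero (P := fun n => f n = 0) rfl hne
  have h2 := Back_mono h (Nat.zero_le (Nat.findGreatest (fun n => f n = 0) V))
    (Nat.findGreatest_le V)
  omega

private theorem Back_fe {f : ℕ → ℕ} {V : ℕ} (h : ∀ n, n + 1 ≤ V → f n = f (n + 1) - 1) (n : ℕ)
    (hn : n ≤ V) : f n = f 0 + (n - Nat.findGreatest (fun n => f n = 0) V) := by
  induction n with
  | zero => omega
  | succ n ih =>
    have h1 := ih (by omega)
    have h2 := h n hn
    rcases Nat.eq_zero_or_pos (f (n + 1)) with h3 | h3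
    · have h4 : n + 1 ≤ Nat.findGreatest (fun n => f n = 0) V :=
        Nat.le_findGreatest (P := fun n => f n = 0) hn h3
      omega
    · have h4 : Nat.findGreatest (fun n => f n = 0) V ≤ n := by
        by_contra hc
        have h5 : Nat.findGreatest (fun n => f n = 0) V ≠ 0 := by omega
        have h6 : f (Nat.findGreatest (fun n => f n = 0) V) = 0 :=
          Nat.findGreatest_of_ne_zero (P := fun n => f n = 0) rfl h5
        have h7 := Back_mono h (m := n + 1) (n := Nat.findGreatest (fun n => f n = 0) V)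
          (by omega) (Nat.findGreatest_le V)
        omega
      omega

theorem fe_eq (p : ι → ℕ) (hp : ∀ i, (p i).Prime) (hinj : Function.Injective p)
    (x : UnitAddCircle) (v : ι → ℕ) (δ : ℝ) (h0 : 0 < addOrderOf (bt p x v δ 0)) (i : ι) (n : ℕ)
    (hn : n ≤ v i) : fe p x v δ i n = fe p x v δ i 0 + (n - cc p x v δ i) := by
  unfold cc
  exact Back_fe (fun m hm => fe_succ p hp hinj x v δ h0 i m hm) n hn

theorem cc_zero (p : ι → ℕ) (hp : ∀ i, (p i).Prime) (hinj : Function.Injective p)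
    (x : UnitAddCircle) (v : ι → ℕ) (δ : ℝ) (h0 : 0 < addOrderOf (bt p x v δ 0)) (i : ι)
    (hi : fe p x v δ i 0 ≠ 0) : cc p x v δ i = 0 := by
  unfold cc
  exact Back_cc (fun m hm => fe_succ p hp hinj x v δ h0 i m hm) hi

theorem cc_le (p : ι → ℕ) (x : UnitAddCircle) (v : ι → ℕ) (δ : ℝ) (i : ι) :
    cc p x v δ i ≤ v i := Nat.findGreatest_le _

theorem fact_at (p : ι → ℕ) (hp : ∀ i, (p i).Prime) (hinj : Function.Injective p)
    (x : UnitAddCircle) (v : ι → ℕ) (δ : ℝ) (h0 : 0 < addOrderOf (bt p x v δ 0))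
    (K : Finset ι) (w : ι → ℕ) (hw : ∀ i, i ∉ K → w i = 0)
    (hav : rst K (cc p x v δ) + w ≤ v) (i : ι) :
    (addOrderOf (bt p x v δ (rst K (cc p x v δ) + w))).factorization (p i) =
      fe p x v δ i 0 + w i := by
  rw [fact_eq p hp hinj x v δ h0 _ hav i, fe_eq p hp hinj x v δ h0 i _ (hav i)]
  have h1 : (rst K (cc p x v δ) + w) i = (if i ∈ K then cc p x v δ i else 0) + w i := rfl
  rw [h1]
  split_ifs with h
  · omega
  · rw [hw i h]
    omega

theorem order_eq (p : ι → ℕ) (hp : ∀ i, (p i).Prime) (hinj : Function.Injective p)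
    (x : UnitAddCircle) (v : ι → ℕ) (δ : ℝ) (h0 : 0 < addOrderOf (bt p x v δ 0))
    (K : Finset ι) (w : ι → ℕ) (hw : ∀ i, i ∉ K → w i = 0)
    (hav : rst K (cc p x v δ) + w ≤ v) :
    addOrderOf (bt p x v δ (rst K (cc p x v δ) + w)) = addOrderOf (bt p x v δ 0) * gg p w := by
  have hz : (0 : ι → ℕ) ≤ rst K (cc p x v δ) + w := fun i => Nat.zero_le _
  have ha := (order_pos p hp x v δ h0 _ hav).ne'
  have hg := (gg_pos (Back_two hp) (rst K (cc p x v δ) + w - 0)).ne'
  have hgw := (gg_pos (Back_two hp) w).ne'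
  have h1 := order_mul p hp x v δ h0 (rst K (cc p x v δ) + w) 0 hz hav
  have h2 : Nat.gcd (addOrderOf (bt p x v δ (rst K (cc p x v δ) + w)))
      (gg p (rst K (cc p x v δ) + w - 0)) = gg p w := by
    refine Nat.eq_of_factorization_eq (Nat.gcd_ne_zero_left ha) hgw fun q => ?_
    rw [Nat.factorization_gcd ha hg, Finsupp.inf_apply]
    by_cases hq : ∃ i, p i = q
    · obtain ⟨i, rfl⟩ := hq
      rw [fact_at p hp hinj x v δ h0 K w hw hav i, Back_fact_at p hp hinj,
        Back_fact_at p hp hinj]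
      have h3 : (rst K (cc p x v δ) + w - 0) i = (if i ∈ K then cc p x v δ i else 0) + w i := rfl
      have h4 := cc_zero p hp hinj x v δ h0 i
      rw [h3]
      show min (fe p x v δ i 0 + w i) ((if i ∈ K then cc p x v δ i else 0) + w i) = w i
      split_ifs with h
      · by_cases h5 : fe p x v δ i 0 = 0
        · omega
        · rw [h4 h5]
          omega
      · rw [hw i h]
        omega
    · push Not at hq
      rw [Back_fact_ne p hp _ q hq, Back_fact_ne p hp _ q hq]
      exact Nat.min_zero _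
  rw [h2] at h1
  exact h1

/-- the distance: `x_{v-a} = τ_a + δ / g_a`. -/
theorem dist_bt (p : ι → ℕ) (hp : ∀ i, (p i).Prime) (x : UnitAddCircle) (v : ι → ℕ) (δ : ℝ)
    (K : Finset ι) (c w : ι → ℕ) :
    ‖gg p (v - (c + w)) • x - bt p x v δ (c + w)‖ * (gg p w : ℝ) ≤
      |δ| * Real.exp (-wt p c) := by
  have h1 : gg p (v - (c + w)) • x - bt p x v δ (c + w) =
      ((δ / (gg p (c + w) : ℝ) : ℝ) : UnitAddCircle) := by
    unfold bt
    abel
  have h2 : ‖((δ / (gg p (c + w) : ℝ) : ℝ) : UnitAddCircle)‖ ≤ |δ| / (gg p (c + w) : ℝ) := by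
    refine QuotientAddGroup.norm_mk_le_norm.trans (le_of_eq ?_)
    rw [Real.norm_eq_abs, abs_div, Nat.abs_cast]
  have h3 : (0 : ℝ) < gg p w := by exact_mod_cast gg_pos (Back_two hp) w
  have h4 : (0 : ℝ) < gg p c := by exact_mod_cast gg_pos (Back_two hp) c
  rw [h1]
  refine (mul_le_mul_of_nonneg_right h2 h3.le).trans (le_of_eq ?_)
  rw [Real.exp_neg, ← gg_eq_exp (Back_two hp), gg_add, Nat.cast_mul]
  field_simp

end Furst96.Spz
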