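import Pool.Agent.H.MP_96e181_an.spz.Back
import Pool.Agent.H.MP_96e181_an.spz.Simplex

/-! # Module CaseB: the points whose order has many prime factors in `U`

Let `β = log B`, `D = B e^{2β}`.  `F v' i` as in ClassBound (order `≤ D`, `‖g_{v'} x - τ‖ ord τ ≤ ρ`,
unique by `near_unique`), `Kf v' = {i ∈ U : F v' i ≠ 0}`.  For `v ∈ S`, `K = spt v`,
`w ∈ simp0 p K (2β)`: `cc = 0` on `K` (`cc_zero`), so `rst K cc = 0`; `τ = bt (0 + w)` has order
`ord(bt 0) g_w ≤ B e^{2β}` and `‖..‖ ord τ ≤ |δ| ord(bt 0) ≤ ρ`; `F (v - w) i = fe i 0 + w_i`, so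
`Kf (v - w) = K`.  For fixed `K` the map `(v, w) ↦ (v - w, rst K (fe · 0))` is an injection of
`{v ∈ S : spt v = K} × simp0 p K (2β)` into `{v' ∈ box : Kf v' = K} × simp1 p K β`
(`w = F v' - e` on `K`; `wt (rst K fe) ≤ log (ord (bt 0)) ≤ β` since `∏_{i∈K} p_i^{fe i 0}` divides
the order).  With `simp1_double` and `simp0_pos`:
`#{v ∈ S : spt v = K} 2^{#K} ≤ #{v' ∈ box : Kf v' = K}`; sum over `K`, `#K > s`. -/

set_option autoImplicit false

open MeasureTheory

namespace Furst96.Spz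

open Furst96.Sps

variable {ι : Type*} [Fintype ι] [DecidableEq ι]

private theorem caseB_log_nonneg (B : ℕ) (hB : 1 ≤ B) : 0 ≤ Real.log (B : ℝ) :=
  Real.log_nonneg (by exact_mod_cast hB)

open Classical in
/-- the exponent of `p_i` in the order of the point of small order near `g_{v'} x`. -/
private noncomputable def caseBF (p : ι → ℕ) (x : UnitAddCircle) (D ρ : ℝ) (v' : ι → ℕ) (i : ι) :
    ℕ :=
  if h : ∃ τ : UnitAddCircle, 0 < addOrderOf τ ∧ (addOrderOf τ : ℝ) ≤ D ∧
      ‖gg p v' • x - τ‖ * addOrderOf τ ≤ ρ then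
    (addOrderOf h.choose).factorization (p i) else 0

omit [DecidableEq ι] in
private theorem caseBF_eq (p : ι → ℕ) (x : UnitAddCircle) (D ρ : ℝ) (hu : 2 * ρ * D < 1)
    (v' : ι → ℕ) (i : ι) (τ : UnitAddCircle) (h1 : 0 < addOrderOf τ)
    (h2 : (addOrderOf τ : ℝ) ≤ D) (h3 : ‖gg p v' • x - τ‖ * addOrderOf τ ≤ ρ) :
    caseBF p x D ρ v' i = (addOrderOf τ).factorization (p i) := by
  have h : ∃ τ : UnitAddCircle, 0 < addOrderOf τ ∧ (addOrderOf τ : ℝ) ≤ D ∧
      ‖gg p v' • x - τ‖ * addOrderOf τ ≤ ρ := ⟨τ, h1, h2, h3⟩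
  unfold caseBF
  rw [dif_pos h]
  have hc := h.choose_spec
  rw [near_unique (gg p v' • x) h.choose τ D ρ hc.1 h1 hc.2.1 h2 hc.2.2 h3 hu]

private theorem caseB_rst_cc (p : ι → ℕ) (hp : ∀ i, (p i).Prime) (hinj : Function.Injective p)
    (x : UnitAddCircle) (v : ι → ℕ) (δ : ℝ) (U : Finset ι)
    (h0 : 0 < addOrderOf (bt p x v δ 0)) :
    rst (spt p x v δ U) (cc p x v δ) = 0 := by
  funext i
  unfold rst
  split_ifs with h
  · unfold spt at h
    exact cc_zero p hp hinj x v δ h0 i (Finset.mem_filter.1 h).2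
  · rfl

/-- the value of `F` at `v - w`. -/
private theorem caseBF_sub (p : ι → ℕ) (hp : ∀ i, (p i).Prime) (hinj : Function.Injective p)
    (x : UnitAddCircle) (B : ℕ) (ρ : ℝ) (U : Finset ι) (β : ℝ)
    (hu : 2 * ρ * (B * Real.exp β) < 1) (v : ι → ℕ) (δ : ℝ)
    (h0 : 0 < addOrderOf (bt p x v δ 0)) (hB : addOrderOf (bt p x v δ 0) ≤ B)
    (hr : (addOrderOf (bt p x v δ 0) : ℝ) * |δ| ≤ ρ) (w : ι → ℕ) (hwv : w ≤ v)
    (hwK : ∀ i, i ∉ spt p x v δ U → w i = 0) (hww : wt p w ≤ β) (i : ι) :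
    caseBF p x (B * Real.exp β) ρ (v - w) i = fe p x v δ i 0 + w i := by
  have hcc := caseB_rst_cc p hp hinj x v δ U h0
  have hav : rst (spt p x v δ U) (cc p x v δ) + w ≤ v := by rw [hcc, zero_add]; exact hwv
  have ho := order_eq p hp hinj x v δ h0 (spt p x v δ U) w hwK hav
  have hf := fact_at p hp hinj x v δ h0 (spt p x v δ U) w hwK hav i
  have hdist := dist_bt p hp x v δ (spt p x v δ U) 0 w
  rw [hcc, zero_add] at ho hf
  rw [zero_add] at hdist
  have hwt0 : wt p (0 : ι → ℕ) = 0 := by simp [wt]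
  rw [hwt0, neg_zero, Real.exp_zero, mul_one] at hdist
  have hg : 0 < gg p w := gg_pos (fun i => (hp i).two_le) w
  have hge : (gg p w : ℝ) ≤ Real.exp β := by
    rw [gg_eq_exp (fun i => (hp i).two_le) w]
    exact Real.exp_le_exp.2 hww
  rw [← hf]
  refine caseBF_eq p x _ ρ hu (v - w) i _ ?_ ?_ ?_
  · rw [ho]
    exact Nat.mul_pos h0 hg
  · rw [ho]
    push_cast
    exact mul_le_mul (by exact_mod_cast hB) hge (Nat.cast_nonneg _) (Nat.cast_nonneg _)
  · rw [ho]
    push_cast
    calc ‖gg p (v - w) • x - bt p x v δ w‖ *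
          ((addOrderOf (bt p x v δ 0) : ℝ) * (gg p w : ℝ))
        = (addOrderOf (bt p x v δ 0) : ℝ) *
          (‖gg p (v - w) • x - bt p x v δ w‖ * (gg p w : ℝ)) := by ring
      _ ≤ (addOrderOf (bt p x v δ 0) : ℝ) * |δ| :=
        mul_le_mul_of_nonneg_left hdist (Nat.cast_nonneg _)
      _ ≤ ρ := hr

omit [DecidableEq ι] in
private theorem caseB_dvd (p : ι → ℕ) (hp : ∀ i, (p i).Prime) (hinj : Function.Injective p)
    (n : ℕ) (a : ι → ℕ) (ha : ∀ i, a i ≤ n.factorization (p i)) :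
    gg p a ∣ n := by
  unfold gg
  refine Finset.prod_dvd_of_isRelPrime ?_ ?_
  · intro i _ j _ hij
    rw [Function.onFun, ← Nat.coprime_iff_isRelPrime]
    exact Nat.Coprime.pow _ _ ((Nat.coprime_primes (hp i) (hp j)).2 fun h => hij (hinj h))
  · intro i _
    exact (pow_dvd_pow _ (ha i)).trans (Nat.ordProj_dvd n (p i))

/-- the comparison for one set `K`. -/
private theorem caseB_one (p : ι → ℕ) (hp : ∀ i, (p i).Prime) (hinj : Function.Injective p)
    (x : UnitAddCircle) (V B : ℕ) (hB : 1 ≤ B) (U : Finset ι) (ρ : ℝ)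
    (S : Finset (ι → ℕ)) (hS : S ⊆ box ι V) (δ : (ι → ℕ) → ℝ)
    (hd : ∀ v ∈ S, 0 < addOrderOf (bt p x v (δ v) 0) ∧ addOrderOf (bt p x v (δ v) 0) ≤ B ∧
      (addOrderOf (bt p x v (δ v) 0) : ℝ) * |δ v| ≤ ρ)
    (hint : ∀ v ∈ S, ∀ w ∈ simp0 p (spt p x v (δ v) U) (2 * Real.log B), w ≤ v)
    (hu : 2 * ρ * (B * Real.exp (2 * Real.log B)) < 1) (K : Finset ι) :
    (S.filter fun v => spt p x v (δ v) U = K).card * 2 ^ K.card ≤
      ((box ι V).filter fun v' =>
        (U.filter fun i => caseBF p x (B * Real.exp (2 * Real.log B)) ρ v' i ≠ 0) = K).card := by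
  classical
  have hp2 : ∀ i, 2 ≤ p i := fun i => (hp i).two_le
  have hF : ∀ v ∈ S, ∀ w ∈ simp0 p (spt p x v (δ v) U) (2 * Real.log B), ∀ i,
      caseBF p x (B * Real.exp (2 * Real.log B)) ρ (v - w) i = fe p x v (δ v) i 0 + w i := by
    intro v hv w hw i
    obtain ⟨h0, h1, h2⟩ := hd v hv
    have hw' := (mem_simp0 hp2).1 hw
    exact caseBF_sub p hp hinj x B ρ U _ hu v (δ v) h0 h1 h2 w (hint v hv w hw) hw'.1 hw'.2 i
  have hspt : ∀ (v : ι → ℕ) (i : ι), i ∈ spt p x v (δ v) U ↔ i ∈ U ∧ fe p x v (δ v) i 0 ≠ 0 := by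
    intro v i
    unfold spt
    exact Finset.mem_filter
  have key : ((S.filter fun v => spt p x v (δ v) U = K) ×ˢ
        simp0 p K (2 * Real.log B)).card ≤
      (((box ι V).filter fun v' =>
        (U.filter fun i => caseBF p x (B * Real.exp (2 * Real.log B)) ρ v' i ≠ 0) = K) ×ˢ
        simp1 p K (Real.log B)).card := by
    refine Finset.card_le_card_of_injOn
      (fun q => (q.1 - q.2, rst K fun i => fe p x q.1 (δ q.1) i 0)) ?_ ?_
    · rintro ⟨v, w⟩ hq
      rw [Finset.mem_coe, Finset.mem_product, Finset.mem_filter] at hq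
      obtain ⟨⟨hv, hK⟩, hw⟩ := hq
      simp only at hv hK hw
      have hw1 : w ∈ simp0 p (spt p x v (δ v) U) (2 * Real.log B) := by rw [hK]; exact hw
      rw [Finset.mem_coe, Finset.mem_product, Finset.mem_filter]
      simp only
      have hw' := (mem_simp0 hp2).1 hw
      refine ⟨⟨?_, ?_⟩, ?_⟩
      · rw [mem_box]
        intro i
        exact lt_of_le_of_lt (Nat.sub_le _ _) (mem_box.1 (hS hv) i)
      · ext i
        rw [Finset.mem_filter, hF v hv w hw1 i]
        constructor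
        · rintro ⟨hiU, hi⟩
          by_contra hiK
          have h1 := hw'.1 i hiK
          rw [← hK, hspt] at hiK
          rw [h1, add_zero] at hi
          exact hiK ⟨hiU, hi⟩
        · intro hiK
          rw [← hK, hspt] at hiK
          exact ⟨hiK.1, by have := hiK.2; omega⟩
      · rw [mem_simp1 hp2]
        refine ⟨fun i hi => by unfold rst; rw [if_neg hi], fun i hi => ?_, ?_⟩
        · unfold rst
          rw [if_pos hi]
          rw [← hK, hspt] at hi
          exact Nat.one_le_iff_ne_zero.2 hi.2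
        · obtain ⟨h0, h1, _⟩ := hd v hv
          have hdvd : gg p (rst K fun i => fe p x v (δ v) i 0) ∣
              addOrderOf (bt p x v (δ v) 0) := by
            refine caseB_dvd p hp hinj _ _ fun i => ?_
            have hfe : fe p x v (δ v) i 0 =
                (addOrderOf (bt p x v (δ v) 0)).factorization (p i) := by
              unfold fe
              rw [Pi.single_zero]
            unfold rst
            split_ifs
            · exact hfe.le
            · exact Nat.zero_le _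
          have hle := (Nat.le_of_dvd h0 hdvd).trans h1
          rw [← log_gg hp2]
          exact Real.log_le_log (by exact_mod_cast gg_pos hp2 _) (by exact_mod_cast hle)
    · rintro ⟨v, w⟩ hq ⟨v₁, w₁⟩ hq₁ heq
      rw [Finset.mem_coe, Finset.mem_product, Finset.mem_filter] at hq hq₁
      obtain ⟨⟨hv, hK⟩, hw⟩ := hq
      obtain ⟨⟨hv₁, hK₁⟩, hw₁⟩ := hq₁
      simp only at hv hK hw hv₁ hK₁ hw₁
      simp only [Prod.mk.injEq] at heq
      obtain ⟨he1, he2⟩ := heq
      have hw' : w ∈ simp0 p (spt p x v (δ v) U) (2 * Real.log B) := by rw [hK]; exact hw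
      have hw₁' : w₁ ∈ simp0 p (spt p x v₁ (δ v₁) U) (2 * Real.log B) := by rw [hK₁]; exact hw₁
      have hww : w = w₁ := by
        funext i
        by_cases hi : i ∈ K
        · have h1 := hF v hv w hw' i
          have h2 := hF v₁ hv₁ w₁ hw₁' i
          rw [he1, h2] at h1
          have h3 := congrFun he2 i
          unfold rst at h3
          rw [if_pos hi, if_pos hi] at h3
          simp only at h3
          omega
        · rw [((mem_simp0 hp2).1 hw).1 i hi, ((mem_simp0 hp2).1 hw₁).1 i hi]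
      subst hww
      have hle := hint v hv w hw'
      have hle₁ := hint v₁ hv₁ w hw₁'
      have hvv : v = v₁ := by
        rw [← tsub_add_cancel_of_le hle, he1, tsub_add_cancel_of_le hle₁]
      rw [hvv]
  rw [Finset.card_product, Finset.card_product] at key
  have h1 := simp1_double p hp2 K (Real.log B)
  have h2 := simp0_pos p hp2 K (2 * Real.log B)
    (mul_nonneg (by norm_num) (caseB_log_nonneg B hB))
  refine Nat.le_of_mul_le_mul_right ?_ h2
  calc _ = ((S.filter fun v => spt p x v (δ v) U = K).card *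
        (simp0 p K (2 * Real.log B)).card) * 2 ^ K.card := by ring
    _ ≤ _ := Nat.mul_le_mul_right _ key
    _ = ((box ι V).filter fun v' =>
        (U.filter fun i => caseBF p x (B * Real.exp (2 * Real.log B)) ρ v' i ≠ 0) = K).card *
        ((simp1 p K (Real.log B)).card * 2 ^ K.card) := by ring
    _ ≤ _ := Nat.mul_le_mul_left _ h1

theorem case_b (p : ι → ℕ) (hp : ∀ i, (p i).Prime) (hinj : Function.Injective p)
    (x : UnitAddCircle) (V s B : ℕ) (hB : 1 ≤ B) (U : Finset ι) (ρ : ℝ) (hρ : 0 ≤ ρ)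
    (S : Finset (ι → ℕ)) (hS : S ⊆ box ι V) (δ : (ι → ℕ) → ℝ)
    (hd : ∀ v ∈ S, 0 < addOrderOf (bt p x v (δ v) 0) ∧ addOrderOf (bt p x v (δ v) 0) ≤ B ∧
      (addOrderOf (bt p x v (δ v) 0) : ℝ) * |δ v| ≤ ρ)
    (hspt : ∀ v ∈ S, s < (spt p x v (δ v) U).card)
    (hint : ∀ v ∈ S, ∀ w ∈ simp0 p (spt p x v (δ v) U) (2 * Real.log B), w ≤ v)
    (hu : 2 * ρ * (B * Real.exp (2 * Real.log B)) < 1) :
    S.card * 2 ^ s ≤ V ^ Fintype.card ι := by
  classical
  have hA : S.card = ∑ K ∈ U.powerset, (S.filter fun v => spt p x v (δ v) U = K).card := by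
    refine Finset.card_eq_sum_card_fiberwise ?_
    intro v _
    rw [Finset.mem_coe, Finset.mem_powerset]
    unfold spt
    exact Finset.filter_subset _ _
  have hC : (box ι V).card = ∑ K ∈ U.powerset, ((box ι V).filter fun v' =>
      (U.filter fun i => caseBF p x (B * Real.exp (2 * Real.log B)) ρ v' i ≠ 0) = K).card := by
    refine Finset.card_eq_sum_card_fiberwise ?_
    intro v _
    rw [Finset.mem_coe, Finset.mem_powerset]
    exact Finset.filter_subset _ _
  rw [← card_box, hA, hC, Finset.sum_mul]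
  refine Finset.sum_le_sum fun K _ => ?_
  refine le_trans ?_ (caseB_one p hp hinj x V B hB U ρ S hS δ hd hint hu K)
  rcases Finset.eq_empty_or_nonempty (S.filter fun v => spt p x v (δ v) U = K) with h | ⟨v, hv⟩
  · rw [h, Finset.card_empty, zero_mul, zero_mul]
  · obtain ⟨hvS, hvK⟩ := Finset.mem_filter.1 hv
    have := hspt v hvS
    rw [hvK] at this
    exact Nat.mul_le_mul_left _ (Nat.pow_le_pow_right (by norm_num) this.le)

end Furst96.Spz
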