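import Pool.Agent.H.MP_96e181_an.spz.Back
import Pool.Agent.H.MP_96e181_an.spz.ClassComb

/-! # Module ClassBound: the pairs `(v, K)` with `m ≤ wt (rst K cc) ≤ M`

Let `D = B e^W`, `r = ρ e^{-m}`.  For `v' : ι → ℕ` let `F v' i` be the exponent of `p_i` in the
order of a point `τ` with `0 < ord τ ≤ D` and `‖g_{v'} x - τ‖ ord τ ≤ r` (zero if there is none);
`τ` is unique by `near_unique` (`hu`).  For `v ∈ S`, `K ∈ Kc v`, `w ∈ simp1 p K W`, `a = rst K cc + w`:
`τ = bt p x v (δ v) a` is such a point for `v' = v - a`: its order is `ord(bt 0) g_w ≤ B e^W`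
(`order_eq`, `gg_eq_exp`, `wt w ≤ W`), and by `dist_bt`
`‖g_{v'} x - τ‖ ord τ = ‖..‖ g_w ord(bt 0) ≤ |δ| ord(bt 0) e^{-wt (rst K cc)} ≤ ρ e^{-m}`.
By `fact_at` `F v' i = fe i 0 + w_i` which is `w_i` for `i ∈ K` (`K` disjoint from `spt`), and
`fe i 0` outside `K`; so `{i ∈ U : F v' i ≠ 0} ⊆ K ∪ spt` has at most `k + s` elements.
Apply `class_comb`. -/

set_option autoImplicit false

open MeasureTheory

namespace Furst96.Spz

open Furst96.Sps

variable {ι : Type*} [Fintype ι] [DecidableEq ι]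

/-- `τ` is a point of finite order near `g_{v'} x` -/
private def ClassBound_Good (p : ι → ℕ) (x : UnitAddCircle) (D r : ℝ) (v' : ι → ℕ)
    (τ : UnitAddCircle) : Prop :=
  0 < addOrderOf τ ∧ (addOrderOf τ : ℝ) ≤ D ∧ ‖gg p v' • x - τ‖ * addOrderOf τ ≤ r

open Classical in
/-- the exponents of the order of the point near `g_{v'} x` -/
private noncomputable def ClassBound_F (p : ι → ℕ) (x : UnitAddCircle) (D r : ℝ) (v' : ι → ℕ)
    (i : ι) : ℕ :=
  if h : ∃ τ, ClassBound_Good p x D r v' τ then (addOrderOf h.choose).factorization (p i) else 0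

private theorem ClassBound_F_eq (p : ι → ℕ) (x : UnitAddCircle) (D r : ℝ)
    (hDr : 2 * r * D < 1) (v' : ι → ℕ) (τ : UnitAddCircle) (h : ClassBound_Good p x D r v' τ)
    (i : ι) : ClassBound_F p x D r v' i = (addOrderOf τ).factorization (p i) := by
  have hex : ∃ τ, ClassBound_Good p x D r v' τ := ⟨τ, h⟩
  obtain ⟨h1, h2, h3⟩ := hex.choose_spec
  have h4 : hex.choose = τ := near_unique (gg p v' • x) hex.choose τ D r h1 h.1 h2 h.2.1 h3 h.2.2 hDr
  unfold ClassBound_F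
  rw [dif_pos hex, h4]

/-- the point `bt` at `rst K cc + w` is near `g_{v - a} x` -/
private theorem ClassBound_good (p : ι → ℕ) (hp : ∀ i, (p i).Prime)
    (hinj : Function.Injective p) (x : UnitAddCircle) (B : ℕ) (ρ m W : ℝ) (v : ι → ℕ) (δ : ℝ)
    (h0 : 0 < addOrderOf (bt p x v δ 0)) (hB : addOrderOf (bt p x v δ 0) ≤ B)
    (hρ : (addOrderOf (bt p x v δ 0) : ℝ) * |δ| ≤ ρ) (K : Finset ι)
    (hm : m ≤ wt p (rst K (cc p x v δ))) (w : ι → ℕ) (hw : ∀ i, i ∉ K → w i = 0)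
    (hW : wt p w ≤ W) (hav : rst K (cc p x v δ) + w ≤ v) :
    ClassBound_Good p x (B * Real.exp W) (ρ * Real.exp (-m)) (v - (rst K (cc p x v δ) + w))
      (bt p x v δ (rst K (cc p x v δ) + w)) := by
  have hp2 : ∀ i, 2 ≤ p i := fun i => (hp i).two_le
  have ho := order_eq p hp hinj x v δ h0 K w hw hav
  have hg := gg_pos hp2 w
  have hge : (gg p w : ℝ) = Real.exp (wt p w) := gg_eq_exp hp2 w
  refine ⟨?_, ?_, ?_⟩
  · rw [ho]
    exact Nat.mul_pos h0 hg
  · rw [ho, Nat.cast_mul, hge]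
    exact mul_le_mul (by exact_mod_cast hB) (Real.exp_le_exp.2 hW) (Real.exp_pos _).le
      (Nat.cast_nonneg _)
  · rw [ho, Nat.cast_mul]
    have hd := dist_bt p hp x v δ K (rst K (cc p x v δ)) w
    have e1 : ‖gg p (v - (rst K (cc p x v δ) + w)) • x - bt p x v δ (rst K (cc p x v δ) + w)‖ *
        ((addOrderOf (bt p x v δ 0) : ℝ) * (gg p w : ℝ)) =
        (addOrderOf (bt p x v δ 0) : ℝ) *
        (‖gg p (v - (rst K (cc p x v δ) + w)) • x - bt p x v δ (rst K (cc p x v δ) + w)‖ *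
          (gg p w : ℝ)) := by ring
    rw [e1]
    calc (addOrderOf (bt p x v δ 0) : ℝ) *
        (‖gg p (v - (rst K (cc p x v δ) + w)) • x - bt p x v δ (rst K (cc p x v δ) + w)‖ *
          (gg p w : ℝ))
        ≤ (addOrderOf (bt p x v δ 0) : ℝ) *
          (|δ| * Real.exp (-wt p (rst K (cc p x v δ)))) :=
          mul_le_mul_of_nonneg_left hd (Nat.cast_nonneg _)
      _ = ((addOrderOf (bt p x v δ 0) : ℝ) * |δ|) *
          Real.exp (-wt p (rst K (cc p x v δ))) := by ring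
      _ ≤ ρ * Real.exp (-m) :=
          mul_le_mul hρ (Real.exp_le_exp.2 (neg_le_neg hm)) (Real.exp_pos _).le
            (le_trans (mul_nonneg (Nat.cast_nonneg _) (abs_nonneg _)) hρ)

theorem class_bound (p : ι → ℕ) (hp : ∀ i, (p i).Prime) (hinj : Function.Injective p)
    (x : UnitAddCircle) (V k s q B : ℕ) (U : Finset ι) (ρ m M W : ℝ) (hρ : 0 ≤ ρ)
    (S : Finset (ι → ℕ)) (hS : S ⊆ box ι V) (δ : (ι → ℕ) → ℝ)
    (hd : ∀ v ∈ S, 0 < addOrderOf (bt p x v (δ v) 0) ∧ addOrderOf (bt p x v (δ v) 0) ≤ B ∧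
      (addOrderOf (bt p x v (δ v) 0) : ℝ) * |δ v| ≤ ρ)
    (hspt : ∀ v ∈ S, (spt p x v (δ v) U).card ≤ s)
    (Kc : (ι → ℕ) → Finset (Finset ι))
    (hK : ∀ v ∈ S, ∀ K ∈ Kc v, K ⊆ U ∧ K.card = k ∧ Disjoint K (spt p x v (δ v) U) ∧
      m ≤ wt p (rst K (cc p x v (δ v))) ∧ wt p (rst K (cc p x v (δ v))) ≤ M)
    (hint : ∀ v ∈ S, ∀ K ∈ Kc v, ∀ w ∈ simp1 p K W, rst K (cc p x v (δ v)) + w ≤ v)
    (hu : 2 * (ρ * Real.exp (-m)) * (B * Real.exp W) < 1)
    (hq : ∀ K ⊆ U, K.card = k →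
      (simp0 p K M).card ≤ q ^ k * (simp1 p K W).card ∧ 0 < (simp1 p K W).card) :
    ∑ v ∈ S, (Kc v).card ≤ q ^ k * (k + s).choose k * V ^ Fintype.card ι := by
  have hp2 : ∀ i, 2 ≤ p i := fun i => (hp i).two_le
  refine class_comb p hp2 V k s q M W U S hS (fun v => cc p x v (δ v)) Kc
    (ClassBound_F p x (B * Real.exp W) (ρ * Real.exp (-m))) ?_ ?_ hq
  · intro v hv K hKv
    obtain ⟨h1, h2, -, -, h5⟩ := hK v hv K hKv
    exact ⟨h1, h2, h5⟩
  · intro v hv K hKv w hw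
    obtain ⟨k1, k2, k3, k4, -⟩ := hK v hv K hKv
    obtain ⟨w1, -, w3⟩ := (mem_simp1 hp2).1 hw
    obtain ⟨d1, d2, d3⟩ := hd v hv
    have hav := hint v hv K hKv w hw
    have hgood := ClassBound_good p hp hinj x B ρ m W v (δ v) d1 d2 d3 K k4 w w1 w3 hav
    have hFe : ∀ i, ClassBound_F p x (B * Real.exp W) (ρ * Real.exp (-m))
        (v - (rst K (cc p x v (δ v)) + w)) i = fe p x v (δ v) i 0 + w i := by
      intro i
      rw [ClassBound_F_eq p x _ _ hu _ _ hgood i,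
        fact_at p hp hinj x v (δ v) d1 K w w1 hav i]
    refine ⟨hav, ?_, ?_⟩
    · intro i hi
      rw [hFe i]
      have h6 : i ∉ spt p x v (δ v) U := Finset.disjoint_left.1 k3 hi
      have h7 : fe p x v (δ v) i 0 = 0 := by
        by_contra h8
        exact h6 (Finset.mem_filter.2 ⟨k1 hi, h8⟩)
      rw [h7, zero_add]
    · have hsub : (U.filter fun i => ClassBound_F p x (B * Real.exp W) (ρ * Real.exp (-m))
          (v - (rst K (cc p x v (δ v)) + w)) i ≠ 0) ⊆ K ∪ spt p x v (δ v) U := by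
        intro i hi
        rw [Finset.mem_filter, hFe i] at hi
        rw [Finset.mem_union]
        by_cases hiK : i ∈ K
        · exact Or.inl hiK
        · right
          refine Finset.mem_filter.2 ⟨hi.1, ?_⟩
          have h9 := w1 i hiK
          intro h10
          exact hi.2 (by rw [h9, h10])
      calc _ ≤ (K ∪ spt p x v (δ v) U).card := Finset.card_le_card hsub
        _ ≤ K.card + (spt p x v (δ v) U).card := Finset.card_union_le _ _
        _ ≤ k + s := by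
          have := hspt v hv
          omega

end Furst96.Spz
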