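import Pool.Agent.H.MP_96e181_an.sps.CircleLib

/-! # Module Defs: boxes, weights and simplices in `ι → ℕ` -/

set_option autoImplicit false

open MeasureTheory

namespace Furst96.Spz

open Furst96.Sps

variable {ι : Type*} [Fintype ι] [DecidableEq ι]

/-- the product `∏ p_i ^ a_i`. -/
def gg (p : ι → ℕ) (a : ι → ℕ) : ℕ := ∏ i, p i ^ a i

/-- its logarithm. -/
noncomputable def wt (p : ι → ℕ) (a : ι → ℕ) : ℝ := ∑ i, (a i : ℝ) * Real.log (p i)

/-- the box `[0, V)^ι`. -/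
def box (ι : Type*) [Fintype ι] [DecidableEq ι] (V : ℕ) : Finset (ι → ℕ) :=
  Fintype.piFinset fun _ : ι => Finset.range V

/-- the restriction of `a` to `K` (zero outside). -/
def rst (K : Finset ι) (a : ι → ℕ) : ι → ℕ := fun i => if i ∈ K then a i else 0

open Classical in
/-- the `a` with `a = 0` outside `K` and weight at most `M`. -/
noncomputable def simp0 (p : ι → ℕ) (K : Finset ι) (M : ℝ) : Finset (ι → ℕ) :=
  (Fintype.piFinset fun _ : ι => Finset.range (⌊M / Real.log 2⌋₊ + 1)).filter fun a =>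
    (∀ i, i ∉ K → a i = 0) ∧ wt p a ≤ M

open Classical in
/-- the `a` with `a = 0` outside `K`, `a ≥ 1` on `K`, and weight at most `M`. -/
noncomputable def simp1 (p : ι → ℕ) (K : Finset ι) (M : ℝ) : Finset (ι → ℕ) :=
  (Fintype.piFinset fun _ : ι => Finset.range (⌊M / Real.log 2⌋₊ + 1)).filter fun a =>
    (∀ i, i ∉ K → a i = 0) ∧ (∀ i ∈ K, 1 ≤ a i) ∧ wt p a ≤ M

/-- the point `g_{v-a} x - δ / g_a`: the point of finite order near `g_{v-a} x`. -/
noncomputable def bt (p : ι → ℕ) (x : UnitAddCircle) (v : ι → ℕ) (δ : ℝ) (a : ι → ℕ) :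
    UnitAddCircle :=
  gg p (v - a) • x - ((δ / (gg p a : ℝ) : ℝ) : UnitAddCircle)

/-- the exponent of `p_i` in the order of `bt` at `n e_i`. -/
noncomputable def fe (p : ι → ℕ) (x : UnitAddCircle) (v : ι → ℕ) (δ : ℝ) (i : ι) (n : ℕ) : ℕ :=
  (addOrderOf (bt p x v δ (Pi.single i n))).factorization (p i)

/-- how far one can go back in the direction `i` with an order prime to `p_i`. -/
noncomputable def cc (p : ι → ℕ) (x : UnitAddCircle) (v : ι → ℕ) (δ : ℝ) (i : ι) : ℕ :=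
  Nat.findGreatest (fun n => fe p x v δ i n = 0) (v i)

/-- the directions in `U` whose prime divides the order. -/
noncomputable def spt (p : ι → ℕ) (x : UnitAddCircle) (v : ι → ℕ) (δ : ℝ) (U : Finset ι) :
    Finset ι :=
  U.filter fun i => fe p x v δ i 0 ≠ 0

/-! ### basic lemmas -/

theorem gg_pos {p : ι → ℕ} (hp : ∀ i, 2 ≤ p i) (a : ι → ℕ) : 0 < gg p a :=
  Finset.prod_pos fun i _ => pow_pos (by have := hp i; omega) _

theorem gg_add (p : ι → ℕ) (a b : ι → ℕ) : gg p (a + b) = gg p a * gg p b := by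
  unfold gg
  rw [← Finset.prod_mul_distrib]
  exact Finset.prod_congr rfl fun i _ => pow_add _ _ _

theorem gg_zero (p : ι → ℕ) : gg p 0 = 1 := by simp [gg]

theorem wt_add (p : ι → ℕ) (a b : ι → ℕ) : wt p (a + b) = wt p a + wt p b := by
  unfold wt
  rw [← Finset.sum_add_distrib]
  exact Finset.sum_congr rfl fun i _ => by simp only [Pi.add_apply]; push_cast; ring

theorem log_pos' {p : ι → ℕ} (hp : ∀ i, 2 ≤ p i) (i : ι) : 0 < Real.log (p i) :=
  Real.log_pos (by exact_mod_cast (by have := hp i; omega : 1 < p i))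

theorem log_two_le {p : ι → ℕ} (hp : ∀ i, 2 ≤ p i) (i : ι) : Real.log 2 ≤ Real.log (p i) :=
  Real.log_le_log (by norm_num) (by exact_mod_cast hp i)

theorem wt_nonneg {p : ι → ℕ} (hp : ∀ i, 2 ≤ p i) (a : ι → ℕ) : 0 ≤ wt p a :=
  Finset.sum_nonneg fun i _ => mul_nonneg (Nat.cast_nonneg _) (log_pos' hp i).le

theorem le_wt {p : ι → ℕ} (hp : ∀ i, 2 ≤ p i) (a : ι → ℕ) (i : ι) :
    (a i : ℝ) * Real.log (p i) ≤ wt p a :=
  Finset.single_le_sum (f := fun i => (a i : ℝ) * Real.log (p i))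
    (fun j _ => mul_nonneg (Nat.cast_nonneg _) (log_pos' hp j).le) (Finset.mem_univ i)

theorem log_gg {p : ι → ℕ} (hp : ∀ i, 2 ≤ p i) (a : ι → ℕ) : Real.log (gg p a : ℝ) = wt p a := by
  unfold gg wt
  push_cast
  rw [Real.log_prod fun i _ => by
    have := hp i
    have h : (p i : ℝ) ≠ 0 := by exact_mod_cast (by omega : p i ≠ 0)
    exact pow_ne_zero _ h]
  exact Finset.sum_congr rfl fun i _ => Real.log_pow _ _

theorem gg_eq_exp {p : ι → ℕ} (hp : ∀ i, 2 ≤ p i) (a : ι → ℕ) :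
    (gg p a : ℝ) = Real.exp (wt p a) := by
  rw [← log_gg hp, Real.exp_log]
  exact_mod_cast gg_pos hp a

theorem mem_box {V : ℕ} {v : ι → ℕ} : v ∈ box ι V ↔ ∀ i, v i < V := by
  simp [box]

theorem card_box (V : ℕ) : (box ι V).card = V ^ Fintype.card ι := by
  simp [box]

theorem mem_simp0 {p : ι → ℕ} (hp : ∀ i, 2 ≤ p i) {K : Finset ι} {M : ℝ} {a : ι → ℕ} :
    a ∈ simp0 p K M ↔ (∀ i, i ∉ K → a i = 0) ∧ wt p a ≤ M := by
  classical
  unfold simp0
  rw [Finset.mem_filter, Fintype.mem_piFinset]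
  refine ⟨fun h => h.2, fun h => ⟨fun i => ?_, h⟩⟩
  rw [Finset.mem_range, Nat.lt_succ_iff]
  refine Nat.le_floor ?_
  rw [le_div_iff₀ (Real.log_pos (by norm_num))]
  have h1 := le_wt hp a i
  have h2 := mul_le_mul_of_nonneg_left (log_two_le hp i) (Nat.cast_nonneg (a i))
  linarith [h.2]

theorem mem_simp1 {p : ι → ℕ} (hp : ∀ i, 2 ≤ p i) {K : Finset ι} {M : ℝ} {a : ι → ℕ} :
    a ∈ simp1 p K M ↔ (∀ i, i ∉ K → a i = 0) ∧ (∀ i ∈ K, 1 ≤ a i) ∧ wt p a ≤ M := by
  classical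
  unfold simp1
  rw [Finset.mem_filter, Fintype.mem_piFinset]
  refine ⟨fun h => h.2, fun h => ⟨fun i => ?_, h⟩⟩
  rw [Finset.mem_range, Nat.lt_succ_iff]
  refine Nat.le_floor ?_
  rw [le_div_iff₀ (Real.log_pos (by norm_num))]
  have h1 := le_wt hp a i
  have h2 := mul_le_mul_of_nonneg_left (log_two_le hp i) (Nat.cast_nonneg (a i))
  linarith [h.2.2]

theorem wt_rst_le {p : ι → ℕ} (hp : ∀ i, 2 ≤ p i) (K : Finset ι) (a : ι → ℕ) :
    wt p (rst K a) ≤ wt p a := by
  unfold wt rst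
  refine Finset.sum_le_sum fun i _ => mul_le_mul_of_nonneg_right ?_ (log_pos' hp i).le
  split_ifs
  · exact le_rfl
  · exact_mod_cast Nat.zero_le _

theorem wt_rst (p : ι → ℕ) (K : Finset ι) (a : ι → ℕ) :
    wt p (rst K a) = ∑ i ∈ K, (a i : ℝ) * Real.log (p i) := by
  unfold wt rst
  rw [← Finset.sum_filter_add_sum_filter_not Finset.univ (· ∈ K)]
  have h1 : ∑ i ∈ Finset.univ.filter (fun i => i ∉ K),
      (((if i ∈ K then a i else 0 : ℕ) : ℝ) * Real.log (p i)) = 0 :=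
    Finset.sum_eq_zero fun i hi => by
      rw [if_neg (Finset.mem_filter.1 hi).2]
      simp
  rw [h1, add_zero]
  have h2 : Finset.univ.filter (fun i => i ∈ K) = K := by
    ext i
    simp
  rw [h2]
  exact Finset.sum_congr rfl fun i hi => by rw [if_pos hi]

end Furst96.Spz
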