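import Pool.Agent.H.MP_96e181_an.spz.Stage
import Pool.Agent.H.MP_96e181_an.spz.ExistsQ

/-! # Module NearBound: the Diophantine estimate

Let `i₀` be as in `exists_Q`, `i₁` as in `sum_sf_small`, `j + 4 ≥ max i₀ i₁`.  Given `y`, let
`A = #(P ∩ [1, y])`, `n` the largest integer with `300 sf i ≤ A` for all `i < j + 4 + n`.
`near_iter` with `m = 2^(j+4) = 16 · 2^j`, `B = 2^(2^j)` (`B^9 ≤ 2^m` since `9 ≤ 16`), `sf (l + j + 4)`
and the sets `Q` of `exists_Q` (scale `l + j + 4`) give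
`μ(Near B (1/2^(16·2^j))) ≤ μ(Near B (1/2^(2^(n+j+4)))) + η`.
If `A ≥ C` (`C` large, dependent on `j`) then `300 sf i ≤ A` for all `i ≤ exp(A/C) · 2`, so
`2^(n+j+4) log 2 ≥ exp(exp(A/C))`, and `B ≤ C`: `Near B (1/2^(2^(n+j+4))) ⊆ Near C (...)`.
If `A < C`, then `exp(-exp(exp(A/C))) ≥ exp(-exp(exp 1)) ≥ 1/(C+1)` for `C ≥ 10^7`
(`exp 1 < 2.7183`, `exp 2.7183 < 15.2`, `exp 15.2 < 4·10^6`) and `Near C ..` is the whole circle by
Dirichlet's theorem (`Real.exists_nat_abs_mul_sub_round_le` or `AddCircle.exists_norm_nsmul_le`). -/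

set_option autoImplicit false

open MeasureTheory Filter

namespace Furst96.Spz

open Furst96.Sps

theorem near_dirichlet (C : ℕ) (hC : 1 ≤ C) (ρ : ℝ) (hρ : 1 / ((C : ℝ) + 1) ≤ ρ) :
    Near C ρ = Set.univ := by
  rw [Set.eq_univ_iff_forall]
  intro x
  obtain ⟨b, hb, hx⟩ := AddCircle.exists_norm_nsmul_le (T := (1 : ℝ)) x (n := C) (by omega)
  refine ⟨b, hb.1, hb.2, hx.trans ?_⟩
  refine le_trans (le_of_eq ?_) hρ
  push_cast
  rfl

theorem NearBound_exp : Real.exp (Real.exp (Real.exp 1)) ≤ 10 ^ 7 := by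
  have h1 : Real.exp 1 < 2.7182818286 := Real.exp_one_lt_d9
  have h28 : (1.3192 : ℝ) ≤ Real.exp 0.28 := by
    have := Real.quadratic_le_exp_of_nonneg (x := 0.28) (by norm_num)
    norm_num at this
    linarith
  have h70 : (1.945 : ℝ) ≤ Real.exp 0.7 := by
    have := Real.quadratic_le_exp_of_nonneg (x := 0.7) (by norm_num)
    norm_num at this
    linarith
  have e1 : Real.exp 2.72 * Real.exp 0.28 = Real.exp 1 ^ 3 := by
    rw [← Real.exp_add, ← Real.exp_nat_mul]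
    congr 1
    norm_num
  have h2 : Real.exp 2.72 ≤ 15.3 := by
    have h3 : Real.exp 1 ^ 3 ≤ 2.7182818286 ^ 3 := by gcongr
    have h4 : Real.exp 2.72 * 1.3192 ≤ Real.exp 2.72 * Real.exp 0.28 :=
      mul_le_mul_of_nonneg_left h28 (Real.exp_pos _).le
    rw [e1] at h4
    norm_num at h3 h4
    linarith
  have e2 : Real.exp 15.3 * Real.exp 0.7 = Real.exp 1 ^ 16 := by
    rw [← Real.exp_add, ← Real.exp_nat_mul]
    congr 1
    norm_num
  have h3 : Real.exp 15.3 ≤ 10 ^ 7 := by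
    have h3 : Real.exp 1 ^ 16 ≤ 2.7182818286 ^ 16 := by gcongr
    have h4 : Real.exp 15.3 * 1.945 ≤ Real.exp 15.3 * Real.exp 0.7 :=
      mul_le_mul_of_nonneg_left h70 (Real.exp_pos _).le
    rw [e2] at h4
    norm_num at h3 h4
    linarith
  calc Real.exp (Real.exp (Real.exp 1)) ≤ Real.exp (Real.exp 2.72) := by
        refine Real.exp_le_exp.2 (Real.exp_le_exp.2 ?_)
        linarith
    _ ≤ Real.exp 15.3 := Real.exp_le_exp.2 h2
    _ ≤ 10 ^ 7 := h3

theorem near_trivial (C : ℕ) (hC : 10 ^ 7 ≤ C) (a : ℝ) (ha : a ≤ C) :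
    Near C (Real.exp (-Real.exp (Real.exp (a / C)))) = Set.univ := by
  have hC' : (10 ^ 7 : ℝ) ≤ C := by exact_mod_cast hC
  have hC0 : (0 : ℝ) < C := lt_of_lt_of_le (by norm_num) hC'
  refine near_dirichlet C (le_trans (by norm_num) hC) _ ?_
  have h1 : a / C ≤ 1 := by
    rw [div_le_one hC0]
    exact ha
  have h2 : Real.exp (Real.exp (Real.exp (a / C))) ≤ C + 1 :=
    (Real.exp_le_exp.2 (Real.exp_le_exp.2 (Real.exp_le_exp.2 h1))).trans
      (NearBound_exp.trans (by linarith))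
  rw [Real.exp_neg, one_div]
  exact inv_anti₀ (Real.exp_pos _) h2

theorem NearBound_pow {a : ℝ} {r : ℕ} (ha : 1 ≤ a) (hr : 3 * a + 3 ≤ r) :
    Real.exp a + 1 ≤ 2 ^ r * Real.log 2 := by
  have hl : (0.69 : ℝ) < Real.log 2 := lt_trans (by norm_num) Real.log_two_gt_d9
  have h1 : (2 : ℝ) ^ r = Real.exp (r * Real.log 2) := by
    rw [mul_comm, Real.exp_mul, Real.exp_log (by norm_num), Real.rpow_natCast]
  have h2 : a + 3 ≤ r * Real.log 2 := by
    have h3 : (3 * a + 3) * 0.69 ≤ r * Real.log 2 :=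
      mul_le_mul hr hl.le (by norm_num) (by linarith)
    linarith
  have h3 : Real.exp (a + 3) ≤ 2 ^ r := by
    rw [h1]
    exact Real.exp_le_exp.2 h2
  have h4' : (4 : ℝ) ≤ Real.exp 3 := by
    have := Real.add_one_le_exp (3 : ℝ)
    linarith
  rw [Real.exp_add] at h3
  have h5 : 1 ≤ Real.exp a := Real.one_le_exp (by linarith)
  have h6 : Real.exp a * 4 ≤ 2 ^ r :=
    le_trans (mul_le_mul_of_nonneg_left h4' (Real.exp_pos _).le) h3
  nlinarith

theorem NearBound_dbl {a : ℝ} {r : ℕ} (ha : 1 ≤ a) (hr : 3 * a + 3 ≤ r) :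
    Real.exp (Real.exp a) ≤ 2 ^ 2 ^ r * Real.log 2 := by
  have hl : (0.69 : ℝ) < Real.log 2 := lt_trans (by norm_num) Real.log_two_gt_d9
  have h1 := NearBound_pow ha hr
  have h2 : (2 : ℝ) ^ 2 ^ r = Real.exp (2 ^ r * Real.log 2) := by
    rw [mul_comm, Real.exp_mul, Real.exp_log (by norm_num)]
    have h3 : ((2 : ℝ) ^ r) = ((2 ^ r : ℕ) : ℝ) := by push_cast; rfl
    rw [h3, Real.rpow_natCast]
  have h3 : Real.exp (Real.exp a + 1) ≤ 2 ^ 2 ^ r := by
    rw [h2]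
    exact Real.exp_le_exp.2 h1
  have h4 : (2 : ℝ) ≤ Real.exp 1 := by
    have := Real.add_one_le_exp (1 : ℝ)
    linarith
  rw [Real.exp_add] at h3
  have h5 := Real.exp_pos (Real.exp a)
  have h6 : Real.exp (Real.exp a) * 2 ≤ 2 ^ 2 ^ r :=
    le_trans (mul_le_mul_of_nonneg_left h4 h5.le) h3
  nlinarith

theorem near_bound (P : Set ℕ) (hP : ∀ p ∈ P, p.Prime)
    (h1 : ∀ᶠ y : ℕ in atTop, 1000 * Real.log (Real.log (Real.log y)) ≤
      ((P ∩ Set.Iic y).ncard : ℝ)) (η : ℝ) (hη : 0 < η) :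
    ∃ j₀ : ℕ, ∀ j, j₀ ≤ j → ∃ C : ℕ, 1 ≤ C ∧ ∀ (C' : ℕ), C ≤ C' →
      ∀ (y : ℕ) (μ : Measure UnitAddCircle), IsProbabilityMeasure μ →
      (∀ p ∈ P, p ≤ y → Inv μ p) →
      μ.real (Near (2 ^ 2 ^ j) (1 / (2 : ℝ) ^ (16 * 2 ^ j))) ≤ η +
        μ.real (Near C' (Real.exp (-Real.exp (Real.exp (((P ∩ Set.Iic y).ncard : ℝ) / C'))))) := by
  obtain ⟨i₀, hi₀, hQ⟩ := exists_Q P h1
  obtain ⟨i₁, hi₁⟩ := sum_sf_small η hη
  refine ⟨max i₀ i₁, fun j hj => ⟨max (10 ^ 7) (2 ^ 2 ^ j), le_max_of_le_left (by norm_num),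
    fun C' hC' y μ hμ hinv => ?_⟩⟩
  have hj0 : i₀ ≤ j := (le_max_left _ _).trans hj
  have hj1 : i₁ ≤ j := (le_max_right _ _).trans hj
  have hC7 : 10 ^ 7 ≤ C' := (le_max_left _ _).trans hC'
  have hCB : 2 ^ 2 ^ j ≤ C' := (le_max_right _ _).trans hC'
  obtain ⟨A, hA⟩ : ∃ A, A = (P ∩ Set.Iic y).ncard := ⟨_, rfl⟩
  rw [← hA]
  have hle1 : μ.real (Near (2 ^ 2 ^ j) (1 / (2 : ℝ) ^ (16 * 2 ^ j))) ≤ 1 := measureReal_le_one
  by_cases hAC : (A : ℝ) ≤ C'
  · rw [near_trivial C' hC7 A hAC]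
    have h2 : μ.real Set.univ = 1 := by
      rw [Measure.real, measure_univ, ENNReal.toReal_one]
    rw [h2]
    linarith
  · push Not at hAC
    have hCr : (10 ^ 7 : ℝ) ≤ C' := by exact_mod_cast hC7
    have hC0 : (0 : ℝ) < C' := lt_of_lt_of_le (by norm_num) hCr
    obtain ⟨r, hr⟩ : ∃ r, r = A / 600 := ⟨_, rfl⟩
    obtain ⟨n, hn⟩ : ∃ n, n = 2 ^ r - (j + 4) := ⟨_, rfl⟩
    have hsf : ∀ i < n, 300 * sf (i + (j + 4)) ≤ A := by
      intro i hi
      have h2 : i + (j + 4) < 2 ^ r := by omega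
      have h3 : Nat.log 2 (i + (j + 4)) < r := Nat.log_lt_of_lt_pow (by omega) h2
      have h4 : 600 * r ≤ A := by
        rw [hr]
        exact Nat.mul_div_le A 600
      unfold sf
      omega
    have hm : (16 * 2 ^ j : ℕ) = 2 ^ (j + 4) := by
      rw [pow_add]
      ring
    have hit := near_iter μ (2 ^ (j + 4)) (2 ^ 2 ^ j) Nat.one_le_two_pow (by
        rw [← pow_mul]
        refine Nat.pow_le_pow_right (by norm_num) ?_
        rw [pow_add]
        have : 0 < 2 ^ j := by positivity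
        omega) (fun i => sf (i + (j + 4))) n (by
        intro i hi
        obtain ⟨Q, h2, h3, h4⟩ := hQ (i + (j + 4)) (by omega) y (by rw [← hA]; exact hsf i hi)
        refine ⟨Q, fun q hq => ⟨hP q (h2 q hq).1, hinv q (h2 q hq).1 (h2 q hq).2.1⟩, h3, ?_,
          one_le_sf _⟩
        rw [← pow_add]
        exact h4)
    have hsum := hi₁ (j + 4) (by omega) n
    have hsub : Near (2 ^ 2 ^ j) (1 / 2 ^ (2 ^ n * 2 ^ (j + 4))) ⊆
        Near C' (Real.exp (-Real.exp (Real.exp ((A : ℝ) / C')))) := by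
      refine near_mono hCB ?_
      have ha : 1 ≤ (A : ℝ) / C' := by
        rw [le_div_iff₀ hC0, one_mul]
        exact hAC.le
      have hra : 3 * ((A : ℝ) / C') + 3 ≤ r := by
        have h2 : (A : ℝ) / C' * 10 ^ 7 ≤ A := by
          calc (A : ℝ) / C' * 10 ^ 7 ≤ (A : ℝ) / C' * C' :=
                mul_le_mul_of_nonneg_left hCr (by positivity)
            _ = A := div_mul_cancel₀ _ hC0.ne'
        have h3 : (A : ℝ) < 600 * (r + 1) := by
          have h4 : A < 600 * (A / 600 + 1) := by omega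
          rw [hr]
          exact_mod_cast h4
        linarith
      have h2 := NearBound_dbl ha hra
      have h5 : Real.exp (Real.exp ((A : ℝ) / C')) ≤
          ((2 ^ n * 2 ^ (j + 4) : ℕ) : ℝ) * Real.log 2 := by
        have h6 : 2 ^ r ≤ n + (j + 4) := by omega
        refine h2.trans (mul_le_mul_of_nonneg_right ?_ (Real.log_nonneg (by norm_num)))
        rw [← pow_add]
        push_cast
        exact pow_le_pow_right₀ (by norm_num) h6
      rw [one_div, ← Real.exp_log (show (0 : ℝ) < 2 ^ (2 ^ n * 2 ^ (j + 4)) by positivity),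
        ← Real.exp_neg, Real.log_pow]
      refine Real.exp_le_exp.2 (neg_le_neg ?_)
      exact h5
    have h2 : μ.real (Near (2 ^ 2 ^ j) (1 / 2 ^ (2 ^ n * 2 ^ (j + 4)))) ≤
        μ.real (Near C' (Real.exp (-Real.exp (Real.exp ((A : ℝ) / C'))))) :=
      measureReal_mono hsub
    rw [hm]
    linarith

end Furst96.Spz
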