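import Pool.Agent.H.MP_96e181_an.spz.Apply
import Mathlib.NumberTheory.Chebyshev

/-! # Module Orbits: finite orbits, cosets of subgroups of `(ℤ/N)ˣ`, the set of all primes -/

set_option autoImplicit false

open MeasureTheory Filter Topology

namespace Furst96.Spz

open Furst96.Sps Furst96.Spx

/-- the uniform measure of a finite set. -/
theorem unif (S : Finset UnitAddCircle) (hne : S.Nonempty) :
    ∃ μ : Measure UnitAddCircle, IsProbabilityMeasure μ ∧
      (∀ p : ℕ, (∀ x ∈ S, p • x ∈ S) → Set.InjOn (fun x : UnitAddCircle => p • x) S → Inv μ p) ∧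
      (∀ A : Set UnitAddCircle, MeasurableSet A → (∀ x ∈ S, x ∉ A) → μ.real A = 0) ∧
      ∀ k : ℤ, coef μ k = (S.card : ℂ)⁻¹ * ∑ x ∈ S, (fourier k x : ℂ) := by
  classical
  have hcard : 0 < S.card := hne.card_pos
  have hc0 : ((S.card : ℕ) : ENNReal) ≠ 0 := by exact_mod_cast hcard.ne'
  have hct : ((S.card : ℕ) : ENNReal) ≠ ⊤ := ENNReal.natCast_ne_top _
  let ν : Measure UnitAddCircle := ∑ x ∈ S, Measure.dirac x
  have hν : ∀ A : Set UnitAddCircle, MeasurableSet A →
      ν A = ∑ x ∈ S, A.indicator (fun _ => (1 : ENNReal)) x := by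
    intro A hA
    simp only [ν, Measure.coe_finsetSum, Finset.sum_apply]
    exact Finset.sum_congr rfl fun x _ => by rw [Measure.dirac_apply' x hA]; rfl
  have hν1 : ν Set.univ = S.card := by
    rw [hν _ MeasurableSet.univ]
    simp
  let μ : Measure UnitAddCircle := ((S.card : ℕ) : ENNReal)⁻¹ • ν
  refine ⟨μ, ⟨by
    simp only [μ, Measure.smul_apply, smul_eq_mul]
    rw [hν1, ENNReal.inv_mul_cancel hc0 hct]⟩, ?_, ?_, ?_⟩
  · intro p hS1 hS2
    have hm : Measurable (fun x : UnitAddCircle => p • x) :=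
      (continuous_nsmul_circle p).measurable
    refine ⟨hm, ?_⟩
    ext A hA
    rw [Measure.map_apply hm hA]
    simp only [μ, Measure.smul_apply, smul_eq_mul]
    congr 1
    rw [hν _ (hm hA), hν _ hA]
    have himg : S.image (fun x => p • x) = S := by
      refine Finset.eq_of_subset_of_card_le ?_ ?_
      · intro y hy
        obtain ⟨x, hx, rfl⟩ := Finset.mem_image.1 hy
        exact hS1 x hx
      · rw [Finset.card_image_of_injOn hS2]
    conv_rhs => rw [← himg]
    rw [Finset.sum_image (fun x hx y hy hxy => hS2 hx hy hxy)]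
    rfl
  · intro A hA hSA
    have h0 : μ A = 0 := by
      simp only [μ, Measure.smul_apply, smul_eq_mul]
      rw [hν _ hA]
      rw [Finset.sum_eq_zero, mul_zero]
      intro x hx
      rw [Set.indicator_of_notMem (hSA x hx)]
    unfold Measure.real
    rw [h0, ENNReal.toReal_zero]
  · intro k
    unfold coef
    simp only [μ, ν]
    rw [integral_smul_measure, integral_finsetSum_measure]
    · simp only [integral_dirac, ENNReal.toReal_inv, ENNReal.toReal_natCast]
      rw [Complex.real_smul]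
      push_cast
      rfl
    · intro x _
      refine Integrable.of_bound (C := 1) (by fun_prop) ?_
      exact Filter.Eventually.of_forall fun y => le_of_eq (Circle.norm_coe _)

/-- finite sets permuted by the primes `p ∈ P`, `p ≤ y`. -/
theorem orbits (P : Set ℕ) (hP : ∀ p ∈ P, p.Prime)
    (h1 : ∀ᶠ y : ℕ in atTop, 1000 * Real.log (Real.log (Real.log y)) ≤
      ((P ∩ Set.Iic y).ncard : ℝ))
    (h2 : ∀ C : ℝ, ∃ᶠ y : ℕ in atTop, C * Real.log y ^ 4 ≤ ((P ∩ Set.Iic y).ncard : ℝ))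
    (ε : ℝ) (hε : 0 < ε) :
    ∃ C : ℕ, 1 ≤ C ∧ ∀ (y : ℕ) (S : Finset UnitAddCircle),
      (∀ p ∈ P, p ≤ y → ∀ x ∈ S, p • x ∈ S) →
      (∀ p ∈ P, p ≤ y → Set.InjOn (fun x : UnitAddCircle => p • x) S) →
      (∀ x ∈ S, C ≤ addOrderOf x ∧ C * Real.log (Real.log (Real.log (addOrderOf x))) ≤
        ((P ∩ Set.Iic y).ncard : ℝ)) →
      ∀ k : ℤ, k ≠ 0 → |(k : ℝ)| ≤ 1 / ε → ‖∑ x ∈ S, (fourier k x : ℂ)‖ ≤ ε * S.card := by
  classical
  obtain ⟨C₀, hC₀, h3⟩ := quant P hP h1 h2 ε hε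
  have hC₀R : (0 : ℝ) < C₀ := by exact_mod_cast hC₀
  refine ⟨2 * C₀ + 17, by omega, fun y S hS1 hS2 hS3 k hk hkε => ?_⟩
  rcases S.eq_empty_or_nonempty with hne | hne
  · rw [hne]
    simp
  have hcR : (0 : ℝ) < S.card := by exact_mod_cast hne.card_pos
  obtain ⟨μ, hμ, hinv, hnull, hcoef⟩ := unif S hne
  have hzero : μ.real (Near C₀ (rad P C₀ y)) = 0 := by
    refine hnull _ (measurableSet_near _ _) fun x hx hxN => ?_
    obtain ⟨b, hb1, hb2, hb3⟩ := hxN
    obtain ⟨hd1, hd2⟩ := hS3 x hx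
    set d : ℕ := addOrderOf x with hd
    have hd0 : 0 < d := by omega
    have hbx : b • x ≠ 0 := by
      intro h4
      have h5 := Nat.le_of_dvd (by omega) (addOrderOf_dvd_of_nsmul_eq_zero h4)
      omega
    have hdb : d • (b • x) = 0 := by
      rw [smul_comm, hd, addOrderOf_nsmul_eq_zero, smul_zero]
    have h4 := norm_ge_of_torsion d hd0 (b • x) hdb hbx
    have h5 : 1 / (d : ℝ) ≤ rad P C₀ y := h4.trans hb3
    -- the contrary
    have hd17 : (17 : ℝ) ≤ d := by exact_mod_cast (by omega : 17 ≤ d)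
    have hdpos : (0 : ℝ) < d := by linarith
    have hl1 : Real.exp 1 < Real.log d := by
      have h6 : Real.log 16 ≤ Real.log d := Real.log_le_log (by norm_num) (by linarith)
      have h7 : Real.log 16 = 4 * Real.log 2 := by
        rw [show (16 : ℝ) = 2 ^ 4 by norm_num, Real.log_pow]
        norm_num
      have h8 := Real.log_two_gt_d9
      have h9 := Real.exp_one_lt_d9
      linarith
    have hl1' : 0 < Real.log d := (Real.exp_pos 1).trans hl1
    have hl2 : 1 < Real.log (Real.log d) := by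
      rw [Real.lt_log_iff_exp_lt hl1']
      exact hl1
    have hl3 : 0 < Real.log (Real.log (Real.log d)) := Real.log_pos hl2
    set a : ℝ := ((P ∩ Set.Iic y).ncard : ℝ) with ha
    have h6 : Real.log (Real.log (Real.log d)) < a / C₀ := by
      rw [lt_div_iff₀ hC₀R]
      have h7 : Real.log (Real.log (Real.log d)) * C₀ <
          ((2 * C₀ + 17 : ℕ) : ℝ) * Real.log (Real.log (Real.log d)) := by
        rw [mul_comm]
        refine mul_lt_mul_of_pos_right ?_ hl3
        push_cast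
        linarith
      exact h7.trans_le hd2
    have h7 : Real.log (Real.log d) < Real.exp (a / C₀) :=
      (Real.log_lt_iff_lt_exp (by linarith)).1 h6
    have h8 : Real.log d < Real.exp (Real.exp (a / C₀)) :=
      (Real.log_lt_iff_lt_exp hl1').1 h7
    have h9 : rad P C₀ y < 1 / d := by
      unfold rad
      rw [← ha, Real.exp_neg, ← one_div]
      refine one_div_lt_one_div_of_lt hdpos ?_
      exact (Real.log_lt_iff_lt_exp hdpos).1 h8
    linarith
  have h4 := h3 y μ hμ (fun p hp hpy => hinv p (hS1 p hp hpy) (hS2 p hp hpy)) k hk hkε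
  rw [hzero, mul_zero, add_zero, hcoef, norm_mul, norm_inv, Complex.norm_natCast,
    inv_mul_le_iff₀ hcR] at h4
  linarith

open Classical in
/-- cosets of subgroups of `(ℤ/N)ˣ` containing the primes `p ∈ P`, `p ≤ y`. -/
theorem cosets (P : Set ℕ) (hP : ∀ p ∈ P, p.Prime)
    (h1 : ∀ᶠ y : ℕ in atTop, 1000 * Real.log (Real.log (Real.log y)) ≤
      ((P ∩ Set.Iic y).ncard : ℝ))
    (h2 : ∀ C : ℝ, ∃ᶠ y : ℕ in atTop, C * Real.log y ^ 4 ≤ ((P ∩ Set.Iic y).ncard : ℝ))
    (ε : ℝ) (hε : 0 < ε) :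
    ∃ C : ℕ, 1 ≤ C ∧ ∀ (N y : ℕ) [NeZero N], C ≤ N →
      C * Real.log (Real.log (Real.log N)) ≤ ((P ∩ Set.Iic y).ncard : ℝ) →
      ∀ H : Subgroup (ZMod N)ˣ, (∀ p ∈ P, p ≤ y → ∃ h ∈ H, ((h : (ZMod N)ˣ) : ZMod N) = p) →
      ∀ (a : (ZMod N)ˣ) (k : ℤ), k ≠ 0 → |(k : ℝ)| ≤ 1 / ε →
      ‖∑ h : H, ZMod.stdAddChar ((k : ZMod N) * ((a * h : (ZMod N)ˣ) : ZMod N))‖ ≤
        ε * Nat.card H := by
  classical
  obtain ⟨C, hC, h3⟩ := orbits P hP h1 h2 ε hε
  refine ⟨C, hC, fun N y _ hN hlog H hH a k hk hkε => ?_⟩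
  let g : H → UnitAddCircle := fun h => ZMod.toAddCircle ((a * h : (ZMod N)ˣ) : ZMod N)
  have hg : Function.Injective g := by
    intro h h' hh
    have h4 := ZMod.toAddCircle_injective N hh
    have h5 : (a * h : (ZMod N)ˣ) = a * h' := Units.ext h4
    exact Subtype.ext (mul_left_cancel h5)
  let S : Finset UnitAddCircle := Finset.univ.image g
  have hScard : S.card = Nat.card H := by
    rw [Finset.card_image_of_injective _ hg, Finset.card_univ, Nat.card_eq_fintype_card]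
  have hnsmul : ∀ (p : ℕ) (u : (ZMod N)ˣ) (h : H), ((u : (ZMod N)ˣ) : ZMod N) = p →
      p • g h = ZMod.toAddCircle ((a * (h * u) : (ZMod N)ˣ) : ZMod N) := by
    intro p u h hu
    show p • ZMod.toAddCircle ((a * h : (ZMod N)ˣ) : ZMod N) = _
    rw [← map_nsmul, nsmul_eq_mul, ← hu]
    congr 1
    push_cast
    ring
  have hord : ∀ h : H, addOrderOf (g h) = N := by
    intro h
    have h4 : addOrderOf (g h) = addOrderOf (((a * h : (ZMod N)ˣ) : ZMod N)) :=
      addOrderOf_injective (ZMod.toAddCircle (N := N)) (ZMod.toAddCircle_injective N) _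
    rw [h4]
    set z : (ZMod N)ˣ := a * h with hz
    refine Nat.dvd_antisymm ?_ ?_
    · refine addOrderOf_dvd_of_nsmul_eq_zero ?_
      rw [nsmul_eq_mul, ZMod.natCast_self, zero_mul]
    · have h5 := addOrderOf_nsmul_eq_zero ((z : (ZMod N)ˣ) : ZMod N)
      rw [nsmul_eq_mul] at h5
      have h6 : ((addOrderOf ((z : (ZMod N)ˣ) : ZMod N) : ℕ) : ZMod N) = 0 := by
        calc ((addOrderOf ((z : (ZMod N)ˣ) : ZMod N) : ℕ) : ZMod N)
            = ((addOrderOf ((z : (ZMod N)ˣ) : ZMod N) : ℕ) : ZMod N) *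
              ((z : (ZMod N)ˣ) : ZMod N) * ((z⁻¹ : (ZMod N)ˣ) : ZMod N) := by
              rw [mul_assoc, Units.mul_inv, mul_one]
          _ = 0 := by rw [h5, zero_mul]
      exact (ZMod.natCast_eq_zero_iff _ _).1 h6
  have h4 := h3 y S
    (by
      intro p hp hpy x hx
      obtain ⟨h, _, rfl⟩ := Finset.mem_image.1 hx
      obtain ⟨u, huH, hu⟩ := hH p hp hpy
      rw [hnsmul p u h hu]
      exact Finset.mem_image.2 ⟨h * ⟨u, huH⟩, Finset.mem_univ _, rfl⟩)
    (by
      intro p hp hpy x hx x' hx' hxx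
      obtain ⟨h, _, rfl⟩ := Finset.mem_image.1 (Finset.mem_coe.1 hx)
      obtain ⟨h', _, rfl⟩ := Finset.mem_image.1 (Finset.mem_coe.1 hx')
      obtain ⟨u, huH, hu⟩ := hH p hp hpy
      have h5 : p • g h = p • g h' := hxx
      rw [hnsmul p u h hu, hnsmul p u h' hu] at h5
      have h6 : (a * (h * u) : (ZMod N)ˣ) = a * (h' * u) :=
        Units.ext (ZMod.toAddCircle_injective N h5)
      have h7 : (h : (ZMod N)ˣ) = h' := mul_right_cancel (mul_left_cancel h6)
      rw [Subtype.ext h7])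
    (by
      intro x hx
      obtain ⟨h, _, rfl⟩ := Finset.mem_image.1 hx
      rw [hord h]
      exact ⟨hN, hlog⟩)
    k hk hkε
  rw [hScard, Finset.sum_image (fun x _ x' _ hxx => hg hxx)] at h4
  refine le_trans (le_of_eq ?_) h4
  congr 1
  refine Finset.sum_congr rfl fun h _ => ?_
  show ZMod.stdAddChar _ = (fourier k (ZMod.toAddCircle ((a * h : (ZMod N)ˣ) : ZMod N)) : ℂ)
  obtain ⟨j, hj⟩ := ZMod.intCast_surjective ((a * h : (ZMod N)ˣ) : ZMod N)
  rw [← hj, ZMod.toAddCircle_intCast, fourier_coe_apply, ← Int.cast_mul, ZMod.stdAddChar_coe]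
  congr 1
  push_cast
  ring

/-! ### all primes -/

theorem primes_ncard (n : ℕ) : ({p : ℕ | p.Prime} ∩ Set.Iic n).ncard = Nat.primeCounting n := by
  have h1 : {p : ℕ | p.Prime} ∩ Set.Iic n =
      (((Finset.range (n + 1)).filter Nat.Prime : Finset ℕ) : Set ℕ) := by
    ext p
    simp only [Set.mem_inter_iff, Set.mem_setOf_eq, Set.mem_Iic, Finset.coe_filter,
      Finset.mem_range, Nat.lt_succ_iff]
    exact and_comm
  rw [h1, Set.ncard_coe_finset]
  unfold Nat.primeCounting Nat.primeCounting'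
  rw [Nat.count_eq_card_filter_range]

theorem primes_h2 (C : ℝ) : ∀ᶠ n : ℕ in atTop,
    C * Real.log n ^ 4 ≤ (({p : ℕ | p.Prime} ∩ Set.Iic n).ncard : ℝ) := by
  have hl2 : (0 : ℝ) < Real.log 2 := Real.log_pos (by norm_num)
  have h5 : ∀ᶠ x : ℝ in atTop, ‖Real.log x ^ 5‖ ≤ Real.log 2 / (2 * (|C| + 1)) * ‖x‖ :=
    (Asymptotics.isLittleO_iff.1 (Real.isLittleO_pow_log_id_atTop (n := 5))) (by positivity)
  have h6 : ∀ᶠ x : ℝ in atTop, ‖Real.log x ^ 1‖ ≤ Real.log 2 / 4 * ‖x‖ :=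
    (Asymptotics.isLittleO_iff.1 (Real.isLittleO_pow_log_id_atTop (n := 1))) (by positivity)
  have h5' := tendsto_natCast_atTop_atTop.eventually h5
  have h6' := tendsto_natCast_atTop_atTop.eventually h6
  filter_upwards [h5', h6', eventually_ge_atTop 3] with n g5 g6 hn
  have hn3 : (3 : ℝ) ≤ n := by exact_mod_cast hn
  have hn0 : (0 : ℝ) < n := by linarith
  have hlog : 0 < Real.log n := Real.log_pos (by linarith)
  rw [primes_ncard]
  have h7 := Chebyshev.psi_ge n
  have h8 := Chebyshev.psi_le_primeCounting_mul_log n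
  rw [Real.norm_of_nonneg (by positivity), Real.norm_of_nonneg hn0.le] at g5 g6
  have h9 : Real.log ((n : ℝ) + 1) ≤ 2 * Real.log n := by
    rw [← Real.log_rpow hn0, Real.rpow_two]
    refine Real.log_le_log (by linarith) ?_
    nlinarith
  have h10 : |C| * Real.log n ^ 5 ≤ Real.log 2 / 2 * n := by
    have hC0 : 0 < |C| + 1 := by positivity
    calc |C| * Real.log n ^ 5 ≤ (|C| + 1) * Real.log n ^ 5 := by
          refine mul_le_mul_of_nonneg_right (by linarith) (by positivity)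
      _ ≤ (|C| + 1) * (Real.log 2 / (2 * (|C| + 1)) * n) :=
          mul_le_mul_of_nonneg_left g5 hC0.le
      _ = Real.log 2 / 2 * n := by field_simp
  have h11 : |C| * Real.log n ^ 4 * Real.log n ≤ (Nat.primeCounting n : ℝ) * Real.log n := by
    have h12 : |C| * Real.log n ^ 4 * Real.log n = |C| * Real.log n ^ 5 := by ring
    rw [h12]
    rw [pow_one] at g6
    linarith
  have h12 := le_of_mul_le_mul_right h11 hlog
  exact (mul_le_mul_of_nonneg_right (le_abs_self C) (by positivity)).trans h12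

theorem primes_h1 : ∀ᶠ n : ℕ in atTop, 1000 * Real.log (Real.log (Real.log n)) ≤
    (({p : ℕ | p.Prime} ∩ Set.Iic n).ncard : ℝ) := by
  have h1 : ∀ᶠ n : ℕ in atTop, (10 : ℝ) ≤ Real.log n :=
    (Real.tendsto_log_atTop.comp tendsto_natCast_atTop_atTop).eventually_ge_atTop 10
  filter_upwards [primes_h2 1, h1] with n h2 h3
  refine le_trans ?_ h2
  have h4 : 0 ≤ Real.log (Real.log n) := Real.log_nonneg (by linarith)
  have h5 : Real.log (Real.log (Real.log n)) ≤ Real.log (Real.log n) := Real.log_le_self h4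
  have h6 : Real.log (Real.log n) ≤ Real.log n := Real.log_le_self (by linarith)
  have h7 : (10 : ℝ) ^ 3 ≤ Real.log n ^ 3 := pow_le_pow_left₀ (by norm_num) h3 3
  have h8 : 1000 * Real.log n ≤ Real.log n ^ 3 * Real.log n :=
    mul_le_mul_of_nonneg_right (by linarith) (by linarith)
  have h9 : Real.log n ^ 3 * Real.log n = 1 * Real.log n ^ 4 := by ring
  linarith

open Classical in
/-- the subgroup generated by the first `C log log log N` primes. -/
theorem first_primes (ε : ℝ) (hε : 0 < ε) :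
    ∃ C : ℕ, 1 ≤ C ∧ ∀ (N y : ℕ) [NeZero N], C ≤ N →
      C * Real.log (Real.log (Real.log N)) ≤ (Nat.primeCounting y : ℝ) →
      ∀ H : Subgroup (ZMod N)ˣ,
      (∀ p : ℕ, p.Prime → p ≤ y → ∃ h ∈ H, ((h : (ZMod N)ˣ) : ZMod N) = p) →
      ∀ (a : (ZMod N)ˣ) (k : ℤ), k ≠ 0 → |(k : ℝ)| ≤ 1 / ε →
      ‖∑ h : H, ZMod.stdAddChar ((k : ZMod N) * ((a * h : (ZMod N)ˣ) : ZMod N))‖ ≤
        ε * Nat.card H := by
  obtain ⟨C, hC, h3⟩ := cosets {p : ℕ | p.Prime} (fun p hp => hp) primes_h1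
    (fun C => (primes_h2 C).frequently) ε hε
  refine ⟨C, hC, fun N y _ hN hlog H hH a k hk hkε => ?_⟩
  exact h3 N y hN (by rw [primes_ncard]; exact hlog) H (fun p hp hpy => hH p hp hpy) a k hk hkε

end Furst96.Spz
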