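import Pool.Agent.H.MP_96e181_an.spz.ClassBound
import Pool.Agent.H.MP_96e181_an.spz.CaseB
import Pool.Agent.H.MP_96e181_an.spz.LongRun

/-! # Module Packing: the packing lemma

Assembly.  `L = m log 2`, `ρ = 1/2^m = e^{-L}`, `ρ' = 1/2^(2m)`; `log B ≤ L/9`; `m ≥ 400·300`, since
`∑_U log p ≥ 300 log 2`.  For `v` in the set `S` of the statement take `δ v` from `near_data`
(`ord(bt 0) ≤ B`, `ρ' < ord(bt 0) |δ| ≤ ρ`).  Let `Y = 2^(3s+10) m`, `t_i = ⌈L / log p_i⌉₊`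
(`t_i ≤ m`), `N_i = 2^(2s+9) t_i`.  `S` is covered by
(i)   `{v : ∃ i ∈ U, v_i < Y}`: `boundary`, proportion `≤ 300 s Y / V ≤ 300 s / 2^(2s+8) ≤ 1/2^s`;
(ii)  for `i ∈ U`: `{v ∈ S : fe i 0 = 0, N_i ≤ cc i}`: `long_run` (`2 ρ B < 1`), proportion
      `≤ t_i / (N_i + 1) ≤ 1/2^(2s+9)`, in total `≤ 300 s / 2^(2s+9) ≤ (1/2)/2^s`
      (`300 s ≤ 256 · 2^s`);
(iii) `v` not in (i) with `#spt > s`: `case_b`, proportion `≤ 1/2^s` (`2 ρ B³ < 1`; `w ∈ simp0 p K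
      (2 log B)` has `w_i log 2 ≤ 2 log B ≤ 2 L / 9`, so `w_i ≤ m ≤ Y ≤ v_i` for `i ∈ K ⊆ U`, and
      `w_i = 0` outside `K`);
(iv)  the others, `S₄`: `#spt ≤ s`, `cc i < N_i` for all `i ∈ U \ spt`.  Every `K ⊆ U \ spt`, `#K = s`,
      has `wt (rst K cc) ≤ ∑_{i∈K} N_i log p_i ≤ 2^(2s+9) (s L + ∑_K log p_i) ≤ 2^(3s+9) L`
      (`s + 1 ≤ 2^s`).  Classes `c ∈ range (3s+11)`: class `0` is `wt < L`; class `c ≥ 1` is
      `2^(c-1) L ≤ wt < 2^c L`.  `class_bound` with `k = s`, `q = 17`, `M = 2^c L`, `W = 2^c L / 16`,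
      lower bound `0` (class `0`) or `2^(c-1) L`:
      * `hq`: `simp0_le` since `2^c L / 17 + ∑_K log p ≤ 2^c L / 16` (`∑_U log p ≤ L/400`,
        `1/16 - 1/17 = 1/272`), `simp1_pos`;
      * `hu`: `2 · ρ e^{-m_c} · B e^W < 1` as `log 2 - L - m_c + L/9 + 2^c L/16 < 0`;
      * `hint`: `cc_j + w_j ≤ 2^(2s+9) m + 2^c m / 16 ≤ (2^(2s+9) + 2^(3s+6)) m ≤ 2^(3s+10) m = Y`.
      So `#S₄ · (299 s choose s) ≤ ∑_{v∈S₄} #{K} ≤ (3s+11) 17^s (2s choose s) V^{#ι}`, with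
      `(2s choose s) ≤ 4^s` and `298^s ≤ (299 s choose s)` (`Nat.pow_le_choose`,
      `s! ≤ s^s`).  `(3s+11) (68/298)^s ≤ (3s+11) / 4^s ≤ 7 / 2^s`... (`3s+11 ≤ 7 · 2^s`).
Total `≤ (1 + 1/2 + 1 + 7) / 2^s ≤ 10 / 2^s`. -/

set_option autoImplicit false

open MeasureTheory

namespace Furst96.Spz

open Furst96.Sps

variable {ι : Type*} [Fintype ι] [DecidableEq ι]

/-! ### numeric lemmas -/

private theorem Packing_m {p : ι → ℕ} (hp : ∀ i, 2 ≤ p i) {U : Finset ι} {s m : ℕ}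
    (hU : U.card = 300 * s) (hΛ : 400 * ∑ i ∈ U, Real.log (p i) ≤ m * Real.log 2) :
    120000 * s ≤ m := by
  have h1 : ((300 * s : ℕ) : ℝ) * Real.log 2 ≤ ∑ i ∈ U, Real.log (p i) := by
    rw [← hU, ← nsmul_eq_mul]
    exact Finset.card_nsmul_le_sum _ _ _ fun i _ => log_two_le hp i
  have h2 : (0 : ℝ) < Real.log 2 := Real.log_pos (by norm_num)
  have h3 : ((120000 * s : ℕ) : ℝ) * Real.log 2 ≤ m * Real.log 2 := by
    push_cast at h1 ⊢
    linarith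
  exact_mod_cast le_of_mul_le_mul_right h3 h2

private theorem Packing_exp (m : ℕ) : (1 / 2 ^ m : ℝ) = Real.exp (-(m * Real.log 2)) := by
  rw [Real.exp_neg, Real.exp_nat_mul, Real.exp_log two_pos, one_div]

private theorem Packing_logB {B m : ℕ} (hB1 : 1 ≤ B) (hB : B ^ 9 ≤ 2 ^ m) :
    0 ≤ Real.log B ∧ 9 * Real.log B ≤ m * Real.log 2 := by
  refine ⟨Real.log_nonneg (by exact_mod_cast hB1), ?_⟩
  have h0 : (0 : ℝ) < B := by exact_mod_cast hB1
  have h : (B : ℝ) ^ 9 ≤ 2 ^ m := by exact_mod_cast hB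
  have h2 := Real.log_le_log (by positivity) h
  rw [Real.log_pow, Real.log_pow] at h2
  exact_mod_cast h2

private theorem Packing_lt {B m : ℕ} (hB1 : 1 ≤ B) (a : ℝ)
    (h : Real.log 2 + Real.log B + a < m * Real.log 2) :
    2 * (1 / 2 ^ m : ℝ) * (B * Real.exp a) < 1 := by
  have hB0 : (0 : ℝ) < B := by exact_mod_cast hB1
  have e : 2 * (1 / 2 ^ m : ℝ) * (B * Real.exp a) =
      Real.exp (Real.log 2 + -(m * Real.log 2) + (Real.log B + a)) := by
    rw [Real.exp_add, Real.exp_add, Real.exp_add, Real.exp_log two_pos, Real.exp_log hB0,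
      Packing_exp]
  rw [e, Real.exp_lt_one_iff]
  linarith

private theorem Packing_two (s : ℕ) : 300 * s ≤ 256 * 2 ^ s ∧ 3 * s + 11 ≤ 7 * 2 ^ s + 0 ^ s * 4 ∧
    s + 1 ≤ 2 ^ s := by
  induction s with
  | zero => norm_num
  | succ k ih =>
    obtain ⟨h1, h2, h3⟩ := ih
    rw [pow_succ, pow_succ 0]
    have h4 : 1 ≤ 2 ^ k := Nat.one_le_two_pow
    rcases Nat.eq_zero_or_pos k with rfl | hk
    · norm_num
    · rw [zero_pow hk.ne'] at h2
      refine ⟨?_, ?_, ?_⟩ <;> omega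

private theorem Packing_ceil {p : ι → ℕ} (hp : ∀ i, 2 ≤ p i) (m : ℕ) (i : ι) :
    ⌈(m * Real.log 2) / Real.log (p i)⌉₊ ≤ m ∧
      (⌈(m * Real.log 2) / Real.log (p i)⌉₊ : ℝ) * Real.log (p i) ≤
        m * Real.log 2 + Real.log (p i) ∧
      (m : ℝ) * Real.log 2 ≤ (⌈(m * Real.log 2) / Real.log (p i)⌉₊ : ℝ) * Real.log (p i) ∧
      (0 < m → 0 < ⌈(m * Real.log 2) / Real.log (p i)⌉₊) := by
  have h2 : (0 : ℝ) < Real.log 2 := Real.log_pos (by norm_num)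
  have hl := log_pos' hp i
  have hll := log_two_le hp i
  have h0 : (0 : ℝ) ≤ (m * Real.log 2) / Real.log (p i) := by positivity
  refine ⟨?_, ?_, ?_, fun hm => ?_⟩
  · refine Nat.ceil_le.2 ?_
    rw [div_le_iff₀ hl]
    exact mul_le_mul_of_nonneg_left hll (Nat.cast_nonneg _)
  · have h3 := (Nat.ceil_lt_add_one h0).le
    have h4 := mul_le_mul_of_nonneg_right h3 hl.le
    rw [add_mul, div_mul_cancel₀ _ hl.ne', one_mul] at h4
    exact h4
  · have h3 := Nat.le_ceil ((m * Real.log 2) / Real.log (p i))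
    rwa [div_le_iff₀ hl] at h3
  · refine Nat.ceil_pos.2 ?_
    have : (0 : ℝ) < m := by exact_mod_cast hm
    positivity

/-! ### (i) the boundary -/

private theorem Packing_i (s m V : ℕ) (hm : 0 < m) (U : Finset ι) (hU : U.card = 300 * s)
    (hV : 2 ^ (5 * s + 18) * m ≤ V) :
    ((box ι V).filter fun v => ∃ i ∈ U, v i < 2 ^ (3 * s + 10) * m).card * 2 ^ s ≤
      V ^ Fintype.card ι := by
  have h1 := boundary V (2 ^ (3 * s + 10) * m) U
  have hV0 : 0 < V := lt_of_lt_of_le (by positivity) hV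
  obtain ⟨A, hA⟩ : ∃ A, A = ((box ι V).filter fun v => ∃ i ∈ U, v i < 2 ^ (3 * s + 10) * m).card :=
    ⟨_, rfl⟩
  rw [← hA] at h1 ⊢
  obtain ⟨Q, hQ⟩ : ∃ Q, Q = V ^ Fintype.card ι := ⟨_, rfl⟩
  rw [← hQ] at h1 ⊢
  refine Nat.le_of_mul_le_mul_right ?_ hV0
  calc A * 2 ^ s * V = A * V * 2 ^ s := by ring
    _ ≤ U.card * (2 ^ (3 * s + 10) * m) * Q * 2 ^ s := Nat.mul_le_mul_right _ h1
    _ = (300 * s) * (2 ^ (4 * s + 10) * m * Q) := by
        rw [hU]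
        ring
    _ ≤ (256 * 2 ^ s) * (2 ^ (4 * s + 10) * m * Q) := Nat.mul_le_mul_right _ (Packing_two s).1
    _ = (2 ^ (5 * s + 18) * m) * Q := by ring
    _ ≤ V * Q := Nat.mul_le_mul_right _ hV
    _ = Q * V := mul_comm _ _

/-! ### (ii) the long runs -/

private theorem Packing_ii (p : ι → ℕ) (hp : ∀ i, (p i).Prime) (hinj : Function.Injective p)
    (x : UnitAddCircle) (s m B V : ℕ) (hm : 100 ≤ m) (hB1 : 1 ≤ B) (hB : B ^ 9 ≤ 2 ^ m)
    (S : Finset (ι → ℕ)) (hS : S ⊆ box ι V) (δ : (ι → ℕ) → ℝ)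
    (hd : ∀ v ∈ S, 0 < addOrderOf (bt p x v (δ v) 0) ∧ addOrderOf (bt p x v (δ v) 0) ≤ B ∧
      (addOrderOf (bt p x v (δ v) 0) : ℝ) * |δ v| ≤ 1 / 2 ^ m ∧
      1 / 2 ^ (2 * m) < (addOrderOf (bt p x v (δ v) 0) : ℝ) * |δ v|) (i : ι)
    (hfe : ∀ v ∈ S, fe p x v (δ v) i 0 = 0)
    (hcc : ∀ v ∈ S, 2 ^ (2 * s + 9) * ⌈(m * Real.log 2) / Real.log (p i)⌉₊ ≤ cc p x v (δ v) i) :
    S.card * 2 ^ (2 * s + 9) ≤ V ^ Fintype.card ι := by
  have hp2 : ∀ i, 2 ≤ p i := fun i => (hp i).two_le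
  obtain ⟨-, -, hc3, hc4⟩ := Packing_ceil hp2 m i
  obtain ⟨t, ht⟩ : ∃ t, t = ⌈(m * Real.log 2) / Real.log (p i)⌉₊ := ⟨_, rfl⟩
  rw [← ht] at hc3 hc4 hcc
  obtain ⟨hβ0, hβ⟩ := Packing_logB hB1 hB
  have h2 : (0 : ℝ) < Real.log 2 := Real.log_pos (by norm_num)
  have hm' : (100 : ℝ) ≤ m := by exact_mod_cast hm
  have hmL : 100 * Real.log 2 ≤ m * Real.log 2 := mul_le_mul_of_nonneg_right hm' h2.le
  have hr : (1 / 2 ^ m : ℝ) < 1 / 2 := by
    refine one_div_lt_one_div_of_lt two_pos ?_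
    calc (2 : ℝ) < 2 ^ 2 := by norm_num
      _ ≤ 2 ^ m := pow_le_pow_right₀ (by norm_num) (by omega)
  have hlog : Real.log ((1 / 2 ^ m : ℝ) / (1 / 2 ^ (2 * m))) ≤ t * Real.log (p i) := by
    have e : ((1 / 2 ^ m : ℝ) / (1 / 2 ^ (2 * m))) = 2 ^ m := by
      rw [two_mul, pow_add]
      field_simp
    rw [e, Real.log_pow]
    exact hc3
  have hu : 2 * (1 / 2 ^ m : ℝ) * B < 1 := by
    have h3 := Packing_lt (m := m) hB1 0 (by linarith)
    rwa [Real.exp_zero, mul_one] at h3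
  have h4 := long_run p hp hinj x V B t (2 ^ (2 * s + 9) * t) i (1 / 2 ^ m) (1 / 2 ^ (2 * m))
    (by positivity) hr hlog S hS δ hd hfe hcc hu
  have ht0 : 0 < t := hc4 (by omega)
  refine Nat.le_of_mul_le_mul_left ?_ ht0
  calc t * (S.card * 2 ^ (2 * s + 9)) = S.card * (2 ^ (2 * s + 9) * t) := by ring
    _ ≤ S.card * (2 ^ (2 * s + 9) * t + 1) := Nat.mul_le_mul_left _ (Nat.le_succ _)
    _ ≤ t * V ^ Fintype.card ι := h4

/-! ### (iii) many prime factors -/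

private theorem Packing_coord {p : ι → ℕ} (hp : ∀ i, 2 ≤ p i) (w : ι → ℕ) (m : ℕ) (b : ℝ)
    (h : wt p w ≤ b * (m * Real.log 2)) (i : ι) : (w i : ℝ) ≤ b * m := by
  have h2 : (0 : ℝ) < Real.log 2 := Real.log_pos (by norm_num)
  have h1 := le_wt hp w i
  have h3 := mul_le_mul_of_nonneg_left (log_two_le hp i) (Nat.cast_nonneg (w i))
  refine le_of_mul_le_mul_right ?_ h2
  linarith

private theorem Packing_iii (p : ι → ℕ) (hp : ∀ i, (p i).Prime) (hinj : Function.Injective p)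
    (x : UnitAddCircle) (U : Finset ι) (s m B V : ℕ) (hm : 100 ≤ m) (hB1 : 1 ≤ B)
    (hB : B ^ 9 ≤ 2 ^ m)
    (S : Finset (ι → ℕ)) (hS : S ⊆ box ι V) (δ : (ι → ℕ) → ℝ)
    (hd : ∀ v ∈ S, 0 < addOrderOf (bt p x v (δ v) 0) ∧ addOrderOf (bt p x v (δ v) 0) ≤ B ∧
      (addOrderOf (bt p x v (δ v) 0) : ℝ) * |δ v| ≤ 1 / 2 ^ m)
    (hspt : ∀ v ∈ S, s < (spt p x v (δ v) U).card)
    (hY : ∀ v ∈ S, ∀ i ∈ U, m ≤ v i) :
    S.card * 2 ^ s ≤ V ^ Fintype.card ι := by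
  have hp2 : ∀ i, 2 ≤ p i := fun i => (hp i).two_le
  obtain ⟨hβ0, hβ⟩ := Packing_logB hB1 hB
  have h2 : (0 : ℝ) < Real.log 2 := Real.log_pos (by norm_num)
  have hm' : (100 : ℝ) ≤ m := by exact_mod_cast hm
  have hmL : 100 * Real.log 2 ≤ m * Real.log 2 := mul_le_mul_of_nonneg_right hm' h2.le
  refine case_b p hp hinj x V s B hB1 U (1 / 2 ^ m) (by positivity) S hS δ hd hspt ?_ ?_
  · intro v hv w hw i
    obtain ⟨hw0, hw1⟩ := (mem_simp0 hp2).1 hw
    by_cases hi : i ∈ spt p x v (δ v) U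
    · have hiU : i ∈ U := (Finset.mem_filter.1 hi).1
      have h3 : (w i : ℝ) ≤ 1 * m := Packing_coord hp2 w m 1 (by linarith) i
      rw [one_mul] at h3
      have h4 : w i ≤ m := by exact_mod_cast h3
      exact h4.trans (hY v hv i hiU)
    · rw [hw0 i hi]
      exact Nat.zero_le _
  · exact Packing_lt hB1 _ (by linarith)

/-! ### (iv) the classes -/

private theorem Packing_wt {p : ι → ℕ} (hp : ∀ i, 2 ≤ p i) {U K : Finset ι} {s m : ℕ}
    (hKU : K ⊆ U) (hK : K.card = s)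
    (hΛ : 400 * ∑ i ∈ U, Real.log (p i) ≤ m * Real.log 2) {c : ι → ℕ}
    (hc : ∀ i ∈ K, c i ≤ 2 ^ (2 * s + 9) * ⌈(m * Real.log 2) / Real.log (p i)⌉₊) :
    wt p (rst K c) ≤ 2 ^ (3 * s + 9) * (m * Real.log 2) := by
  have h2 : (0 : ℝ) < Real.log 2 := Real.log_pos (by norm_num)
  obtain ⟨L, hL⟩ : ∃ L : ℝ, L = m * Real.log 2 := ⟨_, rfl⟩
  have hL0 : 0 ≤ L := by
    rw [hL]
    positivity
  have hsum : ∑ i ∈ K, Real.log (p i) ≤ L := by
    have h3 : ∑ i ∈ K, Real.log (p i) ≤ ∑ i ∈ U, Real.log (p i) :=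
      Finset.sum_le_sum_of_subset_of_nonneg hKU fun i _ _ => (log_pos' hp i).le
    have h4 : 0 ≤ ∑ i ∈ U, Real.log (p i) := Finset.sum_nonneg fun i _ => (log_pos' hp i).le
    rw [hL]
    linarith
  have hterm : ∀ i ∈ K, (c i : ℝ) * Real.log (p i) ≤ 2 ^ (2 * s + 9) * (L + Real.log (p i)) := by
    intro i hi
    have h3 : (c i : ℝ) ≤ 2 ^ (2 * s + 9) * (⌈(m * Real.log 2) / Real.log (p i)⌉₊ : ℝ) := by
      exact_mod_cast hc i hi
    have h4 := mul_le_mul_of_nonneg_right h3 (log_pos' hp i).le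
    refine h4.trans ?_
    rw [mul_assoc]
    refine mul_le_mul_of_nonneg_left ?_ (by positivity)
    rw [hL]
    exact (Packing_ceil hp m i).2.1
  rw [wt_rst, ← hL]
  refine (Finset.sum_le_sum hterm).trans ?_
  rw [← Finset.mul_sum, Finset.sum_add_distrib, Finset.sum_const, hK, nsmul_eq_mul]
  have h5 : (s : ℝ) + 1 ≤ 2 ^ s := by exact_mod_cast (Packing_two s).2.2
  have h6 := mul_le_mul_of_nonneg_right h5 hL0
  have h7 : (2 : ℝ) ^ (3 * s + 9) * L = 2 ^ (2 * s + 9) * (2 ^ s * L) := by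
    rw [← mul_assoc, ← pow_add]
    congr 2
    ring
  rw [h7]
  refine mul_le_mul_of_nonneg_left ?_ (by positivity)
  linarith

private theorem Packing_class (p : ι → ℕ) (hp : ∀ i, (p i).Prime) (hinj : Function.Injective p)
    (x : UnitAddCircle) (U : Finset ι) (s m B V : ℕ) (hs : 1 ≤ s) (hm : 100 ≤ m)
    (hΛ : 400 * ∑ i ∈ U, Real.log (p i) ≤ m * Real.log 2) (hB1 : 1 ≤ B) (hB : B ^ 9 ≤ 2 ^ m)
    (S : Finset (ι → ℕ)) (hS : S ⊆ box ι V) (δ : (ι → ℕ) → ℝ)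
    (hd : ∀ v ∈ S, 0 < addOrderOf (bt p x v (δ v) 0) ∧ addOrderOf (bt p x v (δ v) 0) ≤ B ∧
      (addOrderOf (bt p x v (δ v) 0) : ℝ) * |δ v| ≤ 1 / 2 ^ m)
    (hspt : ∀ v ∈ S, (spt p x v (δ v) U).card ≤ s)
    (hY : ∀ v ∈ S, ∀ i ∈ U, 2 ^ (3 * s + 10) * m ≤ v i)
    (hcc : ∀ v ∈ S, ∀ i ∈ U, i ∉ spt p x v (δ v) U → cc p x v (δ v) i ≤ 2 ^ (2 * s + 9) * m)
    (c : ℕ) (hc : c < 3 * s + 11) (Kc : (ι → ℕ) → Finset (Finset ι))
    (hK : ∀ v ∈ S, ∀ K ∈ Kc v, K ⊆ U ∧ K.card = s ∧ Disjoint K (spt p x v (δ v) U) ∧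
      (if c = 0 then 0 else 2 ^ (c - 1) * (m * Real.log 2)) ≤ wt p (rst K (cc p x v (δ v))) ∧
      wt p (rst K (cc p x v (δ v))) ≤ 2 ^ c * (m * Real.log 2)) :
    ∑ v ∈ S, (Kc v).card ≤ 17 ^ s * (s + s).choose s * V ^ Fintype.card ι := by
  have hp2 : ∀ i, 2 ≤ p i := fun i => (hp i).two_le
  obtain ⟨hβ0, hβ⟩ := Packing_logB hB1 hB
  have h2 : (0 : ℝ) < Real.log 2 := Real.log_pos (by norm_num)
  have hm' : (100 : ℝ) ≤ m := by exact_mod_cast hm
  have hmL : 100 * Real.log 2 ≤ m * Real.log 2 := mul_le_mul_of_nonneg_right hm' h2.le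
  have hL0 : 0 < (m : ℝ) * Real.log 2 := by linarith
  have hc1 : (1 : ℝ) ≤ 2 ^ c := one_le_pow₀ (by norm_num)
  have hcL : (m : ℝ) * Real.log 2 ≤ 2 ^ c * (m * Real.log 2) := le_mul_of_one_le_left hL0.le hc1
  refine class_bound p hp hinj x V s s 17 B U (1 / 2 ^ m)
    (if c = 0 then 0 else 2 ^ (c - 1) * (m * Real.log 2)) (2 ^ c * (m * Real.log 2))
    (2 ^ c * (m * Real.log 2) / 16) (by positivity) S hS δ hd hspt Kc hK ?_ ?_ ?_
  · intro v hv K hKv w hw i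
    obtain ⟨hKU, -, hKd, -, -⟩ := hK v hv K hKv
    obtain ⟨hw0, -, hw1⟩ := (mem_simp1 hp2).1 hw
    by_cases hi : i ∈ K
    · have hi' : i ∉ spt p x v (δ v) U := Finset.disjoint_left.1 hKd hi
      have h3 : (w i : ℝ) ≤ 2 ^ c / 16 * m :=
        Packing_coord hp2 w m (2 ^ c / 16) (by linarith) i
      have h4 : (2 : ℝ) ^ c ≤ 2 ^ (3 * s + 10) := pow_le_pow_right₀ (by norm_num) (by omega)
      have h5 : (2 : ℝ) ^ (3 * s + 10) = 16 * 2 ^ (3 * s + 6) := by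
        rw [show 3 * s + 10 = 3 * s + 6 + 4 by ring, pow_add]
        norm_num
        ring
      have h6 : (w i : ℝ) ≤ 2 ^ (3 * s + 6) * m := by
        refine h3.trans (mul_le_mul_of_nonneg_right ?_ (Nat.cast_nonneg _))
        linarith
      have h7 : w i ≤ 2 ^ (3 * s + 6) * m := by exact_mod_cast h6
      have h8 := hcc v hv i (hKU hi) hi'
      have h9 : 2 ^ (2 * s + 9) ≤ 2 ^ (3 * s + 9) := Nat.pow_le_pow_right (by norm_num) (by omega)
      have h10 : 2 ^ (3 * s + 6) ≤ 2 ^ (3 * s + 9) := Nat.pow_le_pow_right (by norm_num) (by omega)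
      have h11 : 2 ^ (3 * s + 10) = 2 ^ (3 * s + 9) + 2 ^ (3 * s + 9) := by
        rw [pow_succ]
        ring
      have h12 : 2 ^ (2 * s + 9) * m ≤ 2 ^ (3 * s + 9) * m := Nat.mul_le_mul_right _ h9
      have h13 : 2 ^ (3 * s + 6) * m ≤ 2 ^ (3 * s + 9) * m := Nat.mul_le_mul_right _ h10
      have h14 := hY v hv i (hKU hi)
      rw [h11, add_mul] at h14
      have h15 : rst K (cc p x v (δ v)) i = cc p x v (δ v) i := if_pos hi
      have h16 : rst K (cc p x v (δ v)) i + w i ≤ v i := by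
        rw [h15]
        omega
      exact h16
    · have h15 : rst K (cc p x v (δ v)) i = 0 := if_neg hi
      have h16 : rst K (cc p x v (δ v)) i + w i ≤ v i := by
        rw [h15, hw0 i hi]
        exact Nat.zero_le _
      exact h16
  · have h3 : Real.log 2 + Real.log B + (2 ^ c * (m * Real.log 2) / 16 -
        (if c = 0 then 0 else 2 ^ (c - 1) * (m * Real.log 2))) < m * Real.log 2 := by
      rcases Nat.eq_zero_or_pos c with rfl | hc0
      · rw [if_pos rfl, pow_zero]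
        linarith
      · rw [if_neg hc0.ne']
        have h4 : (2 : ℝ) ^ c * (m * Real.log 2) = 2 * (2 ^ (c - 1) * (m * Real.log 2)) := by
          obtain ⟨k, rfl⟩ : ∃ k, c = k + 1 := ⟨c - 1, by omega⟩
          rw [Nat.add_sub_cancel, pow_succ]
          ring
        have h5 : (0 : ℝ) < 2 ^ (c - 1) * (m * Real.log 2) := by positivity
        rw [h4]
        linarith
    have h4 := Packing_lt hB1 _ h3
    rw [sub_eq_add_neg, Real.exp_add] at h4
    refine lt_of_eq_of_lt ?_ h4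
    ring
  · intro K hKU hKc
    have hsum : 400 * ∑ i ∈ K, Real.log (p i) ≤ m * Real.log 2 := by
      have h3 : ∑ i ∈ K, Real.log (p i) ≤ ∑ i ∈ U, Real.log (p i) :=
        Finset.sum_le_sum_of_subset_of_nonneg hKU fun i _ _ => (log_pos' hp2 i).le
      linarith
    constructor
    · have h3 := simp0_le p hp2 K 17 (by norm_num) (2 ^ c * (m * Real.log 2))
        (2 ^ c * (m * Real.log 2) / 16) (by push_cast; linarith)
      rwa [hKc] at h3
    · exact simp1_pos p hp2 K _ (by linarith)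

private theorem Packing_iv (p : ι → ℕ) (hp : ∀ i, (p i).Prime) (hinj : Function.Injective p)
    (x : UnitAddCircle) (U : Finset ι) (s m B V : ℕ) (hs : 1 ≤ s) (hm : 100 ≤ m)
    (hU : U.card = 300 * s)
    (hΛ : 400 * ∑ i ∈ U, Real.log (p i) ≤ m * Real.log 2) (hB1 : 1 ≤ B) (hB : B ^ 9 ≤ 2 ^ m)
    (S : Finset (ι → ℕ)) (hS : S ⊆ box ι V) (δ : (ι → ℕ) → ℝ)
    (hd : ∀ v ∈ S, 0 < addOrderOf (bt p x v (δ v) 0) ∧ addOrderOf (bt p x v (δ v) 0) ≤ B ∧
      (addOrderOf (bt p x v (δ v) 0) : ℝ) * |δ v| ≤ 1 / 2 ^ m)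
    (hspt : ∀ v ∈ S, (spt p x v (δ v) U).card ≤ s)
    (hY : ∀ v ∈ S, ∀ i ∈ U, 2 ^ (3 * s + 10) * m ≤ v i)
    (hcc : ∀ v ∈ S, ∀ i ∈ U, i ∉ spt p x v (δ v) U →
      cc p x v (δ v) i ≤ 2 ^ (2 * s + 9) * ⌈(m * Real.log 2) / Real.log (p i)⌉₊) :
    S.card * (299 * s).choose s ≤
      (3 * s + 11) * (17 ^ s * (s + s).choose s * V ^ Fintype.card ι) := by
  classical
  have hp2 : ∀ i, 2 ≤ p i := fun i => (hp i).two_le
  obtain ⟨Kc, hKc⟩ : ∃ Kc : ℕ → (ι → ℕ) → Finset (Finset ι), Kc = fun c v =>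
      (Finset.powersetCard s (U \ spt p x v (δ v) U)).filter fun K =>
        (if c = 0 then 0 else 2 ^ (c - 1) * (m * Real.log 2)) ≤ wt p (rst K (cc p x v (δ v))) ∧
        wt p (rst K (cc p x v (δ v))) ≤ 2 ^ c * (m * Real.log 2) := ⟨_, rfl⟩
  have hsub : ∀ v, ∀ K ∈ Finset.powersetCard s (U \ spt p x v (δ v) U),
      K ⊆ U ∧ K.card = s ∧ Disjoint K (spt p x v (δ v) U) := by
    intro v K hK
    obtain ⟨h1, h2⟩ := Finset.mem_powersetCard.1 hK
    exact ⟨h1.trans Finset.sdiff_subset, h2,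
      Finset.disjoint_of_subset_left h1 Finset.sdiff_disjoint⟩
  have hclass : ∀ c ∈ Finset.range (3 * s + 11), ∑ v ∈ S, (Kc c v).card ≤
      17 ^ s * (s + s).choose s * V ^ Fintype.card ι := by
    intro c hc
    refine Packing_class p hp hinj x U s m B V hs hm hΛ hB1 hB S hS δ hd hspt hY ?_ c
      (Finset.mem_range.1 hc) (Kc c) ?_
    · intro v hv i hi hi'
      exact (hcc v hv i hi hi').trans (Nat.mul_le_mul_left _ (Packing_ceil hp2 m i).1)
    · intro v hv K hK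
      rw [hKc] at hK
      obtain ⟨h1, h2⟩ := Finset.mem_filter.1 hK
      obtain ⟨h3, h4, h5⟩ := hsub v K h1
      exact ⟨h3, h4, h5, h2.1, h2.2⟩
  have hcov : ∀ v ∈ S, (299 * s).choose s ≤ ∑ c ∈ Finset.range (3 * s + 11), (Kc c v).card := by
    intro v hv
    have h1 : (299 * s).choose s ≤ (Finset.powersetCard s (U \ spt p x v (δ v) U)).card := by
      rw [Finset.card_powersetCard]
      refine Nat.choose_le_choose _ ?_
      have h2 := Finset.le_card_sdiff (spt p x v (δ v) U) U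
      have h3 := hspt v hv
      omega
    refine h1.trans ((Finset.card_le_card ?_).trans Finset.card_biUnion_le)
    intro K hK
    obtain ⟨h3, h4, h5⟩ := hsub v K hK
    have hw : wt p (rst K (cc p x v (δ v))) ≤ 2 ^ (3 * s + 9) * (m * Real.log 2) :=
      Packing_wt hp2 h3 h4 hΛ fun i hi =>
        hcc v hv i (h3 hi) (Finset.disjoint_left.1 h5 hi)
    have hex : ∃ c : ℕ, wt p (rst K (cc p x v (δ v))) ≤ 2 ^ c * (m * Real.log 2) := ⟨_, hw⟩
    rw [Finset.mem_biUnion]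
    refine ⟨Nat.find hex, ?_, ?_⟩
    · rw [Finset.mem_range]
      have := Nat.find_min' hex hw
      omega
    · rw [hKc]
      refine Finset.mem_filter.2 ⟨hK, ?_, Nat.find_spec hex⟩
      split_ifs with h0
      · exact wt_nonneg hp2 _
      · have h6 := Nat.find_min hex (m := Nat.find hex - 1) (by omega)
        exact (not_le.1 h6).le
  calc S.card * (299 * s).choose s = ∑ v ∈ S, (299 * s).choose s := by
        rw [Finset.sum_const, smul_eq_mul]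
    _ ≤ ∑ v ∈ S, ∑ c ∈ Finset.range (3 * s + 11), (Kc c v).card := Finset.sum_le_sum hcov
    _ = ∑ c ∈ Finset.range (3 * s + 11), ∑ v ∈ S, (Kc c v).card := Finset.sum_comm
    _ ≤ ∑ c ∈ Finset.range (3 * s + 11), 17 ^ s * (s + s).choose s * V ^ Fintype.card ι :=
        Finset.sum_le_sum hclass
    _ = (3 * s + 11) * (17 ^ s * (s + s).choose s * V ^ Fintype.card ι) := by
        rw [Finset.sum_const, Finset.card_range, smul_eq_mul]

private theorem Packing_choose (s : ℕ) : 298 ^ s ≤ (299 * s).choose s ∧ (s + s).choose s ≤ 4 ^ s := by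
  constructor
  · have h1 := Nat.pow_succ_le_ascFactorial (298 * s + 1) s
    have h2 := Nat.ascFactorial_eq_factorial_mul_choose (298 * s) s
    rw [show 298 * s + s = 299 * s by ring] at h2
    have h3 : s.factorial ≤ s ^ s := Nat.factorial_le_pow s
    refine Nat.le_of_mul_le_mul_left ?_ (Nat.factorial_pos s)
    rw [← h2]
    refine le_trans ?_ h1
    calc s.factorial * 298 ^ s ≤ s ^ s * 298 ^ s := Nat.mul_le_mul_right _ h3
      _ = (298 * s) ^ s := by rw [← mul_pow, mul_comm s 298]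
      _ ≤ (298 * s + 1) ^ s := Nat.pow_le_pow_left (Nat.le_succ _) _
  · have h1 := Nat.choose_le_two_pow (s + s) s
    rw [← two_mul, pow_mul] at h1
    rw [← two_mul]
    exact h1

private theorem Packing_num {A s Q : ℕ} (hs : 1 ≤ s)
    (h : A * (299 * s).choose s ≤ (3 * s + 11) * (17 ^ s * (s + s).choose s * Q)) :
    A * 2 ^ s ≤ 7 * Q := by
  obtain ⟨h1, h2⟩ := Packing_choose s
  have h3 : 3 * s + 11 ≤ 7 * 2 ^ s := by
    have := (Packing_two s).2.1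
    rw [zero_pow (by omega), zero_mul, add_zero] at this
    exact this
  refine Nat.le_of_mul_le_mul_left ?_ (pow_pos (by norm_num : 0 < 136) s)
  calc 136 ^ s * (A * 2 ^ s) = A * 272 ^ s := by
        rw [show 272 = 136 * 2 by norm_num, mul_pow]
        ring
    _ ≤ A * 298 ^ s := Nat.mul_le_mul_left _ (Nat.pow_le_pow_left (by norm_num) _)
    _ ≤ A * (299 * s).choose s := Nat.mul_le_mul_left _ h1
    _ ≤ (3 * s + 11) * (17 ^ s * (s + s).choose s * Q) := h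
    _ ≤ (7 * 2 ^ s) * (17 ^ s * 4 ^ s * Q) :=
        Nat.mul_le_mul h3 (Nat.mul_le_mul_right _ (Nat.mul_le_mul_left _ h2))
    _ = 136 ^ s * (7 * Q) := by
        rw [show 136 = 2 * 17 * 4 by norm_num, mul_pow, mul_pow]
        ring

open Classical in
/-- **Packing lemma.** Among the points `g_v x`, `v ∈ [0, V)^ι`, at most a proportion `10 / 2^s` is
within `2^{-m}` but not within `2^{-2m}` of a point of order `≤ B` (in the sense of `Near`), if there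
are `300 s` primes `p_i`, `i ∈ U`, of total logarithm at most `m log 2 / 400`, and `B^9 ≤ 2^m`. -/
theorem packing (p : ι → ℕ) (hp : ∀ i, (p i).Prime) (hinj : Function.Injective p)
    (x : UnitAddCircle) (U : Finset ι) (s m B V : ℕ) (hs : 1 ≤ s) (hU : U.card = 300 * s)
    (hΛ : 400 * ∑ i ∈ U, Real.log (p i) ≤ m * Real.log 2) (hB1 : 1 ≤ B) (hB : B ^ 9 ≤ 2 ^ m)
    (hV : 2 ^ (5 * s + 18) * m ≤ V) :
    (((box ι V).filter fun v => gg p v • x ∈ Near B (1 / 2 ^ m) ∧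
      gg p v • x ∉ Near B (1 / 2 ^ (2 * m))).card : ℝ) ≤
      10 / 2 ^ s * (V : ℝ) ^ Fintype.card ι := by
  have hp2 : ∀ i, 2 ≤ p i := fun i => (hp i).two_le
  have hm0 : 120000 * s ≤ m := Packing_m hp2 hU hΛ
  have hm : 100 ≤ m := by omega
  have hr : (1 / 2 ^ m : ℝ) < 1 / 2 := by
    refine one_div_lt_one_div_of_lt two_pos ?_
    calc (2 : ℝ) < 2 ^ 2 := by norm_num
      _ ≤ 2 ^ m := pow_le_pow_right₀ (by norm_num) (by omega)
  obtain ⟨S, hSdef⟩ : ∃ S, S = (box ι V).filter fun v => gg p v • x ∈ Near B (1 / 2 ^ m) ∧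
      gg p v • x ∉ Near B (1 / 2 ^ (2 * m)) := ⟨_, rfl⟩
  rw [← hSdef]
  have hSbox : S ⊆ box ι V := by
    rw [hSdef]
    exact Finset.filter_subset _ _
  have hex : ∀ v : ι → ℕ, ∃ δ : ℝ, v ∈ S → (0 < addOrderOf (bt p x v δ 0) ∧
      addOrderOf (bt p x v δ 0) ≤ B ∧ (addOrderOf (bt p x v δ 0) : ℝ) * |δ| ≤ 1 / 2 ^ m ∧
      1 / 2 ^ (2 * m) < (addOrderOf (bt p x v δ 0) : ℝ) * |δ|) := by
    intro v
    by_cases hv : v ∈ S
    · rw [hSdef, Finset.mem_filter] at hv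
      obtain ⟨δ, h1, h2, h3, h4⟩ := near_data p x v B _ hr hv.2.1
      exact ⟨δ, fun _ => ⟨h1, h2, h3, h4 _ hv.2.2⟩⟩
    · exact ⟨0, fun h => absurd h hv⟩
  choose δ hδ using hex
  obtain ⟨S1, hS1⟩ : ∃ S1, S1 = (box ι V).filter fun v => ∃ i ∈ U, v i < 2 ^ (3 * s + 10) * m :=
    ⟨_, rfl⟩
  obtain ⟨S2, hS2⟩ : ∃ S2 : ι → Finset (ι → ℕ), S2 = fun i => S.filter fun v =>
    fe p x v (δ v) i 0 = 0 ∧
      2 ^ (2 * s + 9) * ⌈(m * Real.log 2) / Real.log (p i)⌉₊ ≤ cc p x v (δ v) i := ⟨_, rfl⟩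
  obtain ⟨S3, hS3⟩ : ∃ S3, S3 = S.filter fun v => (∀ i ∈ U, 2 ^ (3 * s + 10) * m ≤ v i) ∧
    s < (spt p x v (δ v) U).card := ⟨_, rfl⟩
  obtain ⟨S4, hS4⟩ : ∃ S4, S4 = S.filter fun v => (∀ i ∈ U, 2 ^ (3 * s + 10) * m ≤ v i) ∧
    (spt p x v (δ v) U).card ≤ s ∧ ∀ i ∈ U, i ∉ spt p x v (δ v) U →
      cc p x v (δ v) i ≤ 2 ^ (2 * s + 9) * ⌈(m * Real.log 2) / Real.log (p i)⌉₊ := ⟨_, rfl⟩
  have hcov : S ⊆ S1 ∪ (U.biUnion S2 ∪ (S3 ∪ S4)) := by
    intro v hv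
    rw [Finset.mem_union, Finset.mem_union, Finset.mem_union, Finset.mem_biUnion]
    by_cases h1 : ∃ i ∈ U, v i < 2 ^ (3 * s + 10) * m
    · left
      rw [hS1]
      exact Finset.mem_filter.2 ⟨hSbox hv, h1⟩
    · right
      push Not at h1
      by_cases h2 : ∃ i ∈ U, fe p x v (δ v) i 0 = 0 ∧
          2 ^ (2 * s + 9) * ⌈(m * Real.log 2) / Real.log (p i)⌉₊ ≤ cc p x v (δ v) i
      · left
        obtain ⟨i, hi, h3⟩ := h2
        refine ⟨i, hi, ?_⟩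
        rw [hS2]
        exact Finset.mem_filter.2 ⟨hv, h3⟩
      · right
        push Not at h2
        by_cases h3 : s < (spt p x v (δ v) U).card
        · left
          rw [hS3]
          exact Finset.mem_filter.2 ⟨hv, h1, h3⟩
        · right
          rw [hS4]
          refine Finset.mem_filter.2 ⟨hv, h1, not_lt.1 h3, fun i hi hi' => (h2 i hi ?_).le⟩
          by_contra h4
          exact hi' (Finset.mem_filter.2 ⟨hi, h4⟩)
  have c1 : S1.card * 2 ^ s ≤ V ^ Fintype.card ι := by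
    refine le_trans (Nat.mul_le_mul_right _ (Finset.card_le_card ?_))
      (Packing_i s m V (by omega) U hU hV)
    intro v hv
    rw [hS1] at hv
    obtain ⟨h1, h2⟩ := Finset.mem_filter.1 hv
    exact Finset.mem_filter.2 ⟨h1, h2⟩
  have c2 : ∀ i, (S2 i).card * 2 ^ (2 * s + 9) ≤ V ^ Fintype.card ι := by
    intro i
    have hsub : S2 i ⊆ S := by
      rw [hS2]
      exact Finset.filter_subset _ _
    refine Packing_ii p hp hinj x s m B V hm hB1 hB (S2 i) (hsub.trans hSbox) δ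
      (fun v hv => hδ v (hsub hv)) i ?_ ?_
    · intro v hv
      rw [hS2] at hv
      exact (Finset.mem_filter.1 hv).2.1
    · intro v hv
      rw [hS2] at hv
      exact (Finset.mem_filter.1 hv).2.2
  have c3 : S3.card * 2 ^ s ≤ V ^ Fintype.card ι := by
    have hsub : S3 ⊆ S := by
      rw [hS3]
      exact Finset.filter_subset _ _
    refine Packing_iii p hp hinj x U s m B V hm hB1 hB S3 (hsub.trans hSbox) δ
      (fun v hv => ?_) ?_ ?_
    · obtain ⟨h1, h2, h3, -⟩ := hδ v (hsub hv)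
      exact ⟨h1, h2, h3⟩
    · intro v hv
      rw [hS3] at hv
      exact (Finset.mem_filter.1 hv).2.2
    · intro v hv i hi
      rw [hS3] at hv
      exact (Nat.le_mul_of_pos_left m (by positivity)).trans ((Finset.mem_filter.1 hv).2.1 i hi)
  have c4 : S4.card * 2 ^ s ≤ 7 * V ^ Fintype.card ι := by
    have hsub : S4 ⊆ S := by
      rw [hS4]
      exact Finset.filter_subset _ _
    refine Packing_num hs (Packing_iv p hp hinj x U s m B V hs hm hU hΛ hB1 hB S4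
      (hsub.trans hSbox) δ (fun v hv => ?_) ?_ ?_ ?_)
    · obtain ⟨h1, h2, h3, -⟩ := hδ v (hsub hv)
      exact ⟨h1, h2, h3⟩
    · intro v hv
      rw [hS4] at hv
      exact (Finset.mem_filter.1 hv).2.2.1
    · intro v hv
      rw [hS4] at hv
      exact (Finset.mem_filter.1 hv).2.1
    · intro v hv
      rw [hS4] at hv
      exact (Finset.mem_filter.1 hv).2.2.2
  have c2' : (∑ i ∈ U, (S2 i).card) * (2 * 2 ^ s) ≤ V ^ Fintype.card ι := by
    have h1 : (∑ i ∈ U, (S2 i).card) * 2 ^ (2 * s + 9) ≤ (300 * s) * V ^ Fintype.card ι := by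
      rw [Finset.sum_mul]
      refine (Finset.sum_le_sum fun i _ => c2 i).trans ?_
      rw [Finset.sum_const, hU, smul_eq_mul]
    refine Nat.le_of_mul_le_mul_left ?_ (show 0 < 256 * 2 ^ s by positivity)
    calc 256 * 2 ^ s * ((∑ i ∈ U, (S2 i).card) * (2 * 2 ^ s))
        = (∑ i ∈ U, (S2 i).card) * 2 ^ (2 * s + 9) := by ring
      _ ≤ (300 * s) * V ^ Fintype.card ι := h1
      _ ≤ (256 * 2 ^ s) * V ^ Fintype.card ι := Nat.mul_le_mul_right _ (Packing_two s).1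
  have hcard : S.card ≤ S1.card + (∑ i ∈ U, (S2 i).card + (S3.card + S4.card)) := by
    refine (Finset.card_le_card hcov).trans ((Finset.card_union_le _ _).trans ?_)
    refine Nat.add_le_add_left ((Finset.card_union_le _ _).trans ?_) _
    exact Nat.add_le_add Finset.card_biUnion_le (Finset.card_union_le _ _)
  have htot : S.card * 2 ^ s ≤ 10 * V ^ Fintype.card ι := by
    have h1 := Nat.mul_le_mul_right (2 ^ s) hcard
    rw [add_mul, add_mul, add_mul] at h1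
    have h2 : (∑ i ∈ U, (S2 i).card) * (2 * 2 ^ s) = 2 * ((∑ i ∈ U, (S2 i).card) * 2 ^ s) := by
      ring
    omega
  have h2s : (0 : ℝ) < 2 ^ s := by positivity
  rw [div_mul_eq_mul_div, le_div_iff₀ h2s]
  exact_mod_cast htot

end Furst96.Spz
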